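import Pool.Agent.Lib.MP_651af7_nt.Tl.Set
import Pool.Agent.Lib.MP_8865d3_nt.Sx.Pad

/-! The inequality on varieties with an étale cover birational to a torus bundle over an abelian
variety. -/

namespace Pool.Agent.Lib.MP_651af7_nt.Tl

open MvPolynomial Module Height NumberField Av Bx Ds Et
open Tb (base)
open Pool.Agent.Lib.MP_8865d3_nt
open Sv (isum isum_mono plc isum_plc)
open Sa (VI cnt)
open Sx (jn jn_hom hv_cov hv_jn lam_le)

theorem ne_map {k K α : Type} [Field k] [Field K] [Algebra k K] {y : α → k} (h : y ≠ 0) :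
    (fun a => algebraMap k K (y a)) ≠ 0 :=
  fun h' => h (funext fun a => (map_eq_zero _).1 (congrFun h' a))

theorem main {k κ σ β γ : Type} [Field k] [NumberField k] [Fintype κ] [Fintype σ]
    [Fintype β] [Fintype γ] {n r g e e' : ℕ}
    {I' : Ideal (MvPolynomial σ (AlgebraicClosure k))} {I : Ideal (MvPolynomial κ k)}
    {f : (σ → AlgebraicClosure k) → κ → AlgebraicClosure k} (hI : Var I) (hs : Smooth I g)
    (hI' : Var I') (hf : Etale I' (I.map (map (algebraMap k (AlgebraicClosure k)))) f)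
    {Q : Ideal (MvPolynomial (Fin (n + 1) × Fin r) (AlgebraicClosure k))} (hp : Q.IsPrime)
    (hQ : ∀ P ∈ Q, ∀ m, Tb.cp m P ∈ Q) (hA : Abelian (base Q))
    {φ : Fin (n + 1) × Fin r → MvPolynomial σ (AlgebraicClosure k)}
    {ψ : σ → MvPolynomial (Fin (n + 1) × Fin r) (AlgebraicClosure k)} (i₁ : Inv I' Q φ ψ)
    (i₂ : Inv Q I' ψ φ)
    {F : β → MvPolynomial κ k} {G : γ → MvPolynomial κ k} (hF : ∀ l, (F l).IsHomogeneous e)
    (hG : ∀ l, (G l).IsHomogeneous e') (hv : VI I g F G) {ε : ℝ} (hε : 0 < ε) :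
    ∃ (Θ : MvPolynomial κ k) (t : ℕ) (L : IntermediateField k (AlgebraicClosure k))
      (_ : NumberField L) (c : ℝ), Θ.IsHomogeneous t ∧ Θ ∉ I ∧
      ∀ (S : Finset (FinitePlace k)) (T : Finset (FinitePlace L)), ∃ C : ℝ,
        ∀ (x : κ → k) (y : σ → AlgebraicClosure k) (s : AlgebraicClosure k), x ≠ 0 →
        (∀ P ∈ I, eval x P = 0) → eval x Θ ≠ 0 → (fun l => eval x (F l)) ≠ 0 →
        (fun l => eval x (G l)) ≠ 0 → y ≠ 0 → (∀ P ∈ I', eval y P = 0) →
        (fun i => algebraMap k (AlgebraicClosure k) (x i)) = s • f y →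
        ∃ (z : Fin (n + 1) × Fin r → L) (u : AlgebraicClosure k),
        (∀ j, (z j : AlgebraicClosure k) = u * eval y (φ j)) ∧ (∀ j, (fun m => z (j, m)) ≠ 0) ∧
        finrank k (tsp I x) = g + 1 ∧
        ∀ β : Fin (g + 1) → κ → k, LinearIndependent k β → (∀ l, β l ∈ tsp I x) →
        hK x β + (∑ w : InfinitePlace k, w.mult * (lam w.1 F e x - lam w.1 G e' x) +
          ∑ w ∈ S, (lam w.1 F e x - lam w.1 G e' x)) ≤ ε * logHeight x + c * cnt T z + C := by
  classical
  have h00 : (1 : MvPolynomial κ k) ∉ I := fun h => hI.prime.ne_top ((Ideal.eq_top_iff_one _).2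
    (by simpa using Ideal.mem_map_of_mem (map (algebraMap k (AlgebraicClosure k))) h))
  have h01 : NumberField (⊥ : IntermediateField k (AlgebraicClosure k)) :=
    NumberField.of_module_finite k _
  rcases isEmpty_or_nonempty β with _ | hβ
  · exact ⟨1, 0, ⊥, h01, 0, isHomogeneous_one _ _, h00, fun S T =>
      ⟨0, fun x _ _ _ _ _ h => (h (Subsingleton.elim _ _)).elim⟩⟩
  rcases isEmpty_or_nonempty γ with _ | _
  · exact ⟨1, 0, ⊥, h01, 0, isHomogeneous_one _ _, h00, fun S T =>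
      ⟨0, fun x _ _ _ _ _ _ h => (h (Subsingleton.elim _ _)).elim⟩⟩
  obtain ⟨K, hK, I₁, χ₀, T₀, _, d, π, a, C₀, h1, h5, h6, h7, h8, h9⟩ :=
    setup hI hs hI' hf hp hQ hA i₁ i₂
  have hε' : 0 < ε / (a + 1) := by positivity
  have hJ := jn_hom hF hG
  obtain ⟨H, t, t1, t2, c, c0, t3⟩ := Cc.down (F := fun l => map (algebraMap k K) (F l))
    (G := fun l => map (algebraMap k K) (jn F e G e' l)) h5 h6 h1.hom (var_up hI).hom
    (fun l => (hF l).map _) (fun l => (hJ l).map _)
    (h8 (fun p => ((hF _).map _).aeval _ (h5.hom _)) (fun p => ((hJ _).map _).aeval _ (h5.hom _))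
      (fun _ => by
        simp only [aeval_map_algebraMap]
        exact hv_cov h5 h6 h1.hom h7 hF hJ (hv_jn (hv hβ))) hε')
  obtain ⟨Θ, t', u1, u2, u3⟩ := h9 H t t1 t2
  refine ⟨Θ, t', K, hK, c / finrank k K, u1, u2, fun S T => ?_⟩
  obtain ⟨S', hS, -⟩ := Lr.exists_places (K := K) (n := 0) S
  obtain ⟨C, hC⟩ := t3 (S' ∪ T)
  have hn : (0 : ℝ) < finrank k K := Nat.cast_pos.2 finrank_pos
  refine ⟨(ε / (a + 1) * C₀ + C) / finrank k K,
    fun x y₀ s₀ x0 xz xΘ xF xG y0 yz hy => ?_⟩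
  have r1 : finrank k (tsp I x) = g + 1 := by
    rw [← finrank_tsp (F := AlgebraicClosure k)]
    exact hs _ (ne_map x0) (tan3_zero xz)
  have r2 : finrank K (tsp (up K I) fun a => algebraMap k K (x a)) = g + 1 := by
    rw [Lr.up_eq, tsp_map (x := fun a => algebraMap k K (x a)) fun P hP =>
      (aeval_algebraMap_apply K x P).trans ((map_eq_zero _).2 (xz P hP)), finrank_tsp, r1]
  obtain ⟨y, s, u, y1, y2, y3, y4, yh, y5⟩ := u3 x y₀ x0 xΘ ⟨y0, yz, s₀, hy⟩
  have xF' : (fun l => eval (fun a => algebraMap k K (x a)) (map (algebraMap k K) (F l))) ≠ 0 := by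
    simpa only [ev_map] using ne_map xF
  have xG' : (fun l => eval (fun a => algebraMap k K (x a)) (map (algebraMap k K) (G l))) ≠ 0 := by
    simpa only [ev_map] using ne_map xG
  have k1 := fun v => lam_le v (P := fun l => map (algebraMap k K) (jn F e G e' l)) (e := e)
    (D := e') Sum.inl (fun p => by simp [jn]) (ne_map x0) xF'
  have k2 := fun v => lam_le v (P := fun l => map (algebraMap k K) (jn F e G e' l)) (e := e')
    (D := e) Sum.inr (fun p => by simp [jn]) (ne_map x0) xG'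
  obtain ⟨z0, e2⟩ := hC y _ s y1 y2 y3 (ne_map x0) y4 xF'
    (k1 (Classical.arbitrary (InfinitePlace K)).1).1 r2
  refine ⟨fun j => eval y (χ₀ j), u, y5, z0, r1, fun w b1 b2 => ?_⟩
  have e3 := e2 (fun l a => algebraMap k K (w l a)) (linearIndependent_algebraMap_comp_iff.2 b1)
    fun l => tsp_up xz (b2 l)
  have e4 := isum_mono (plc S') fun v _ _ => sub_le_sub_left (Nat.add_comm e' e ▸ (k2 v).2)
    (lam v (fun l => map (algebraMap k K) (F l)) e fun a => algebraMap k K (x a))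
  have e8 := Finset.sum_le_sum_of_subset_of_nonneg (Finset.subset_union_left (s₁ := S') (s₂ := T))
    fun w _ _ => sub_nonneg.2 (k1 w.1).2
  have e9 := mul_le_mul_of_nonneg_left (cnt_anti (Finset.subset_union_right (s₁ := S') (s₂ := T))
    (z := fun j => eval y (χ₀ j)) z0) c0
  rw [isum_plc] at e3
  rw [isum_plc, isum_plc] at e4
  have e10 := (add_le_add_right e4 _).trans ((add_le_add_right (add_le_add_right e8 _) _).trans e3)
  simp only [mul_sub, Finset.sum_sub_distrib] at e10 ⊢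
  rw [sum_inf F e x0 xF, sum_inf G e' x0 xG, hS F e x x0 xF, hS G e' x x0 xG, hK_alg] at e10
  rw [MP_651af7_nt.Final.logHeight_algebraMap] at yh
  have e5 := mul_le_mul_of_nonneg_left yh hε'.le
  have e6 : ε / (a + 1) * (a * (finrank k K * logHeight x) + finrank k K * logHeight x) =
      ε * (finrank k K * logHeight x) := by field_simp
  have e7 := mul_nonneg hε'.le (mul_nonneg hn.le (logHeight_nonneg x))
  refine le_of_mul_le_mul_left ?_ hn
  rw [mul_add _ (ε * _ + _), mul_div_cancel₀ _ hn.ne', mul_add _ (ε * _), ← mul_assoc _ (c / _),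
    mul_div_cancel₀ _ hn.ne']
  linarith

end Pool.Agent.Lib.MP_651af7_nt.Tl
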