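import Pool.Agent.Lib.MP_8865d3_nt.Sa.Defs
import Pool.Agent.Lib.MP_8865d3_nt.Sv.FinD

/-! The counting function of the boundary. -/

namespace Pool.Agent.Lib.MP_651af7_nt.Tl

open NumberField Av
open Pool.Agent.Lib.MP_8865d3_nt
open Sv (osum plc isum_plc)
open Sa (cnt)

variable {k μ : Type} [Field k] [NumberField k] [Fintype μ] {n : ℕ}

/-- The local term of the counting function. -/
noncomputable def bdm (v : AbsoluteValue k ℝ) (y : Fin (n + 1) × μ → k) : ℝ :=
  ∑ j, (Real.log (nm v y) - Real.log (nm v fun m => y (j, m)))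

theorem finS_bdm (y : Fin (n + 1) × μ → k) : Vj.FinS fun v => bdm v y :=
  Vj.finS_sum Finset.univ fun _ _ => Sv.finS_sub (finS_nm _) (finS_nm _)

/-- The counting function is the sum of the local terms outside `S`. -/
theorem cnt_eq (S : Finset (FinitePlace k)) {y : Fin (n + 1) × μ → k}
    (hy : ∀ j, (fun m => y (j, m)) ≠ 0) : cnt S y = osum (plc S) fun v => bdm v y := by
  rw [Sv.osum_plc, cnt]
  refine finsum_mem_congr rfl fun w _ => ?_
  have h0 : ∀ j, 0 < nm w.1 fun m => y (j, m) := fun j => nm_pos w.1 (hy j)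
  have h1 := nm_pos w.1 (show y ≠ 0 from fun h => hy 0 (h ▸ rfl))
  change Real.log (nm w.1 y ^ (n + 1) / ∏ j, nm w.1 fun m => y (j, m)) = _
  rw [Real.log_div (pow_pos h1 _).ne' (Finset.prod_pos fun j _ => h0 j).ne', Real.log_pow,
    Real.log_prod fun j _ => (h0 j).ne', bdm, Finset.sum_sub_distrib]
  simp

theorem cnt_anti {S T : Finset (FinitePlace k)} (h : S ⊆ T) {z : Fin (n + 1) × μ → k}
    (hz : ∀ j, (fun m => z (j, m)) ≠ 0) : cnt T z ≤ cnt S z := by
  have h1 := Sv.isum_add_osum (plc S) (finS_bdm z)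
  have h2 := Sv.isum_add_osum (plc T) (finS_bdm z)
  rw [isum_plc] at h1 h2
  have h3 := Finset.sum_le_sum_of_subset_of_nonneg h (f := fun w => bdm w.1 z) fun w _ _ =>
    Finset.sum_nonneg fun j _ => sub_nonneg.2 (Real.log_le_log (nm_pos _ (hz j))
      (Real.iSup_le (fun m => le_nm w.1 z _) (nm_nn _ _)))
  rw [cnt_eq S hz, cnt_eq T hz]
  linarith

end Pool.Agent.Lib.MP_651af7_nt.Tl
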