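import Pool.Agent.Lib.MP_651af7_nt.Tl.Trop

/-! The inequality for four families of forms on a torus torsor. -/

namespace Pool.Agent.Lib.MP_651af7_nt.Tl

open MvPolynomial Height NumberField Finset Av
open Pool.Agent.Lib.MP_8865d3_nt.Sa (sg ord)
open Pool.Agent.Lib.MP_8865d3_nt.Sv (isum osum plc isum_plc osum_plc isum_mono isum_add isum_sub
  isum_const_mul osum_mono osum_add osum_const_mul isum_add_osum finS_abs exists_ad_fam
  exists_ad_lin ad_isum_le ad_osum_le)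
open Vj (gsum FinS)

variable {k ν μ L L₁ L₂ L₃ L₄ : Type} [Field k] [Fintype ν] [DecidableEq ν] [Fintype μ] [Fintype L]
  [Fintype L₁] [Fintype L₂] [Fintype L₃] [Fintype L₄] {Q : Ideal (MvPolynomial (ν × μ) k)}
  {Γ : L → MvPolynomial (ν × μ) k} {v : ν × μ → k} {Δ : Finset (ν → ℕ)} {d : ℕ} {ε : ℝ}

omit [DecidableEq ν] in
theorem abs_tr (h : Δ.Nonempty) (hd : ∀ a ∈ Δ, ∑ j, a j = d) (x : ν → ℝ) :
    |tr Δ x| ≤ d * ∑ j, |x j| := by
  obtain ⟨a, ha, h1⟩ := exists_tr h x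
  rw [← h1, mul_sum]
  refine (abs_sum_le_sum_abs _ _).trans (sum_le_sum fun j _ => ?_)
  rw [abs_mul, Nat.abs_cast]
  exact mul_le_mul_of_nonneg_right (Nat.cast_le.2 (hd a ha ▸
    single_le_sum (fun i _ => Nat.zero_le (a i)) (mem_univ j))) (abs_nonneg _)

omit [DecidableEq ν] in
theorem prod_nm (hv : Blk v) (w : AbsoluteValue k ℝ) (a : ν → ℕ) :
    ∏ j, (nm w fun b => v (j, b)) ^ a j = Real.exp (∑ j, a j * ell w v j) := by
  rw [Real.exp_sum]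
  exact prod_congr rfl fun j _ => by rw [Real.exp_nat_mul, ell, Real.exp_log (nm_pos w (hv j))]

theorem nm_mon (h : Δ.Nonempty) (hv : Blk v) (w : AbsoluteValue k ℝ) :
    nm w (mon Δ v) = Real.exp (tr Δ (ell w v)) := by
  refine le_antisymm (Real.iSup_le (fun q => ?_) (Real.exp_nonneg _)) ?_
  · refine le_trans ?_ ((prod_nm hv w q.1).le.trans (Real.exp_le_exp.2 (le_tr q.1.2 _)))
    rw [mon, map_prod]
    exact prod_le_prod (fun j _ => w.nonneg _) fun j _ => (map_pow w _ _).trans_le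
      (pow_le_pow_left₀ (w.nonneg _) (le_nm w (fun b => v (j, b)) _) _)
  · obtain ⟨a, ha, h1⟩ := exists_tr h (ell w v)
    choose b hb using fun j => @exists_nm _ _ _ _ w (fun b => v (j, b))
      ⟨(Function.ne_iff.1 (hv j)).choose⟩
    refine le_trans (le_of_eq ?_) (le_nm w (mon Δ v) (⟨a, ha⟩, b))
    rw [← h1, ← prod_nm hv, mon, map_prod]
    exact prod_congr rfl fun j _ => by rw [map_pow, hb]

omit [Fintype μ] in
theorem wt_blk (t : ν → ℝ) (m : ν × μ →₀ ℕ) :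
    Av.wt (fun s => t s.1) m = ∏ j, t j ^ Finsupp.weight mw m j := by
  induction m using Finsupp.induction_linear with
  | zero => simp [wt_zero]
  | add f g hf hg => simp only [wt_add, hf, hg, map_add, Pi.add_apply, pow_add, prod_mul_distrib]
  | single s n =>
    rw [wt_single, Finsupp.weight_single, prod_eq_single s.1 (fun j _ h => by simp [mw, h])
      fun h => (h (mem_univ _)).elim]
    simp [mw]

omit [Fintype μ] in
theorem sp_pt (hQ : ∀ P ∈ Q, ∀ a, cp a P ∈ Q) (hz : ∀ P ∈ Q, eval v P = 0)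
    (h0 : (fun l => eval v (Γ l)) ≠ 0) : (sp Q Γ).Nonempty :=
  sp_ne hQ ((Function.ne_iff.1 h0).imp fun _ hl e => hl (hz _ e))

variable [NumberField k]

/-- The trivial bound. -/
theorem low (Q : Ideal (MvPolynomial (ν × μ) k)) (Γ : L → MvPolynomial (ν × μ) k) :
    ∃ c h, Ad c h ∧ ∀ v : ν × μ → k, Blk v → (∀ P ∈ Q, eval v P = 0) →
      (fun l => eval v (Γ l)) ≠ 0 → ∀ w, ln Γ v w ≤ Real.log (c w) + tr (sp Q Γ) (ell w v) := by
  obtain ⟨c, h, hc, hl⟩ := exists_ad_fam fun l =>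
    ∑ a ∈ ((Γ l).support.image (Finsupp.weight mw)).filter (· ∈ sp Q Γ), cp a (Γ l)
  refine ⟨c, h, hc, fun v hv hz h0 w => ?_⟩
  have E0 := Real.exp_pos (tr (sp Q Γ) (ell w v))
  rw [← Real.log_exp (tr _ _), ← Real.log_mul (hc.pos w).ne' E0.ne']
  refine Real.log_le_log (nm_pos w h0) (Real.iSup_le (fun l => ?_) (mul_pos (hc.pos w) E0).le)
  beta_reduce
  rw [← sum_cp (Γ l), map_sum, ← sum_filter_of_ne (p := (· ∈ sp Q Γ)) fun a _ ha =>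
    mem_sp.2 ⟨l, fun e => ha (hz _ e)⟩, ← map_sum]
  refine ((eval₂_le_polN (absSN w) (t := fun s : ν × μ => nm w fun b => v (s.1, b)) (absSN w)
    (RingHom.id k) (fun _ => le_rfl) (y := v) (fun s => le_nm w (fun b => v (s.1, b)) s.2) _).trans
      (polN_le_mul (absSN w) (fun _ => nm_nn w _) E0.le fun m hm => ?_)).trans
        (mul_le_mul_of_nonneg_right (hl w l) E0.le)
  rw [wt_blk fun j => nm w fun b => v (j, b), prod_nm hv]
  refine Real.exp_le_exp.2 (le_tr ?_ _)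
  rw [mem_support_iff, coeff_sum] at hm
  obtain ⟨a, ha, h1⟩ := exists_ne_zero_of_sum_ne_zero hm
  rw [coeff_cp, ite_ne_right_iff] at h1
  exact h1.1 ▸ (mem_filter.1 ha).2

omit [DecidableEq ν] in
theorem finS_cn (v : ν × μ → k) : FinS fun w => ∑ j, |ell w v j| :=
  Vj.finS_sum univ fun j _ => finS_abs (finS_nm fun b => v (j, b))

omit [DecidableEq ν] [Fintype μ] in
theorem cn_eq (S : Finset (FinitePlace k)) (v : ν × μ → k) :
    cn S v = osum (plc S) fun w => ∑ j, |ell w v j| := by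
  rw [osum_plc]
  rfl

omit [DecidableEq ν] [Fintype μ] in
theorem cn_nonneg (S : Finset (FinitePlace k)) (v : ν × μ → k) : 0 ≤ cn S v :=
  cn_eq S v ▸ MP_8865d3_nt.Sv.osum_nonneg _ fun _ _ _ => sum_nonneg fun _ _ => abs_nonneg _

theorem finS_tr (h : Δ.Nonempty) (hv : Blk v) : FinS fun w => tr Δ (ell w v) := by
  simpa only [nm_mon h hv, Real.log_exp] using finS_nm (mon Δ v)

/-- Outside `S` the forms are bounded by the counting function. -/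
theorem osum_ln (hΓ : ∀ l, (Γ l).IsHomogeneous d) :
    ∃ C : ℝ, ∀ (S : Finset (FinitePlace k)) (v : ν × μ → k), Blk v →
      (fun l => eval v (Γ l)) ≠ 0 → osum (plc S) (ln Γ v) ≤ d * cn S v + C := by
  obtain ⟨c, h, hc, h1⟩ := low ⊥ Γ
  refine ⟨h, fun S v hv h0 => ?_⟩
  have hz : ∀ P ∈ (⊥ : Ideal _), eval v P = 0 := fun P hP => by rw [Ideal.mem_bot.1 hP, map_zero]
  have h2 := sp_pt (fun P hP a => by rw [Ideal.mem_bot.1 hP, cp, map_zero]; rfl) hz h0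
  have h3 := osum_mono (plc S) (f := ln Γ v) (finS_nm _) (((finS_cn v).const_mul d).add hc.fin)
    fun w _ _ => by
      linarith [h1 v hv hz h0 w, (abs_le.1 (abs_tr h2 (sp_deg hΓ) (ell w v))).2]
  rw [osum_add _ ((finS_cn v).const_mul d) hc.fin, osum_const_mul _ (finS_cn v), ← cn_eq] at h3
  linarith [ad_osum_le hc (plc S)]

/-- The proximity of a family. -/
theorem Core.prox (hC : Core Q) (hP : Q.IsPrime) (hQ : ∀ P ∈ Q, ∀ a, cp a P ∈ Q)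
    (Γ : L → MvPolynomial (ν × μ) k) (hε : 0 < ε) : ∃ Θ ∉ Q, ∃ c : ℝ, 0 ≤ c ∧
      ∀ S : Finset (FinitePlace k), ∃ C : ℝ, ∀ v : ν × μ → k, (∀ P ∈ Q, eval v P = 0) →
      eval v Θ ≠ 0 → (fun l => eval v (Γ l)) ≠ 0 →
      isum (plc S) (fun w => tr (sp Q Γ) (ell w v) - ln Γ v w) ≤ ε * hc v + c * cn S v + C := by
  by_cases h : (sp Q Γ).Nonempty
  swap
  · exact ⟨1, (Ideal.ne_top_iff_one _).1 hP.ne_top, 0, le_rfl,
      fun S => ⟨0, fun v vz _ h0 => (h (sp_pt hQ vz h0)).elim⟩⟩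
  obtain ⟨x, hx⟩ := Submodule.exists_forall_notMem_of_forall_ne_top (fun a : sp Q Γ =>
    (Q.restrictScalars k).comap (Fintype.linearCombination k fun l => cp a (Γ l))) fun a e => by
      classical
      obtain ⟨l, hl⟩ := mem_sp.1 a.2
      have h1 : Pi.single l (1 : k) ∈ (⊤ : Submodule k (L → k)) := trivial
      rw [← e, Submodule.mem_comap, Fintype.linearCombination_apply_single, one_smul] at h1
      exact hl h1
  have h1 : ∀ a ∈ sp Q Γ, cp a (∑ l, x l • Γ l) ∉ Q := fun a ha e => hx ⟨a, ha⟩ (by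
    simp only [cp, map_sum, map_smul] at e
    exact e)
  obtain ⟨Θ, t1, c, t2⟩ := hC 1 (fun _ => 1) (fun 𝔭 hp h2 _ => (hp.ne_top
    ((Ideal.eq_top_iff_one _).2 (h2 0))).elim) ∅ (fun _ h => by simp at h) _
    (fun e => h.elim fun a ha => h1 a ha (hQ _ e a)) _ h1 ε hε
  obtain ⟨c', C', hc', h2⟩ := exists_ad_lin fun (_ : Unit) l => x l
  refine ⟨Θ, t1, max c 0, le_max_right _ _, fun S => (t2 S).elim fun C h3 =>
    ⟨C + C', fun v vz vΘ h7 => ?_⟩⟩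
  obtain ⟨hv, h4, -, h5⟩ := h3 v vz vΘ
  have h6 : eval v (∑ l, x l • Γ l) = ∑ l, x l * eval v (Γ l) := by
    simp only [map_sum, smul_eval]
  have h8 := isum_mono (plc S) (f := fun w => tr (sp Q Γ) (ell w v) - ln Γ v w)
    (g := fun w => Real.log (nm w (mon (sp Q Γ) v) / w (eval v (∑ l, x l • Γ l))) +
      Real.log (c' w)) fun w _ _ => by
    have h9 := Real.log_le_log (w.pos h4) (h6 ▸ h2 w _ _ (nm_nn w _) (le_nm w _) ())
    rw [Real.log_mul (hc'.pos w).ne' (nm_pos w h7).ne'] at h9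
    rw [nm_mon h hv, Real.log_div (Real.exp_pos _).ne' (w.pos h4).ne', Real.log_exp, ln]
    linarith
  rw [isum_add, isum_plc S fun w => Real.log (_ / _)] at h8
  rw [show mon ∅ v = 0 from funext fun q => (notMem_empty _ q.1.2).elim, logHeight_zero,
    show (fun _ : Fin 1 => eval v 1) = 1 from funext fun _ => map_one _, logHeight_one, sub_self,
    add_zero] at h5
  have h9 := mul_le_mul_of_nonneg_right (le_max_left c 0) (cn_nonneg S v)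
  exact h8.trans ((add_le_add h5 (ad_isum_le hc' _)).trans (by linarith))

/-- The height of a subscheme of codimension two. -/
theorem Core.gcd (hC : Core Q) (hP : Q.IsPrime) (hQ : ∀ P ∈ Q, ∀ a, cp a P ∈ Q) (h2 : Ht2 Q Γ)
    (hε : 0 < ε) : ∃ Θ ∉ Q, ∃ c : ℝ, 0 ≤ c ∧ ∀ S : Finset (FinitePlace k), ∃ C : ℝ,
      ∀ v : ν × μ → k, (∀ P ∈ Q, eval v P = 0) → eval v Θ ≠ 0 →
      Blk v ∧ (fun l => eval v (Γ l)) ≠ 0 ∧
      gsum (fun w => tr (sp Q Γ) (ell w v)) - gsum (ln Γ v) ≤ ε * hc v + c * cn S v + C := by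
  let e := (Fintype.equivFin L).symm
  obtain ⟨Θ, t1, c, t2⟩ := hC _ (Γ ∘ e) (fun 𝔭 hp h3 => h2 𝔭 hp (e.surjective.forall.2 h3)) (sp Q Γ)
    (fun a ha => e.surjective.exists.1 (mem_sp.1 ha)) 1 ((Ideal.ne_top_iff_one _).1 hP.ne_top) ∅
    (fun _ h => by simp at h) ε hε
  refine ⟨Θ, t1, max c 0, le_max_right _ _, fun S => (t2 S).imp fun C h3 v vz vΘ => ?_⟩
  obtain ⟨hv, -, h4, h5⟩ := h3 v vz vΘ
  have h6 : (fun l => eval v (Γ l)) ≠ 0 := fun h => h4 (funext fun i => congrFun h (e i))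
  have h7 := sp_pt hQ vz h6
  have h8 : mon (sp Q Γ) v ≠ 0 := fun h => (Real.exp_pos _).ne'
    ((nm_mon h7 hv (Classical.arbitrary (InfinitePlace k)).1).symm.trans (by simp [h, nm]))
  have h9 := gsum_nm h8
  simp only [nm_mon h7 hv, Real.log_exp] at h9
  simp only [Real.iSup_of_isEmpty, zero_div, Real.log_zero, mul_zero, sum_const_zero,
    zero_add] at h5
  refine ⟨hv, h6, ?_⟩
  rw [h9, show gsum (ln Γ v) = _ from gsum_nm h6, ← logHeight_comp_equiv e]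
  exact h5.trans (by linarith [mul_le_mul_of_nonneg_right (le_max_left c 0) (cn_nonneg S v)])

theorem main_W (hP : Q.IsPrime) (hQ : ∀ P ∈ Q, ∀ a, cp a P ∈ Q) (hC : Core Q)
    {Γ₁ : L₁ → MvPolynomial (ν × μ) k} {Γ₂ : L₂ → MvPolynomial (ν × μ) k}
    {Γ₃ : L₃ → MvPolynomial (ν × μ) k} {Γ₄ : L₄ → MvPolynomial (ν × μ) k} {d₁ d₂ d₃ d₄ p q : ℕ}
    (g₁ : ∀ l, (Γ₁ l).IsHomogeneous d₁) (g₂ : ∀ l, (Γ₂ l).IsHomogeneous d₂)
    (g₃ : ∀ l, (Γ₃ l).IsHomogeneous d₃) (g₄ : ∀ l, (Γ₄ l).IsHomogeneous d₄) (h2 : Ht2 Q Γ₁)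
    (hd : d₁ + d₂ + q * d₄ = d₃ + p * d₄)
    (h : ∀ ω : ν → ℕ, ord Q (ow ω) Γ₁ + ord Q (ow ω) Γ₂ + q * ord Q (ow ω) Γ₄ ≤
      ord Q (ow ω) Γ₃ + p * ord Q (ow ω) Γ₄) {ε : ℝ} (hε : 0 < ε) :
    Eng Q Γ₁ Γ₂ Γ₃ Γ₄ p q ε := by
  have hε' : 0 < ε / (q + 2) := by positivity
  obtain ⟨Θ₁, t₁, c₁, u₁, r₁⟩ := hC.gcd hP hQ h2 hε'
  obtain ⟨Θ₂, t₂, c₂, u₂, r₂⟩ := hC.prox hP hQ Γ₂ hε'
  obtain ⟨Θ₄, t₄, c₄, u₄, r₄⟩ := hC.prox hP hQ Γ₄ hε'
  obtain ⟨s₃, C₃, a₃, l₃⟩ := low Q Γ₃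
  obtain ⟨s₄, C₄, a₄, l₄⟩ := low Q Γ₄
  refine ⟨Θ₁ * Θ₂ * Θ₄, fun hm => ?_, c₁ + c₂ + q * c₄ + d₁, by positivity, fun S => ?_⟩
  · simp only [hP.mul_mem_iff_mem_or_mem, t₁, t₂, t₄, or_self] at hm
  obtain ⟨E₁, r₁⟩ := r₁ S
  obtain ⟨E₂, r₂⟩ := r₂ S
  obtain ⟨E₄, r₄⟩ := r₄ S
  refine ⟨E₁ + E₂ + q * E₄ + C₃ + p * C₄, fun v vz vΘ k₂ k₃ k₄ => ?_⟩
  simp only [map_mul, mul_ne_zero_iff] at vΘ
  obtain ⟨hv, k₁, i₁⟩ := r₁ v vz vΘ.1.1
  refine ⟨hv, k₁, ?_⟩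
  have n₁ := sp_pt hQ vz k₁
  have n₂ := sp_pt hQ vz k₂
  have n₃ := sp_pt hQ vz k₃
  have n₄ := sp_pt hQ vz k₄
  have i₀ := tr_real n₁ n₂ n₃ n₄ (sp_deg g₁) (sp_deg g₂) (sp_deg g₃) (sp_deg g₄) hd fun ω => by
    obtain ⟨m₁, e₁, f₁⟩ := ord_eq hQ n₁ ω
    obtain ⟨m₂, e₂, f₂⟩ := ord_eq hQ n₂ ω
    obtain ⟨m₃, e₃, f₃⟩ := ord_eq hQ n₃ ω
    obtain ⟨m₄, e₄, f₄⟩ := ord_eq hQ n₄ ω
    have h3 := h ω
    rw [e₁, e₂, e₃, e₄] at h3
    have h4 : m₁ + m₂ + q * m₄ ≤ m₃ + p * m₄ := by exact_mod_cast h3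
    have h5 : (m₁ : ℝ) + m₂ + q * m₄ ≤ m₃ + p * m₄ := by exact_mod_cast h4
    rw [f₁, f₂, f₃, f₄]
    linarith
  have i₂ := r₂ v vz vΘ.1.2 k₂
  have i₃ := ad_isum_le a₃ (plc S)
  have i₄ := mul_le_mul_of_nonneg_left (r₄ v vz vΘ.2 k₄) (q.cast_nonneg (α := ℝ))
  have i₅ := mul_le_mul_of_nonneg_left (ad_isum_le a₄ (plc S)) (p.cast_nonneg (α := ℝ))
  have i₆ := osum_mono (plc S) ((finS_cn v).const_mul (-d₁)) (finS_tr n₁ hv) fun w _ _ =>
    (neg_mul _ _).trans_le (abs_le.1 (abs_tr n₁ (sp_deg g₁) (ell w v))).1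
  rw [osum_const_mul _ (finS_cn v), ← cn_eq] at i₆
  have i₇ := isum_mono (plc S)
    (f := fun w => ln Γ₃ v w - ln Γ₂ v w + p * ln Γ₄ v w - q * ln Γ₄ v w)
    (g := fun w => tr (sp Q Γ₁) (ell w v) + (tr (sp Q Γ₂) (ell w v) - ln Γ₂ v w) +
      q * (tr (sp Q Γ₄) (ell w v) - ln Γ₄ v w) + Real.log (s₃ w) + p * Real.log (s₄ w))
    fun w _ _ => by
      linarith [i₀ (ell w v), l₃ v hv vz k₃ w,
        mul_le_mul_of_nonneg_left (l₄ v hv vz k₄ w) (p.cast_nonneg (α := ℝ))]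
  rw [isum_add _ _ fun w => p * Real.log _, isum_add _ _ fun w => Real.log _,
    isum_add _ _ fun w => q * _, isum_add _ fun w => tr _ _, isum_const_mul, isum_const_mul] at i₇
  have i₈ := isum_add_osum (plc S) (finS_tr n₁ hv)
  have i₉ : ε / (q + 2) * hc v * (q + 2) = ε * hc v := by field_simp
  linarith

end Pool.Agent.Lib.MP_651af7_nt.Tl
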