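import Pool.Agent.Lib.MP_8865d3_nt.Sa.LVal

/-! From the inequality for valuations to the inequality for orders, with the weight of the
vector fields. -/

namespace Pool.Agent.Lib.MP_651af7_nt.Tl

open MvPolynomial WithZero Pool.Agent.Lib.MP_651af7_nt.Av
open Pool.Agent.Lib.MP_651af7_nt.Bx (minors map_minors minors_tri)
open Pool.Agent.Lib.MP_8865d3_nt
open Lr (gp aeval_gp aeval_gp_eq_zero exists_val exists_ext der_le VIneq minors_der td_pow)
open Sa (sg ord sg_X sg_ne td_le)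

variable {K τ : Type} [Field K] {P : Ideal (MvPolynomial τ K)} {w : τ → ℕ}

/-- The monomial valuation and the derivations given by vector fields, divided by a
polynomial of the same weight. -/
theorem exists_vl [P.IsPrime] (hP : ∀ p ∈ P, sg P w p = 0) {U : MvPolynomial τ K} (h₀ : U ∉ P)
    {δ : ℕ} (hU : sg P w U = Polynomial.X ^ δ * Polynomial.C (Ideal.Quotient.mk P U)) :
    ∃ v : Valuation (FractionRing (MvPolynomial τ K ⧸ P)) ℤᵐ⁰,
      (∀ p, p ∉ P → v (aeval (gp P) p) = exp (-((sg P w p).natTrailingDegree : ℤ))) ∧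
      ∀ W : τ → MvPolynomial τ K, (∀ p ∈ P, dP X W p ∈ P) →
        (∀ s, sg P w (W s) = Polynomial.X ^ (w s + δ) *
          Polynomial.C (Ideal.Quotient.mk P (W s))) →
        ∃ θ : Derivation K (FractionRing (MvPolynomial τ K ⧸ P))
          (FractionRing (MvPolynomial τ K ⧸ P)),
          (∀ p : MvPolynomial τ K, aeval (gp P) U * θ (aeval (gp P) p) = aeval (gp P) (dP X W p)) ∧
            ∀ z, v (θ z) ≤ v z := by
  let s := Ideal.Quotient.liftₐ P (sg P w) hP
  have hs : ∀ p, s (Ideal.Quotient.mk P p) = sg P w p := fun _ => rfl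
  have hi : Function.Injective s := (injective_iff_map_eq_zero _).2 fun q hq => by
    obtain ⟨p, rfl⟩ := Ideal.Quotient.mk_surjective q
    exact Ideal.Quotient.eq_zero_iff_mem.2 (not_not.1 fun h => sg_ne h hq)
  obtain ⟨v, h1, h2⟩ := exists_val (FractionRing (MvPolynomial τ K ⧸ P)) s hi
  have k1 : ∀ p, p ∉ P → v (aeval (gp P) p) = exp (-((sg P w p).natTrailingDegree : ℤ)) :=
    fun p hp => by rw [aeval_gp, h1 _ (mt Ideal.Quotient.eq_zero_iff_mem.1 hp), hs]
  refine ⟨v, k1, fun W hW hw => ?_⟩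
  have k2 : aeval (gp P) U ≠ 0 := mt aeval_gp_eq_zero.1 h₀
  have k3 : v (aeval (gp P) U) = exp (-(δ : ℤ)) := by
    have k4 := k1 _ h₀
    rwa [hU, Polynomial.X_pow_mul_C, Polynomial.C_mul_X_pow_eq_monomial,
      Polynomial.natTrailingDegree_monomial (mt Ideal.Quotient.eq_zero_iff_mem.1 h₀)] at k4
  generalize aeval (gp P) U = u at k2 k3
  have h3 : ∀ p : MvPolynomial τ K,
      dP (gp P) (fun s => aeval (gp P) (W s)) p = aeval (gp P) (dP X W p) := fun p => by
    rw [map_dP]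
    simp only [aeval_X]
  obtain ⟨θ, hθ⟩ := exists_ext (FractionRing (MvPolynomial τ K ⧸ P))
    (Ideal.Quotient.liftₐ P (aeval (dw (gp P) fun s => aeval (gp P) (W s))) fun p hp =>
      TrivSqZeroExt.ext ((fst_aeval_dw _ _ _).trans (aeval_gp_eq_zero.2 hp))
        ((h3 p).trans (aeval_gp_eq_zero.2 (hW p hp)))) fun q => by
      obtain ⟨p, rfl⟩ := Ideal.Quotient.mk_surjective q
      exact (fst_aeval_dw _ _ _).trans (aeval_gp P p)
  have h4 : ∀ p : MvPolynomial τ K, θ (aeval (gp P) p) = aeval (gp P) (dP X W p) := fun p => by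
    rw [aeval_gp, hθ, ← h3]
    rfl
  have h5 : ∀ (p : MvPolynomial τ K) (i : ℕ), algebraMap _ _ ((sg P w (dP X W p)).coeff i) =
      θ (algebraMap _ _ ((sg P w p * Polynomial.X ^ δ).coeff i)) := fun p => by
    induction p using MvPolynomial.induction_on with
    | C a =>
      intro i
      rw [dP_C, map_zero, Polynomial.coeff_zero, map_zero, ← algebraMap_eq, AlgHom.commutes,
        Polynomial.algebraMap_apply, Polynomial.coeff_C_mul_X_pow]
      split_ifs
      · rw [← IsScalarTower.algebraMap_apply, Derivation.map_algebraMap]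
      · rw [map_zero, map_zero]
    | add p q hp hq =>
      intro i
      simp only [dP_add_pol, map_add, add_mul, Polynomial.coeff_add, hp, hq]
    | mul_X p t hp =>
      intro i
      have h6 := h4 (X t)
      rw [dP_X, aeval_gp, aeval_gp] at h6
      have h7 : sg P w (p * X t) * Polynomial.X ^ δ = sg P w p * Polynomial.X ^ δ *
          Polynomial.X ^ w t * Polynomial.C (Ideal.Quotient.mk P (X t)) := by
        rw [map_mul, sg_X]
        ring
      have h8 : sg P w (p * W t) = sg P w p * Polynomial.X ^ δ *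
          Polynomial.X ^ w t * Polynomial.C (Ideal.Quotient.mk P (W t)) := by
        rw [map_mul, hw]
        ring
      rw [dP_mul_pol, aeval_X_left_apply, aeval_X_left_apply, dP_X, map_add, h7, h8, map_mul, sg_X]
      generalize sg P w p * Polynomial.X ^ δ = g at hp ⊢
      simp only [map_add, map_mul, ← mul_assoc, Polynomial.coeff_add,
        Polynomial.coeff_mul_C, Polynomial.coeff_mul_X_pow', Derivation.leibniz, h6, smul_eq_mul]
      split_ifs
      · rw [hp, mul_comm (θ _)]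
      · simp
  refine ⟨u⁻¹ • θ, fun p => by
    rw [Derivation.smul_apply, smul_eq_mul, mul_inv_cancel_left₀ k2, h4],
    der_le (Q := MvPolynomial τ K ⧸ P) v _ fun q => ?_⟩
  obtain ⟨p, rfl⟩ := Ideal.Quotient.mk_surjective q
  by_cases h0 : Ideal.Quotient.mk P p = 0
  · simp [h0]
  rw [Derivation.smul_apply, smul_eq_mul, map_mul, map_inv₀, inv_mul_le_iff₀ (v.pos_iff.2 k2), k3,
    h1 _ h0, ← exp_add, ← neg_add, ← Nat.cast_add, ← aeval_gp, h4, aeval_gp, h2]
  intro i hi'
  rw [hs] at hi' ⊢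
  refine IsFractionRing.injective _ (FractionRing (MvPolynomial τ K ⧸ P)) ?_
  rw [h5, Polynomial.coeff_mul_X_pow']
  split_ifs
  · rw [Polynomial.coeff_eq_zero_of_lt_natTrailingDegree (by omega), map_zero, map_zero]
  · rw [map_zero, map_zero]

variable {k κ β : Type} [Field k] [Algebra k K] {D : ℕ}

/-- The inequality for orders. -/
theorem ord_le [P.IsPrime] (hz : ∀ p ∈ P, sg P w p = 0) {γ T B : Type} {U : B → MvPolynomial τ K}
    {b₀ : B} (h₀ : U b₀ ∉ P) {δ : ℕ}
    (hU : sg P w (U b₀) = Polynomial.X ^ δ * Polynomial.C (Ideal.Quotient.mk P (U b₀)))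
    {ψ : κ → MvPolynomial τ K}
    {Ψ : T → κ → MvPolynomial τ K} (hΨ : ∀ t i l, Ψ t i * ψ l - Ψ t l * ψ i ∈ P)
    {W : B → Fin D → τ → MvPolynomial τ K} (hW : ∀ b j, ∀ p ∈ P, dP X (W b j) p ∈ P)
    (hw : ∀ b j s, sg P w (W b j s) = Polynomial.X ^ (w s + δ) *
      Polynomial.C (Ideal.Quotient.mk P (W b j s)))
    {I : β → MvPolynomial κ k} {J : γ → MvPolynomial κ k} {eI eJ : ℕ}
    (hI : ∀ l, (I l).IsHomogeneous eI) (hJ : ∀ l, (J l).IsHomogeneous eJ)
    (h : ∀ v : Valuation (FractionRing (MvPolynomial τ K ⧸ P)) ℤᵐ⁰,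
      (∀ c : k, v (algebraMap k _ c) ≤ 1) →
        ∀ l, VIneq v (fun i => aeval (gp P) (ψ i)) D I (J l)) :
    ord P w (fun p : T × κ × B => Ψ p.1 p.2.1 ^ (D + 1) * U p.2.2 ^ D) +
        ord P w (fun l => aeval ψ (I l)) + eJ * ord P w ψ ≤
      ord P w (fun p : γ × B × T × (Fin (D + 1) → κ) =>
        aeval ψ (J p.1) * minors (Fin.cons (Ψ p.2.2.1) fun j i => dP X (W p.2.1 j) (Ψ p.2.2.1 i))
          p.2.2.2) + eI * ord P w ψ := by
  obtain ⟨v, h1, h2⟩ := exists_vl hz h₀ hU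
  have h3 : ∀ c : k, v (algebraMap k _ c) ≤ 1 := fun c => by
    have h4 : algebraMap k (FractionRing (MvPolynomial τ K ⧸ P)) c =
        aeval (gp P) (C (algebraMap k K c) : MvPolynomial τ K) := by
      rw [aeval_C, ← IsScalarTower.algebraMap_apply]
    rw [h4]
    by_cases hc : C (algebraMap k K c) ∈ P
    · rw [aeval_gp_eq_zero.2 hc, map_zero]; exact zero_le
    · rw [h1 _ hc, ← exp_zero, exp_le_exp]; omega
  refine (Lr.le_add_iInf (b := 0) ?_).trans_eq (by rw [zero_add]; rfl)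
  rintro ⟨l', b, t, S⟩
  choose θ h4 h5 using fun j => h2 (W b j) (hW b j) (hw b j)
  obtain ⟨i, l, h6, h7, h8⟩ := h v h3 l' (fun j => (θ j).restrictScalars k) h5 S
  set ξ := fun i => aeval (gp P) (ψ i) with hξ
  have h0 : aeval (gp P) (ψ i) = ξ i := rfl
  have h9 : ∀ {f : MvPolynomial κ k} {e : ℕ}, f.IsHomogeneous e →
      aeval (gp P) (aeval ψ f) = ξ i ^ e * aeval (fun s => ξ s / ξ i) f := fun {f e} hf => by
    rw [← aeval_mul_of_hom hf]
    simp only [mul_div_cancel₀ _ h6]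
    exact (MvPolynomial.comp_aeval_apply ψ ((aeval (gp P) : _ →ₐ[K] _).restrictScalars k) f)
  have h10 : ∀ s, aeval (gp P) (Ψ t s) = aeval (gp P) (Ψ t i) * (ξ s / ξ i) := fun s => by
    have h11 := aeval_gp_eq_zero.2 (hΨ t i s)
    rw [map_sub, map_mul, map_mul, sub_eq_zero] at h11
    rw [← mul_div_assoc, eq_div_iff h6]
    exact h11.symm
  have h11 : aeval (gp P) (minors (Fin.cons (Ψ t) fun j i => dP X (W b j) (Ψ t i)) S) =
      aeval (gp P) (U b₀) ^ D * (aeval (gp P) (Ψ t i) ^ (D + 1) * minors (Fin.cons (fun s => ξ s / ξ i)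
        fun j s => (θ j).restrictScalars k (ξ s / ξ i)) S) := by
    rw [← minors_der, ← one_mul (aeval (gp P) (U b₀) ^ D),
      ← minors_tri 1 (aeval (gp P) (U b₀)) fun _ => 0]
    refine (map_minors (aeval (gp P) : _ →ₐ[K] _).toRingHom _ S).trans ?_
    congr 1
    funext j s
    refine Fin.cases ((h10 s).trans (one_mul _).symm) (fun j => ?_) j
    rw [Fin.cons_succ, Fin.cons_succ, ← h10, zero_mul, add_zero]
    exact (h4 j _).symm
  have h12 := td_le hz h1 (p := aeval ψ (J l') * minors (Fin.cons (Ψ t)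
      fun j i => dP X (W b j) (Ψ t i)) S * ψ i ^ eI)
      (q := Ψ t i ^ (D + 1) * U b₀ ^ D * aeval ψ (I l) * ψ i ^ eJ) (by
    simp only [map_mul, map_pow, h9 (hI l), h9 (hJ l'), h11, h0] at h8 ⊢
    refine le_of_eq_of_le ?_ ((mul_le_mul_right h8 (v (aeval (gp P) (Ψ t i)) ^ (D + 1) *
      v (ξ i) ^ eI * v (ξ i) ^ eJ * v (aeval (gp P) (U b₀)) ^ D)).trans_eq ?_) <;> ac_rfl)
  have h13 : ord P w ψ = (sg P w (ψ i)).trailingDegree :=
    le_antisymm (iInf_le _ i) (le_iInf fun s => td_le hz h1 (h7 s))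
  have h15 := iInf_le (fun p : T × κ × B =>
    (sg P w (Ψ p.1 p.2.1 ^ (D + 1) * U p.2.2 ^ D)).trailingDegree) (t, i, b₀)
  have h16 := iInf_le (fun l => (sg P w (aeval ψ (I l))).trailingDegree) l
  rw [h13, zero_add]
  refine (add_le_add_left (add_le_add h15 h16) _).trans ?_
  rwa [map_mul _ _ (ψ i ^ eI), map_mul _ _ (ψ i ^ eJ), map_mul _ _ (aeval ψ (I l)),
    map_pow _ (ψ i), map_pow _ (ψ i), Polynomial.trailingDegree_mul, Polynomial.trailingDegree_mul,
    Polynomial.trailingDegree_mul, td_pow (sg P w (ψ i)), td_pow (sg P w (ψ i))] at h12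

end Pool.Agent.Lib.MP_651af7_nt.Tl
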