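import Pool.Agent.Lib.MP_651af7_nt.Tl.EDefs
import Pool.Agent.Lib.MP_651af7_nt.Tl.Val
import Pool.Agent.Lib.MP_8865d3_nt.Sa.VI

/-! The inequality for orders from the inequality for valuations. -/

namespace Pool.Agent.Lib.MP_651af7_nt.Tl

open MvPolynomial Av Bx
open Pool.Agent.Lib.MP_8865d3_nt
open Sa (ord VI)
open Lr (gp aeval_gp_eq_zero)

variable {k ν μ κ β γ Γ T : Type} [Field k] [CharZero k] [Fintype ν] [DecidableEq ν] [Fintype μ]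
  [Fintype κ]
  {D R e e' : ℕ} {Q : Ideal (MvPolynomial (ν × μ) k)}
  {W : Γ → Fin D → ν × μ → MvPolynomial (ν × μ) k} {wt : Γ → MvPolynomial (ν × μ) k}
  {I : Ideal (MvPolynomial κ k)} {φ : ν × μ → MvPolynomial κ k} {ψ : κ → MvPolynomial (ν × μ) k}
  {F : β → MvPolynomial κ k} {G : γ → MvPolynomial κ k}

/-- The hypothesis on orders of `main_W`. -/
theorem ord_key [Nonempty β] [Q.IsPrime] (h : Par Q W wt R) (hQ : ∀ P ∈ Q, ∀ a, cp a P ∈ Q)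
    (hn : ∀ j, ∃ b, X (j, b) ∉ Q) (hI : I.IsPrime) (h₁ : Inv I Q φ ψ) (h₂ : Inv Q I ψ φ)
    {Ψ : T → κ → MvPolynomial (ν × μ) k} (hΨ : ∀ t i l, Ψ t i * ψ l - Ψ t l * ψ i ∈ Q)
    (hF : ∀ l, (F l).IsHomogeneous e) (hG : ∀ l, (G l).IsHomogeneous e') (hv : VI I D F G)
    (ω : ν → ℕ) :
    ord Q (ow ω) (fun q : T × κ × Γ => Ψ q.1 q.2.1 ^ (D + 1) * wt q.2.2 ^ D) +
        ord Q (ow ω) (fun l => aeval ψ (F l)) + e' * ord Q (ow ω) ψ ≤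
      ord Q (ow ω) (fun q : γ × Γ × T × (Fin (D + 1) → κ) =>
        aeval ψ (G q.1) * wr W (Ψ q.2.2.1) q.2.1 q.2.2.2) + e * ord Q (ow ω) ψ := by
  obtain ⟨c, hc⟩ := h.ne hn
  refine ord_le (sg_zero hQ ω) hc (sg_wh _ (h.whw ω c)) hΨ (h.tan hn)
    (fun b j s => sg_wh _ (h.whW ω b j s)) hF hG fun v h l => hv ‹_› _ _ (fun P d hP => ?_) v h l
  rw [← comp_aeval_apply, aeval_gp_eq_zero]
  exact ⟨fun h => not_not.1 fun h0 => h₁.pull hI hP h0 h, h₂.map _⟩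

end Pool.Agent.Lib.MP_651af7_nt.Tl
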