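import Pool.Agent.Lib.MP_651af7_nt.Bx.Rep
import Pool.Agent.Lib.MP_8865d3_nt.Lr.Rep

/-! A rational map from a variety that is smooth off the boundary is defined in codimension one
off the boundary. -/

namespace Pool.Agent.Lib.MP_651af7_nt.Tl

open MvPolynomial Module Av Bx

variable {k B μ κ : Type} [Field k] [Fintype B] [Fintype μ] {D : ℕ}
  {Q : Ideal (MvPolynomial (B × μ) k)}

/-- The tangent space of the cone has dimension `D + 1` at all points without a zero block. -/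
def Rk (Q : Ideal (MvPolynomial (B × μ) k)) (D : ℕ) : Prop :=
  ∀ (F : Type) [Field F] [Algebra k F] (y : B × μ → F), (∀ j, (fun b => y (j, b)) ≠ 0) →
    (∀ P ∈ Q, aeval y P = 0) → finrank F (tsp Q y) = D + 1

variable [CharZero k]

theorem Rk.indep [Q.IsPrime] (hr : Rk Q D) (hb : ∀ j, ∃ b, X (j, b) ∉ Q) :
    ∃ z : Fin (D + 1) → MvPolynomial (B × μ) k ⧸ Q, AlgebraicIndependent k z := by
  classical
  obtain ⟨M, _, _, x, hx, -⟩ := tr_point Q
  have h0 : ∀ j, (fun b => x (j, b)) ≠ 0 := fun j => Function.ne_iff.2 ((hb j).imp fun b h e =>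
    h ((hx _).1 ((aeval_X _ _).trans e)))
  obtain ⟨τ, j, hj, h1, -, h3⟩ := exists_td_basis_range k x
  have : Finite τ := .of_injective j hj
  obtain ⟨m, ⟨e⟩⟩ := Finite.exists_equiv_fin τ
  let I : Fin m → B × μ := j ∘ e.symm
  have hI : AlgebraicIndependent k (x ∘ I) := h1.comp e.symm e.symm.injective
  have hR : Set.range (x ∘ I) = Set.range (x ∘ j) := e.symm.surjective.range_comp (x ∘ j)
  have hle : D + 1 ≤ m := by
    rw [← hr M x h0 fun P hP => (hx P).2 hP]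
    let f : tsp Q x →ₗ[M] (Fin m → M) := (LinearMap.funLeft M M I).comp (tsp Q x).subtype
    have hf : Function.Injective f := by
      rw [injective_iff_map_eq_zero]
      rintro ⟨v, hv⟩ h
      have hz : ∀ t, v (I t) = 0 := fun t => congrFun h t
      refine Subtype.ext (funext fun a => ?_)
      by_cases ha : a ∈ Set.range I
      · obtain ⟨t, rfl⟩ := ha
        exact hz t
      obtain ⟨φ, hφ, e1, e2⟩ := trb_eqn hI ha (by rw [hR]; exact h3 a)
      have h4 := mem_tsp.1 hv φ ((hx φ).1 e1)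
      rw [dP_eq_sum, Finset.sum_eq_single a _ fun h => (h (Finset.mem_univ a)).elim] at h4
      · exact (mul_eq_zero.1 h4).resolve_left e2
      intro b _ hb
      by_cases hb' : b ∈ Set.range I
      · obtain ⟨t, rfl⟩ := hb'
        rw [hz, mul_zero]
      · rw [pderiv_eq_zero_of_notMem_vars fun h => (mem_supported.1 hφ h).elim hb hb', map_zero,
          zero_mul]
    simpa using LinearMap.finrank_le_finrank_of_injective hf
  let g : (MvPolynomial (B × μ) k ⧸ Q) →ₐ[k] M :=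
    Ideal.Quotient.liftₐ Q (aeval x) fun P hP => (hx P).2 hP
  refine ⟨fun t => Ideal.Quotient.mk Q (X (I (Fin.castLE hle t))), .of_comp g ?_⟩
  convert hI.comp _ (Fin.castLE_injective hle) using 1
  funext t
  exact aeval_X _ _

theorem Rk.val_loc (hr : Rk Q D) {R : Type} [CommRing R] [IsDomain R] [Algebra k R]
    [Algebra.FiniteType k R] (π : MvPolynomial (B × μ) k →ₐ[k] R) (hπ : Function.Surjective π)
    (hI : ∀ P ∈ Q, π P = 0) (𝔭 : Ideal R) [𝔭.IsPrime] (h : 𝔭.height ≤ 1) {z : Fin (D + 1) → R}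
    (hz : AlgebraicIndependent k z) (ha : ∀ j, ∃ b, π (X (j, b)) ∉ 𝔭) :
    PreValuationRing (Localization.AtPrime 𝔭) := by
  have := Algebra.FiniteType.isNoetherianRing k R
  obtain ⟨z', hz'⟩ := ht_indep 𝔭 h hz
  have hf : ∀ P, aeval (fun c => algebraMap R (Localization.AtPrime 𝔭) (π (X c))) P =
      algebraMap R (Localization.AtPrime 𝔭) (π P) := fun P => by
    rw [rep1_ev, aeval_unique π]
    simp [Function.comp_def]
  have hx : ∀ P ∈ Q, aeval (fun c => algebraMap R (Localization.AtPrime 𝔭) (π (X c))) P = 0 :=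
    fun P hP => by rw [hf, hI P hP, map_zero]
  have h1 := MP_8865d3_nt.Lr.cot_le (x := fun c => algebraMap R (Localization.AtPrime 𝔭) (π (X c)))
    (z := fun t => algebraMap R (Localization.AtPrime 𝔭) (z' t)) (fun t => ?_) _
    (hr _ (fun c => algebraMap _ (IsLocalRing.ResidueField _)
      (algebraMap R (Localization.AtPrime 𝔭) (π (X c)))) (fun j => Function.ne_iff.2
        ((ha j).imp fun a h e => h ((IsLocalization.AtPrime.to_map_mem_maximal_iff _ 𝔭 _).mp
          ((IsLocalRing.residue_eq_zero_iff _).mp e))))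
      fun P hP => by rw [rep1_ev, hx P hP, map_zero]).le
    (fun δ => mem_tsp.2 fun P hP => (rep1_chain δ _ P).trans (by rw [hx P hP, map_zero])) ?_
  · have h2 : ValuationRing (Localization.AtPrime 𝔭) :=
      ((tfae_of_isNoetherianRing_of_isLocalRing_of_isDomain _).out 5 1).mp h1
    exact h2.toPreValuationRing
  · obtain ⟨⟨p, s⟩, e⟩ := IsLocalization.surj 𝔭.primeCompl t
    obtain ⟨P, hP⟩ := hπ p
    obtain ⟨Q, hQ⟩ := hπ s.1
    exact ⟨P, Q, by rw [hf, hQ]; exact IsLocalization.map_units _ s, by rw [hf, hf, hP, hQ, e]⟩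
  · refine algebraicIndependent_iff.mpr fun p hp => algebraicIndependent_iff.mp hz' p ?_
    rw [rep1_ev, rep1_ev] at hp
    have h3 := (IsLocalization.AtPrime.to_map_mem_maximal_iff _ 𝔭 _).mp
      ((IsLocalRing.residue_eq_zero_iff _).mp hp)
    exact (rep1_ev (F := R ⧸ 𝔭) z' p).trans (Ideal.Quotient.eq_zero_iff_mem.mpr h3)

/-- Finitely many proportional tuples of forms of one degree have no common zero in codimension
one off the boundary. -/
theorem Rk.exists_rep [Fintype κ] [Q.IsPrime] (hr : Rk Q D) (hb : ∀ j, ∃ b, X (j, b) ∉ Q)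
    (hQ : ∀ P ∈ Q, ∀ d, homogeneousComponent d P ∈ Q) (j₀ : B)
    {ψ : κ → MvPolynomial (B × μ) k} {b : ℕ}
    (hψ : ∀ i, (ψ i).IsHomogeneous b) (h0 : ∃ i, ψ i ∉ Q) :
    ∃ (T : Type) (_ : Fintype T) (d : ℕ) (Ψ : T → κ → MvPolynomial (B × μ) k),
      (∀ t i, (Ψ t i).IsHomogeneous d) ∧ (∀ t i l, Ψ t i * ψ l - Ψ t l * ψ i ∈ Q) ∧
      (∃ t i, Ψ t i ∉ Q) ∧
      ∀ 𝔭 : Ideal (MvPolynomial (B × μ) k ⧸ Q), 𝔭.IsPrime →
        (∀ q : T × κ, Ideal.Quotient.mk Q (Ψ q.1 q.2) ∈ 𝔭) →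
        (∀ j, ∃ b, Ideal.Quotient.mk Q (X (j, b)) ∉ 𝔭) → 2 ≤ 𝔭.height := by
  obtain ⟨s, hs, hsp⟩ := (Submodule.fg_span_iff_fg_span_finset_subset
    {f : MvPolynomial (B × μ) k | ∃ χ e i, Prp Q ψ χ e ∧ χ i = f}).1 (IsNoetherian.noetherian
      (R := MvPolynomial (B × μ) k) _)
  choose χ e i hχ hi using fun t : s => hs t.2
  have key : ∀ 𝔭 : Ideal (MvPolynomial (B × μ) k ⧸ Q), 𝔭.IsPrime →
      (∀ q : (s × μ) × κ, Ideal.Quotient.mk Q
        (X (j₀, q.1.2) ^ (Finset.univ.sup e - e q.1.1) * χ q.1.1 q.2) ∈ 𝔭) →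
      (∀ j, ∃ b, Ideal.Quotient.mk Q (X (j, b)) ∉ 𝔭) → 2 ≤ 𝔭.height := fun 𝔭 hp h𝔭 hu => by
    refine not_lt.1 fun h => ?_
    rw [ENat.lt_two_iff] at h
    obtain ⟨z, hz⟩ := hr.indep hb
    obtain ⟨ψ', e', h1, l, hl⟩ := rep_at hQ 𝔭 (hr.val_loc (Ideal.Quotient.mkₐ k Q)
      (Ideal.Quotient.mkₐ_surjective k Q) (fun P hP => Ideal.Quotient.eq_zero_iff_mem.mpr hP) 𝔭 h
      hz hu) hψ h0
    obtain ⟨a, ha⟩ := hu j₀
    have h2 : Ideal.span (s : Set (MvPolynomial (B × μ) k)) ≤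
        𝔭.comap (Ideal.Quotient.mk Q) := Ideal.span_le.2 fun f hf => by
      have h4 := h𝔭 ((⟨f, hf⟩, a), i ⟨f, hf⟩)
      simp only [map_mul, map_pow, hi] at h4
      exact (hp.mem_or_mem h4).resolve_left fun h5 => ha (hp.mem_of_pow_mem _ h5)
    exact hl (h2 (hsp.le (Submodule.subset_span ⟨ψ', e', l, h1, rfl⟩)))
  refine ⟨s × μ, inferInstance, Finset.univ.sup e,
    fun t l => X (j₀, t.2) ^ (Finset.univ.sup e - e t.1) * χ t.1 l, fun t l => ?_,
    fun t l m => ?_, ?_, key⟩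
  · have h := (isHomogeneous_X_pow (j₀, t.2) (Finset.univ.sup e - e t.1)).mul ((hχ t.1).hom l)
    rwa [Nat.sub_add_cancel (Finset.le_sup (Finset.mem_univ t.1))] at h
  · rw [mul_assoc, mul_assoc, ← mul_sub]
    exact Q.mul_mem_left _ ((hχ t.1).prp l m)
  · by_contra! hc
    have h1 := key ⊥ Ideal.isPrime_bot
      (fun q => Ideal.Quotient.eq_zero_iff_mem.2 (hc q.1 q.2)) fun j =>
        (hb j).imp fun a h e => h (Ideal.Quotient.eq_zero_iff_mem.1 e)
    rw [Ideal.height_bot] at h1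
    exact absurd h1 (by decide)

end Pool.Agent.Lib.MP_651af7_nt.Tl
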