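import Pool.Agent.Lib.MP_651af7_nt.Tl.Ht
import Pool.Agent.Lib.MP_651af7_nt.Tl.Rep
import Pool.Agent.Lib.MP_651af7_nt.Tl.Key
import Pool.Agent.Lib.MP_651af7_nt.Tl.Eng
import Pool.Agent.Lib.MP_651af7_nt.Ds.Tan

/-! The inequality over the field of definition of the torus torsor. -/

namespace Pool.Agent.Lib.MP_651af7_nt.Tl

open MvPolynomial Module Height NumberField Av Bx
open Pool.Agent.Lib.MP_8865d3_nt
open Sa (ord VI)

/-- The forms `wt c` have no common zero outside the boundary. -/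
theorem Par.cov_prime {k ν μ Γ : Type} [Field k] [Fintype ν] [DecidableEq ν] [Fintype μ] {D R : ℕ}
    {Q : Ideal (MvPolynomial (ν × μ) k)} {W : Γ → Fin D → ν × μ → MvPolynomial (ν × μ) k}
    {wt : Γ → MvPolynomial (ν × μ) k} (hP : Par Q W wt R)
    (𝔭 : Ideal (MvPolynomial (ν × μ) k ⧸ Q)) [𝔭.IsPrime]
    (hu : ∀ j, ∃ b, Ideal.Quotient.mk Q (X (j, b)) ∉ 𝔭) : ∃ c, Ideal.Quotient.mk Q (wt c) ∉ 𝔭 := by
  obtain ⟨M, _, _, x, hx, -⟩ := tr_point (𝔭.comap (Ideal.Quotient.mk Q))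
  exact (hP.cov M x (blk_gen (Q := 𝔭.comap (Ideal.Quotient.mk Q)) hu fun P => (hx P).1)
    fun P h => (hx P).2 (Ideal.mem_comap.2
      (Ideal.Quotient.eq_zero_iff_mem.2 h ▸ 𝔭.zero_mem))).imp fun c hc e => hc ((hx _).2 e)

theorem core {k κ μ β γ Γ : Type} [Field k] [NumberField k] [Fintype κ] [Fintype μ] [Fintype β]
    [Fintype γ] [Fintype Γ] {n g D R e e' : ℕ} {I : Ideal (MvPolynomial κ k)}
    {Q : Ideal (MvPolynomial (Fin (n + 1) × μ) k)}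
    {W : Γ → Fin D → Fin (n + 1) × μ → MvPolynomial (Fin (n + 1) × μ) k}
    {wt : Γ → MvPolynomial (Fin (n + 1) × μ) k} {φ : Fin (n + 1) × μ → MvPolynomial κ k}
    {ψ : κ → MvPolynomial (Fin (n + 1) × μ) k} {F : β → MvPolynomial κ k}
    {G : γ → MvPolynomial κ k} (hI : Var I) (hs : Smooth I g) (hP : Par Q W wt R) (hC : Core Q)
    (hp : Q.IsPrime) (hQ : ∀ P ∈ Q, ∀ a, cp a P ∈ Q) (hn : ∀ j, ∃ b, X (j, b) ∉ Q)
    (h₁ : Inv I Q φ ψ) (h₂ : Inv Q I ψ φ) (hF : ∀ l, (F l).IsHomogeneous e)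
    (hG : ∀ l, (G l).IsHomogeneous e') (hv : VI I g F G) {ε : ℝ} (hε : 0 < ε) :
    Cc I g φ F e G e' ε := by
  obtain ⟨Θ, t, t1, t2, t3⟩ := exists_good hI.isPrime hp hn h₁ h₂ (isHomogeneous_one _ k)
    ((Ideal.ne_top_iff_one _).1 hp.ne_top)
  by_cases h0 : Nonempty β ∧ ∃ x, Good I φ ψ x
  swap
  · exact ⟨Θ, t, t1, t2, 0, le_rfl, fun S => ⟨0, fun x x0 xz xΘ xF _ => (h0
      ⟨⟨(Function.ne_iff.1 xF).choose⟩, _, (t3 x x0 xz xΘ).1⟩).elim⟩⟩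
  obtain ⟨_, x, hx⟩ := h0
  obtain rfl : g = D := by
    have h1 := hx.rank hP hI.hom (hom_of_cp hQ) h₁ h₂
    rw [← Ds.finrank_tsp (F := AlgebraicClosure k), hs _ (fun h => hx.ne (funext fun a =>
      (map_eq_zero _).1 (congrFun h a))) (Ds.tan3_zero hx.zero)] at h1
    omega
  obtain ⟨b, hψ⟩ := h₂.hom
  obtain ⟨T, _, d, Ψ, h1, h2, h3, h4⟩ := Rk.exists_rep (fun F _ _ y h0 hz => hP.rank h0 hz) hn
    (hom_of_cp hQ) 0 hψ (h₁.ne.imp fun i hi e => hi (h₁.map _ e))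
  refine main_of hP hI.hom hI.isPrime (hom_of_cp hQ) hp hn h₁ h₂ h1 h2 hF hG (fun ε hε => ?_) h3 hε
  have g1 := fun q : T × κ × Γ => ((h1 q.1 q.2.1).pow (g + 1)).mul ((hP.degw q.2.2).pow g)
  have g2 := fun l => (hF l).aeval ψ hψ
  have g3 := fun q : γ × Γ × T × (Fin (g + 1) → κ) => ((hG q.1).aeval ψ hψ).mul
    (hP.wr_hom (h1 q.2.2.1) q.2.1 q.2.2.2)
  refine main_W hp hQ hC g1 g2 g3 hψ (fun 𝔭 h𝔭 h hu => h4 𝔭 h𝔭 (fun q => ?_) hu) (by ring)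
    (ord_key hP hQ hn hI.isPrime h₁ h₂ h2 hF hG hv) hε
  obtain ⟨c, hc⟩ := hP.cov_prime 𝔭 hu
  have h5 := h (q.1, q.2, c)
  rw [map_mul, map_pow, map_pow] at h5
  exact (h𝔭.mem_or_mem h5).elim (h𝔭.mem_of_pow_mem _) fun h6 => (hc (h𝔭.mem_of_pow_mem _ h6)).elim

end Pool.Agent.Lib.MP_651af7_nt.Tl
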