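import Pool.Agent.Lib.MP_651af7_nt.Tl.Par
import Pool.Agent.Lib.MP_8865d3_nt.Sa.LVal

/-! Torus torsors: blocks of variables, multidegrees and orders along block weights. -/

namespace Pool.Agent.Lib.MP_651af7_nt.Tl

open MvPolynomial Height NumberField Finset Av
open Pool.Agent.Lib.MP_8865d3_nt.Sa (sg ord)
open Pool.Agent.Lib.MP_8865d3_nt.Sv (isum plc)
open Vj (gsum)

variable {k ν μ L L₁ L₂ L₃ L₄ : Type} [Field k] [Fintype ν] [DecidableEq ν]

/-- The part of `P` that has degree `m j` in the variables of the block `j`. -/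
noncomputable def cp (m : ν → ℕ) (P : MvPolynomial (ν × μ) k) :
    MvPolynomial (ν × μ) k :=
  weightedHomogeneousComponent (fun s => Pi.single s.1 1) m P

/-- The products of powers of coordinates with the exponents in `Δ`, one coordinate per block. -/
def mon (Δ : Finset (ν → ℕ)) (v : ν × μ → k) (q : Δ × (ν → μ)) : k :=
  ∏ j, v (j, q.2 j) ^ q.1.1 j

/-- The weight `ω j` for the variables of the block `j`. -/
abbrev ow (ω : ν → ℕ) : ν × μ → ℕ := fun s => ω s.1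

/-- The logarithm of the norm of the block `j`. -/
noncomputable def ell (w : AbsoluteValue k ℝ) (v : ν × μ → k) (j : ν) : ℝ :=
  Real.log (nm w fun b => v (j, b))

/-- The logarithm of the norm of the values. -/
noncomputable def ln {τ : Type} (Γ : L → MvPolynomial τ k) (v : τ → k) (w : AbsoluteValue k ℝ) : ℝ :=
  Real.log (nm w fun l => eval v (Γ l))

/-- The primes that contain the family and no block have height at least two. -/
def Ht2 (Q : Ideal (MvPolynomial (ν × μ) k)) (Γ : L → MvPolynomial (ν × μ) k) : Prop :=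
  ∀ 𝔭 : Ideal (MvPolynomial (ν × μ) k ⧸ Q), 𝔭.IsPrime →
    (∀ l, Ideal.Quotient.mk Q (Γ l) ∈ 𝔭) → (∀ j, ∃ b, Ideal.Quotient.mk Q (X (j, b)) ∉ 𝔭) →
    2 ≤ 𝔭.height

section

variable [NumberField k] [Fintype μ]

/-- The height of `(1, v)`. -/
noncomputable def hc (v : ν × μ → k) : ℝ :=
  logHeight fun o : Option (ν × μ) => o.elim 1 v

/-- The distance of the blocks from being primitive outside `S`. -/
noncomputable def cn (S : Finset (FinitePlace k)) (v : ν × μ → k) : ℝ :=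
  ∑ᶠ w ∈ (S : Set (FinitePlace k))ᶜ, ∑ j, |Real.log (⨆ b, w (v (j, b)))|

/-- The conclusion of the theorem on the torsor. -/
def Core (Q : Ideal (MvPolynomial (ν × μ) k)) : Prop :=
  ∀ (m : ℕ) (G : Fin m → MvPolynomial (ν × μ) k), Ht2 Q G →
    ∀ Δ : Finset (ν → ℕ), (∀ a ∈ Δ, ∃ i, cp a (G i) ∉ Q) → ∀ R ∉ Q,
    ∀ Δ' : Finset (ν → ℕ), (∀ a ∈ Δ', cp a R ∉ Q) → ∀ ε : ℝ, 0 < ε →
    ∃ Θ ∉ Q, ∃ c : ℝ, ∀ S : Finset (FinitePlace k), ∃ C : ℝ, ∀ v : ν × μ → k,
      (∀ P ∈ Q, eval v P = 0) → eval v Θ ≠ 0 →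
      (∀ j, (fun b => v (j, b)) ≠ 0) ∧ eval v R ≠ 0 ∧ (fun i => eval v (G i)) ≠ 0 ∧
      (∑ w : InfinitePlace k, w.mult * Real.log ((⨆ q, w (mon Δ' v q)) / w (eval v R)) +
        ∑ w ∈ S, Real.log ((⨆ q, w (mon Δ' v q)) / w (eval v R))) +
        (logHeight (mon Δ v) - logHeight fun i => eval v (G i)) ≤ ε * hc v + c * cn S v + C

/-- The inequality for four families of forms. -/
def Eng (Q : Ideal (MvPolynomial (ν × μ) k)) (Γ₁ : L₁ → MvPolynomial (ν × μ) k)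
    (Γ₂ : L₂ → MvPolynomial (ν × μ) k) (Γ₃ : L₃ → MvPolynomial (ν × μ) k)
    (Γ₄ : L₄ → MvPolynomial (ν × μ) k) (p q : ℕ) (ε : ℝ) : Prop :=
  ∃ Θ ∉ Q, ∃ c : ℝ, 0 ≤ c ∧ ∀ S : Finset (FinitePlace k), ∃ C : ℝ, ∀ v : ν × μ → k,
    (∀ f ∈ Q, eval v f = 0) → eval v Θ ≠ 0 → (fun l => eval v (Γ₂ l)) ≠ 0 →
    (fun l => eval v (Γ₃ l)) ≠ 0 → (fun l => eval v (Γ₄ l)) ≠ 0 →
    (∀ j, (fun b => v (j, b)) ≠ 0) ∧ (fun l => eval v (Γ₁ l)) ≠ 0 ∧
    isum (plc S) (fun w => ln Γ₃ v w - ln Γ₂ v w + p * ln Γ₄ v w - q * ln Γ₄ v w) -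
      gsum (ln Γ₁ v) ≤ ε * hc v + c * cn S v + C

end

theorem coeff_cp (a : ν → ℕ) (f : MvPolynomial (ν × μ) k) (m : ν × μ →₀ ℕ) :
    coeff m (cp a f) = if Finsupp.weight mw m = a then coeff m f else 0 :=
  coeff_weightedHomogeneousComponent _ _ _

omit [Fintype ν] in
theorem cp_wt (a : ν → ℕ) (f : MvPolynomial (ν × μ) k) : (cp a f).IsWeightedHomogeneous mw a :=
  weightedHomogeneousComponent_isWeightedHomogeneous a f

theorem mem_wsp {a : ν → ℕ} {f : MvPolynomial (ν × μ) k} (h : cp a f ≠ 0) :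
    a ∈ f.support.image (Finsupp.weight mw) := by
  obtain ⟨m, hm⟩ := ne_zero_iff.1 h
  rw [coeff_cp, ite_ne_right_iff] at hm
  exact mem_image.2 ⟨m, mem_support_iff.2 hm.2, hm.1⟩

theorem sum_cp (f : MvPolynomial (ν × μ) k) :
    ∑ a ∈ f.support.image (Finsupp.weight mw), cp a f = f := by
  ext m
  simp only [coeff_cp, coeff_sum, sum_ite_eq, ite_eq_left_iff]
  exact fun h => (not_not.1 fun h1 => h (mem_image_of_mem _ (mem_support_iff.2 h1))).symm

theorem weight_ow (ω : ν → ℕ) (m : ν × μ →₀ ℕ) :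
    Finsupp.weight (ow ω) m = ∑ j, Finsupp.weight mw m j * ω j :=
  wh_pr (isWeightedHomogeneous_monomial (R := ℚ) mw m 1 rfl) ω (by classical simp)

theorem coeff_aeval {τ A : Type} [CommRing A] [Algebra k A] (φ : MvPolynomial τ k →ₐ[k] A)
    (w : τ → ℕ) (i : ℕ) (f : MvPolynomial τ k) :
    (aeval (fun a => Polynomial.X ^ w a * Polynomial.C (φ (X a))) f).coeff i =
      φ (weightedHomogeneousComponent w i f) := by
  induction f using MvPolynomial.induction_on' with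
  | monomial μ c =>
    have h1 : aeval (fun a => Polynomial.X ^ w a * Polynomial.C (φ (X a))) (monomial μ c) =
        Polynomial.monomial (Finsupp.weight w μ) (φ (monomial μ c)) := by
      rw [← Polynomial.C_mul_X_pow_eq_monomial, aeval_monomial, monomial_eq,
        Finsupp.weight_apply, Finsupp.sum, ← Finset.prod_pow_eq_pow_sum]
      simp only [Finsupp.prod, map_mul, map_prod, map_pow, mul_pow, Finset.prod_mul_distrib,
        smul_eq_mul, ← pow_mul, mul_comm (w _), algHom_C]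
      rw [mul_comm (∏ a ∈ μ.support, _), ← mul_assoc]
      rfl
    rw [h1, Polynomial.coeff_monomial, weightedHomogeneousComponent_of_mem
      (isWeightedHomogeneous_monomial w μ c rfl), apply_ite φ, map_zero]
    exact if_congr eq_comm rfl rfl
  | add p q hp hq => simp only [map_add, Polynomial.coeff_add, hp, hq]

theorem coeff_sg {τ : Type} (P : Ideal (MvPolynomial τ k)) (w : τ → ℕ) (i : ℕ)
    (f : MvPolynomial τ k) :
    (sg P w f).coeff i = Ideal.Quotient.mk P (weightedHomogeneousComponent w i f) :=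
  coeff_aeval (Ideal.Quotient.mkₐ k P) w i f

theorem sg_wh {τ : Type} (P : Ideal (MvPolynomial τ k)) {w : τ → ℕ} {d : ℕ}
    {f : MvPolynomial τ k} (hf : f.IsWeightedHomogeneous w d) :
    sg P w f = Polynomial.X ^ d * Polynomial.C (Ideal.Quotient.mk P f) := by
  ext1 i
  rw [coeff_sg, weightedHomogeneousComponent_of_mem hf, Polynomial.X_pow_mul_C,
    Polynomial.coeff_C_mul_X_pow, apply_ite (Ideal.Quotient.mk P), map_zero]

variable {Q : Ideal (MvPolynomial (ν × μ) k)}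

theorem mem_iff (hQ : ∀ P ∈ Q, ∀ a, cp a P ∈ Q) (f : MvPolynomial (ν × μ) k) :
    f ∈ Q ↔ ∀ a, cp a f ∈ Q :=
  ⟨hQ f, fun h => sum_cp f ▸ Q.sum_mem fun a _ => h a⟩

theorem sg_zero (hQ : ∀ P ∈ Q, ∀ a, cp a P ∈ Q) (ω : ν → ℕ) :
    ∀ f ∈ Q, sg Q (ow ω) f = 0 := fun f hf => by
  rw [← sum_cp f, map_sum]
  refine sum_eq_zero fun a _ => ?_
  rw [sg_wh _ (wh_pr (cp_wt a f) ω), Ideal.Quotient.eq_zero_iff_mem.2 (hQ f hf a), map_zero,
    mul_zero]

/-- A multihomogeneous ideal is homogeneous. -/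
theorem hom_of_cp (hQ : ∀ P ∈ Q, ∀ a, cp a P ∈ Q) :
    ∀ P ∈ Q, ∀ d, homogeneousComponent d P ∈ Q := fun P hP d => by
  rw [← sum_cp P, map_sum]
  refine Q.sum_mem fun a _ => ?_
  rw [homogeneousComponent_of_mem (wh_hom (cp_wt a P))]
  split_ifs
  exacts [hQ P hP a, Q.zero_mem]

end Pool.Agent.Lib.MP_651af7_nt.Tl
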