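import Pool.Agent.Lib.MP_651af7_nt.Tb.Defs
import Pool.Agent.Lib.MP_651af7_nt.Ds.Iface

/-! A check: the cone over an abelian variety and the split torus are torus bundles. -/

namespace Pool.Agent.Lib.MP_651af7_nt.Tl

open MvPolynomial Ds Tb

section

variable {Ω R σ τ M M' : Type} [Field Ω] [CommRing R] [Algebra Ω R] [AddCommMonoid M]
  [AddCommMonoid M'] {w : σ → M} {w' : τ → M'} (φ : M →+ M') {g : σ → MvPolynomial τ R}

theorem ex_wh (hg : ∀ s, (g s).IsWeightedHomogeneous w' (φ (w s))) {P : MvPolynomial σ Ω} {m : M}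
    (hP : P.IsWeightedHomogeneous w m) : (aeval g P).IsWeightedHomogeneous w' (φ m) := by
  rw [aeval_def, eval₂_eq]
  refine IsWeightedHomogeneous.sum _ _ _ fun u hu => ?_
  rw [← hP (mem_support_iff.1 hu), Finsupp.weight_apply, Finsupp.sum, map_sum,
    ← zero_add (∑ i ∈ u.support, _)]
  exact (isWeightedHomogeneous_C _ _).mul
    (IsWeightedHomogeneous.prod _ _ _ fun i _ => map_nsmul φ _ _ ▸ (hg i).pow _)

theorem ex_comp (hφ : Function.Injective φ) (hg : ∀ s, (g s).IsWeightedHomogeneous w' (φ (w s)))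
    (P : MvPolynomial σ Ω) (m : M) : aeval g (weightedHomogeneousComponent w m P) =
      weightedHomogeneousComponent w' (φ m) (aeval g P) := by
  have h := fun m' => ex_wh φ hg (weightedHomogeneousComponent_isWeightedHomogeneous (w := w) m' P)
  conv_rhs => rw [← sum_weightedHomogeneousComponent w P,
    finsum_eq_sum _ (weightedHomogeneousComponent_finsupp P), map_sum, map_sum]
  rw [Finset.sum_eq_single m (fun m' _ hm =>
    (h m').weightedHomogeneousComponent_ne _ (hφ.ne hm.symm)) fun hm => ?_,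
    (h m).weightedHomogeneousComponent_same]
  rw [show weightedHomogeneousComponent w m P = 0 from
    by_contra fun h0 => hm ((Set.Finite.mem_toFinset _).2 h0), map_zero, map_zero]

end

variable {Ω ι κ : Type} [Field Ω] {J : Ideal (MvPolynomial ι Ω)}

theorem ex_kill {e : ι → κ} (he : Function.Injective e) (a : κ) :
    (killCompl he (X a) : MvPolynomial ι Ω).IsHomogeneous 1 := by
  rw [killCompl, aeval_X]
  split_ifs
  exacts [isHomogeneous_X _ _, isHomogeneous_zero _ _ _]

theorem ex_ev {e : ι → κ} (he : Function.Injective e) (x : ι → Ω) (P : MvPolynomial κ Ω) :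
    eval (Function.extend e x 0) P = eval x (killCompl he P) := by
  refine DFunLike.congr_fun (MvPolynomial.algHom_ext (f := aeval (Function.extend e x 0))
    (g := (aeval x).comp (killCompl he)) fun a => ?_) P
  by_cases h : ∃ b, e b = a
  · obtain ⟨b, rfl⟩ := h
    rw [aeval_X, he.extend_apply, AlgHom.comp_apply, ← rename_X, killCompl_rename_app, aeval_X]
  · rw [aeval_X, Function.extend_apply' _ _ _ h, AlgHom.comp_apply, killCompl, aeval_X,
      dif_neg (show a ∉ Set.range e from h), map_zero, Pi.zero_apply]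

theorem ex_hom {e : ι → κ} (he : Function.Injective e)
    (h : ∀ P ∈ J, ∀ d, homogeneousComponent d P ∈ J) :
    ∀ P ∈ J.comap (killCompl he), ∀ d, homogeneousComponent d P ∈ J.comap (killCompl he) :=
  fun P hP d => (congrArg (· ∈ J) (ex_comp (w := 1) (w' := 1) (AddMonoidHom.id ℕ)
    Function.injective_id (fun a => (aeval_X (R := Ω) _ a).subst (motive := fun z => IsHomogeneous z 1)
      (ex_kill he a)) P d)).mpr
      (h _ hP d)

/-- Further coordinates that vanish. -/
theorem abelian_pad {e : ι → κ} (he : Function.Injective e) (h : Abelian J) :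
    Abelian (J.comap (killCompl he)) := by
  classical
  obtain ⟨A, _, co, h1, h2⟩ := h
  have hp := h1.prime
  refine ⟨A, ‹_›, fun p => Function.extend e (co p) 0, ⟨Ideal.comap_isPrime _ _, ex_hom he h1.hom,
    fun p h0 => h1.ne p (funext fun b => (he.extend_apply _ _ b).symm.trans (congrFun h0 _)),
    fun p P hP => (ex_ev he _ P).trans (h1.zero p _ hP), fun v v0 hv => ?_⟩, fun p₀ q₀ => ?_⟩
  · have hx : ∀ (c : Ω) (x : ι → Ω), c • Function.extend e x 0 = Function.extend e (c • x) 0 :=
      fun c x => funext fun a => by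
        by_cases h : ∃ b, e b = a
        · obtain ⟨b, rfl⟩ := h
          simp only [Pi.smul_apply, he.extend_apply]
        · simp only [Pi.smul_apply, Function.extend_apply' _ _ _ h, Pi.zero_apply, smul_zero]
    obtain ⟨x, rfl⟩ : ∃ x, v = Function.extend e x 0 := ⟨v ∘ e, funext fun a => by
      by_cases h : ∃ b, e b = a
      · obtain ⟨b, rfl⟩ := h
        exact (he.extend_apply (v ∘ e) 0 b).symm
      · rw [Function.extend_apply' _ _ _ h, ← eval_X (f := v) a]
        refine hv _ (Ideal.mem_comap.2 ?_)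
        erw [killCompl, aeval_X, dif_neg h]
        exact J.zero_mem⟩
    refine (existsUnique_congr fun p => exists_congr fun c => ?_).1 (h1.bij x (fun h0 => v0 (by
      rw [h0, ← zero_smul Ω (0 : ι → Ω), ← hx, zero_smul])) fun P hP => ?_)
    · rw [hx]
      exact ⟨fun h => by rw [h], fun h => funext fun b => by
        simpa only [he.extend_apply] using congrFun h (e b)⟩
    · rw [← killCompl_rename_app he P, ← ex_ev]
      exact hv _ (Ideal.mem_comap.2 ((killCompl_rename_app he P).symm ▸ hP))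
  · obtain ⟨d, Ψ, a1, ⟨b, a2⟩, a3⟩ := h2 p₀ q₀
    have ev : ∀ p q b, eval (Sum.elim (Function.extend e (co p) 0) (Function.extend e (co q) 0))
        (rename (Sum.map e e) (Ψ b)) = eval (Sum.elim (co p) (co q)) (Ψ b) := fun p q b => by
      rw [eval_rename]
      congr 2
      funext s
      cases s <;> exact he.extend_apply _ _ _
    refine ⟨d, Function.extend e (fun b => rename (Sum.map e e) (Ψ b)) 0, fun a => ?_,
      ⟨e b, by rwa [he.extend_apply, ev]⟩, fun p q => (a3 p q).imp fun c hc a => ?_⟩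
    all_goals by_cases h : ∃ b, e b = a
    · obtain ⟨b, rfl⟩ := h
      rw [he.extend_apply, rename_eq_aeval]
      exact ex_wh (AddMonoidHom.id _) (fun s => by
        cases s <;> exact isWeightedHomogeneous_X _ _ _) (a1 b)
    · rw [Function.extend_apply' _ _ _ h]
      exact isWeightedHomogeneous_zero _ _ _
    · obtain ⟨b, rfl⟩ := h
      rw [he.extend_apply, ev, hc]
      exact congrArg _ (he.extend_apply _ _ _).symm
    · simp only [Function.extend_apply' _ _ _ h, Pi.zero_apply, map_zero, mul_zero]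

/-- The first block carries the coordinates of the abelian variety, every other block has one
coordinate that does not vanish. -/
noncomputable def exη {M : ℕ} (n : ℕ) (J : Ideal (MvPolynomial (Fin M) Ω))
    (s : Fin (n + 1) × Fin (M + 1)) : MvPolynomial (Fin M) Ω ⧸ J :=
  Fin.cases (Fin.cases 0 (fun b => Ideal.Quotient.mk J (X b)) s.2)
    (fun _ => Fin.cases 1 (fun _ => 0) s.2) s.1

/-- The ideal of the points `(t₀ x, t₁, …, tₙ)`: the abelian variety for `n = 0`, the cone over it
for `n = 1`. -/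
noncomputable def exQ {M : ℕ} (n : ℕ) (J : Ideal (MvPolynomial (Fin M) Ω)) :
    Ideal (MvPolynomial (Fin (n + 1) × Fin (M + 1)) Ω) :=
  RingHom.ker (aeval (R := Ω) fun s : Fin (n + 1) × Fin (M + 1) =>
    (X s.1 * C (exη n J s) : MvPolynomial (Fin (n + 1)) (MvPolynomial (Fin M) Ω ⧸ J)))

section

variable {M : ℕ} (n : ℕ) {J : Ideal (MvPolynomial (Fin M) Ω)}

theorem ex_cp : ∀ P ∈ exQ n J, ∀ μ, cp μ P ∈ exQ n J := fun P hP μ => by
  have h := ex_comp (w := fun s : Fin (n + 1) × Fin (M + 1) => (Pi.single s.1 1 : Fin (n + 1) → ℕ))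
    (w' := fun j : Fin (n + 1) => (Pi.single j 1 : Fin (n + 1) → ℕ))
    (g := fun s => X s.1 * C (exη n J s)) (AddMonoidHom.id _) Function.injective_id (fun s => by
      simpa using (isWeightedHomogeneous_X _ (fun j : Fin (n + 1) =>
        (Pi.single j 1 : Fin (n + 1) → ℕ)) s.1).mul (isWeightedHomogeneous_C _ (exη n J s))) P μ
  rw [exQ, RingHom.mem_ker] at hP ⊢
  rw [hP, map_zero] at h
  exact h

theorem ex_inj : Function.Injective fun b : Fin M =>
    (Fin.cons b.succ fun _ => 0 : Fin (n + 1) → Fin (M + 1)) :=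
  fun _ _ h => Fin.succ_injective _ (congrFun h 0)

theorem ex_prod (a : Fin (n + 1) → Fin (M + 1)) :
    ∏ j, exη n J (j, a j) = Ideal.Quotient.mk J (killCompl (ex_inj n) (X a)) := by
  by_cases h : ∃ b : Fin M, (Fin.cons b.succ fun _ => 0 : Fin (n + 1) → Fin (M + 1)) = a
  · obtain ⟨b, rfl⟩ := h
    have := killCompl_rename_app (ex_inj n) (X b : MvPolynomial (Fin M) Ω)
    rw [rename_X] at this
    rw [this, Fin.prod_univ_succ]
    simp [exη]
  · rw [killCompl, aeval_X, dif_neg (show a ∉ Set.range _ from h), map_zero]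
    by_cases h5 : a 0 = 0
    · exact Finset.prod_eq_zero (Finset.mem_univ 0) (by simp [exη, h5])
    obtain ⟨b, hb⟩ := Fin.exists_succ_eq.2 h5
    obtain ⟨j, hj⟩ : ∃ j : Fin n, a j.succ ≠ 0 := by
      by_contra! h6
      exact h ⟨b, funext (Fin.cases hb fun j => (h6 j).symm)⟩
    obtain ⟨c, hc⟩ := Fin.exists_succ_eq.2 hj
    exact Finset.prod_eq_zero (Finset.mem_univ j.succ) (by simp [exη, ← hc])

theorem ex_mem (hp : J.IsPrime) {P : MvPolynomial (Fin (n + 1) → Fin (M + 1)) Ω} {d : ℕ}
    (hP : P.IsHomogeneous d) : P ∈ base (exQ n J) ↔ P ∈ J.comap (killCompl (ex_inj n)) := by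
  have e2 : aeval (fun a => (C (Ideal.Quotient.mk J (killCompl (ex_inj n) (X a))) :
      MvPolynomial (Fin (n + 1)) (MvPolynomial (Fin M) Ω ⧸ J))) P =
      C (Ideal.Quotient.mk J (killCompl (ex_inj n) P)) :=
    DFunLike.congr_fun (MvPolynomial.algHom_ext (g := ((IsScalarTower.toAlgHom Ω _ _).comp
      (Ideal.Quotient.mkₐ Ω J)).comp (killCompl (ex_inj n))) fun a => aeval_X _ _) P
  have e1 : (aeval (R := Ω) fun s : Fin (n + 1) × Fin (M + 1) =>
      (X s.1 * C (exη n J s) : MvPolynomial (Fin (n + 1)) (MvPolynomial (Fin M) Ω ⧸ J)))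
      (aeval (fun a : Fin (n + 1) → Fin (M + 1) => ∏ j, X (j, a j)) P) =
      (∏ j, X j) ^ d * C (Ideal.Quotient.mk J (killCompl (ex_inj n) P)) := by
    rw [comp_aeval_apply, ← e2]
    refine Eq.trans ?_ (Av.aeval_mul_of_hom
      (R := MvPolynomial (Fin (n + 1)) (MvPolynomial (Fin M) Ω ⧸ J)) hP _ _)
    congr 2
    funext a
    simp only [map_prod, aeval_X, Finset.prod_mul_distrib, ← ex_prod]
  rw [base, Ideal.mem_comap, exQ, RingHom.mem_ker, e1, mul_eq_zero_iff_left (pow_ne_zero d
    (Finset.prod_ne_zero_iff.2 fun j _ => X_ne_zero j)), C_eq_zero, Ideal.Quotient.eq_zero_iff_mem,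
    Ideal.mem_comap]

theorem ex_base : ∀ P ∈ base (exQ n J), ∀ d, homogeneousComponent d P ∈ base (exQ n J) := by
  intro P hP d
  have h := ex_comp (w := (1 : (Fin (n + 1) → Fin (M + 1)) → ℕ))
    (w' := fun s : Fin (n + 1) × Fin (M + 1) => (Pi.single s.1 1 : Fin (n + 1) → ℕ))
    (g := fun a => (∏ j, X (j, a j) : MvPolynomial (Fin (n + 1) × Fin (M + 1)) Ω))
    (Pi.constAddMonoidHom (Fin (n + 1)) ℕ) (fun _ _ h => congrFun h 0) (fun a => by
      have := IsWeightedHomogeneous.prod Finset.univ (fun j => X (j, a j)) _ fun j _ =>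
        isWeightedHomogeneous_X Ω (fun s : Fin (n + 1) × Fin (M + 1) =>
          (Pi.single s.1 1 : Fin (n + 1) → ℕ)) (j, a j)
      rwa [Finset.univ_sum_single fun _ => 1] at this) P d
  rw [base, Ideal.mem_comap] at hP ⊢
  exact h.symm ▸ ex_cp n _ hP _

theorem ex_cone (h : Abelian J) :
    (exQ n J).IsPrime ∧ (∀ P ∈ exQ n J, ∀ μ, cp μ P ∈ exQ n J) ∧ Abelian (base (exQ n J)) := by
  obtain ⟨hp, hh⟩ : J.IsPrime ∧ ∀ P ∈ J, ∀ d, homogeneousComponent d P ∈ J := by
    obtain ⟨A, _, co, h1, -⟩ := h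
    exact ⟨h1.prime, h1.hom⟩
  have h6 : base (exQ n J) = J.comap (killCompl (ex_inj n)) := Ideal.ext fun P => by
    constructor <;> intro hP <;> rw [← sum_homogeneousComponent P] <;>
      refine Ideal.sum_mem _ fun d _ => ?_
    · exact (ex_mem n hp (homogeneousComponent_isHomogeneous d P)).1 (ex_base n P hP d)
    · exact (ex_mem n hp (homogeneousComponent_isHomogeneous d P)).2 (ex_hom _ hh P hP d)
  exact ⟨RingHom.ker_isPrime _, ex_cp n, h6 ▸ abelian_pad (ex_inj n) h⟩

end

/-- The point is an abelian variety, so `exQ n ⊥` gives the split torus. -/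
theorem ex_point : Abelian (⊥ : Ideal (MvPolynomial (Fin 1) Ω)) := by
  refine ⟨Unit, inferInstance, fun _ _ => 1, ⟨Ideal.isPrime_bot, fun P hP d => by
    rw [Ideal.mem_bot.1 hP, map_zero]; exact Ideal.zero_mem _, fun _ h => one_ne_zero (congrFun h 0),
    fun _ P hP => by rw [Ideal.mem_bot.1 hP, map_zero], fun v _ _ =>
      ⟨(), ⟨v 0, funext fun a => by simp [Subsingleton.elim a 0]⟩, fun _ _ => rfl⟩⟩,
    fun _ _ => ⟨0, fun _ => 1, fun _ => isWeightedHomogeneous_one _ _, ⟨0, by simp⟩,
      fun _ _ => ⟨1, by simp⟩⟩⟩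

end Pool.Agent.Lib.MP_651af7_nt.Tl
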