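import Pool.Agent.Lib.MP_651af7_nt.Tb.Nrm
import Pool.Agent.Lib.MP_8865d3_nt.Sv.FinD

/-! Almost primitive representatives outside a given affine hypersurface. -/

namespace Pool.Agent.Lib.MP_651af7_nt.Tl

open MvPolynomial Height NumberField Av
open Pool.Agent.Lib.MP_8865d3_nt.Sv (osum plc osum_plc osum_mono osum_add osum_le_gsum finS_abs
  gsum_abs_log nm_mul_left)

variable {k τ : Type} [Field k]

theorem exists_nat_ne [CharZero k] (Θ : MvPolynomial τ k) {d : ℕ} {y : τ → k}
    (h : eval y (homogeneousComponent d Θ) ≠ 0) : ∃ u : Fin (Θ.totalDegree + 1),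
      eval (fun a => ((u + 1 : ℕ) : k) * y a) Θ ≠ 0 := by
  by_contra! h0
  let p : Polynomial k := ∑ j ∈ Finset.range (Θ.totalDegree + 1),
    Polynomial.monomial j (eval y (homogeneousComponent j Θ))
  have h1 : ∀ u : k, p.eval u = eval (fun a => u * y a) Θ := fun u => by
    conv_rhs => rw [← sum_homogeneousComponent Θ, map_sum]
    rw [Polynomial.eval_finsetSum]
    exact Finset.sum_congr rfl fun j _ => by
      rw [Polynomial.eval_monomial, eval_mul_of_hom (homogeneousComponent_isHomogeneous j Θ),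
        mul_comm]
  have h2 : p = 0 := Polynomial.eq_zero_of_natDegree_lt_card_of_eval_eq_zero p
    (f := fun u : Fin (Θ.totalDegree + 1) => ((u + 1 : ℕ) : k))
    (fun u v e => Fin.ext (Nat.succ_injective (Nat.cast_injective e))) (fun u => (h1 _).trans (h0 u))
    (by
      rw [Fintype.card_fin, Nat.lt_succ_iff]
      exact Polynomial.natDegree_sum_le_of_forall_le _ _ fun j hj =>
        (Polynomial.natDegree_monomial_le _).trans (Nat.lt_succ_iff.1 (Finset.mem_range.1 hj)))
  have h3 := congrArg (Polynomial.coeff · d) h2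
  simp only [p, Polynomial.finsetSum_coeff, Polynomial.coeff_monomial, Finset.sum_ite_eq',
    Polynomial.coeff_zero] at h3
  split_ifs at h3 with h4
  · exact h h3
  · exact h (by rw [homogeneousComponent_eq_zero _ _ (by simpa using h4), map_zero])

/-- A multiple of the point outside the hypersurface, with bounded defect. -/
theorem exists_scale [NumberField k] [Fintype τ] (Θ : MvPolynomial τ k) : ∃ C : ℝ,
    ∀ (y : τ → k) (d : ℕ), y ≠ 0 → eval y (homogeneousComponent d Θ) ≠ 0 → ∃ c : k, c ≠ 0 ∧
      eval (fun a => c * y a) Θ ≠ 0 ∧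
      (∀ S, osum (plc S) (fun w => |Real.log (nm w fun a => c * y a)|) ≤ C) ∧
      logHeight (fun o : Option τ => o.elim 1 fun a => c * y a) ≤ logHeight y + C := by
  obtain ⟨C, -, H⟩ := Tb.norm_cnt k τ
  refine ⟨C + 2 * ∑ u : Fin (Θ.totalDegree + 1), logHeight₁ ((u + 1 : ℕ) : k),
    fun y d y0 h => ?_⟩
  obtain ⟨c, c0, -, -, h1, h2⟩ := H y y0
  obtain ⟨u, hu⟩ := exists_nat_ne Θ (d := d) (y := fun a => c * y a) (by
    rw [eval_mul_of_hom (homogeneousComponent_isHomogeneous d Θ)]
    exact mul_ne_zero (pow_ne_zero _ c0) h)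
  have h3 := Finset.single_le_sum (f := fun u : Fin (Θ.totalDegree + 1) =>
    logHeight₁ ((u + 1 : ℕ) : k)) (fun _ _ => zero_le_logHeight₁ _) (Finset.mem_univ u)
  have u0 : ((u + 1 : ℕ) : k) ≠ 0 := Nat.cast_ne_zero.2 (Nat.succ_ne_zero _)
  generalize ((u + 1 : ℕ) : k) = t at hu h3 u0
  have z0 : (fun a => c * y a) ≠ 0 := smul_ne_zero c0 y0
  have t0 := zero_le_logHeight₁ t
  refine ⟨t * c, mul_ne_zero u0 c0, by simpa only [mul_assoc] using hu, fun S => ?_, ?_⟩
  · have f1 := finS_abs (Vj.finS_log t)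
    have f2 := finS_abs (finS_nm fun a => c * y a)
    have h4 := osum_mono (plc S) (finS_abs (finS_nm fun a => t * c * y a)) (f1.add f2)
      fun w _ _ => by
        simp only [mul_assoc]
        rw [nm_mul_left, Real.log_mul (w.pos u0).ne' (nm_pos w z0).ne']
        exact abs_add_le _ _
    have h5 := osum_le_gsum (plc S) f1 fun _ _ => abs_nonneg _
    have h6 : osum (plc S) (fun w => |Real.log (nm w fun a => c * y a)|) ≤ C := by
      rw [osum_plc]
      exact h1 _
    rw [osum_add _ f1 f2] at h4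
    rw [gsum_abs_log] at h5
    linarith
  · have h4 := logHeight_comp_le (fun o : Option τ => (o.elim 1 fun _ => (0 : Fin 2), o))
      fun a : Fin 2 × Option τ => ![t, 1] a.1 * a.2.elim (1 : k) fun a => c * y a
    rw [logHeight_fun_mul_eq (x := ![t, 1]) (y := fun o : Option τ => o.elim (1 : k) fun a => c * y a)
      (fun e => u0 (congrFun e 0)) (fun e => one_ne_zero (congrFun e none)),
      ← logHeight₁_eq_logHeight] at h4
    refine (le_of_eq (congrArg logHeight (funext fun o => ?_))).trans (h4.trans (by linarith))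
    cases o <;> simp [mul_assoc]

end Pool.Agent.Lib.MP_651af7_nt.Tl
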