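import Pool.Agent.Lib.MP_651af7_nt.Tl.EDefs
import Pool.Agent.Lib.MP_651af7_nt.Tl.Scl
import Pool.Agent.Lib.MP_651af7_nt.Bx.Loc
import Pool.Agent.Lib.MP_8865d3_nt.Sa.Mv
import Pool.Agent.Lib.MP_651af7_nt.Tl.Cnt

/-! From the inequality on the torus bundle to the inequality on the variety. -/

namespace Pool.Agent.Lib.MP_651af7_nt.Tl

open MvPolynomial Module Height NumberField Av Bx
open Pool.Agent.Lib.MP_8865d3_nt
open Sv (isum osum plc isum_plc osum_plc isum_add isum_sub isum_const_mul isum_add_osum)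
open Lr (prp_val)
open Vj (gsum FinS)

section good

variable {k ν μ κ Γ : Type} [Field k] {D R : ℕ} {I : Ideal (MvPolynomial κ k)}
  {Q : Ideal (MvPolynomial (ν × μ) k)} {φ : ν × μ → MvPolynomial κ k}
  {ψ : κ → MvPolynomial (ν × μ) k} {x : κ → k} {v : ν × μ → k}
  {W : Γ → Fin D → ν × μ → MvPolynomial (ν × μ) k} {wt : Γ → MvPolynomial (ν × μ) k}

/-- Both maps are defined at `x` and at its image, which lies outside the boundary. -/
structure Good (I : Ideal (MvPolynomial κ k)) (φ : ν × μ → MvPolynomial κ k)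
    (ψ : κ → MvPolynomial (ν × μ) k) (x : κ → k) : Prop where
  ne : x ≠ 0
  zero : ∀ P ∈ I, aeval x P = 0
  blk : Blk fun s => aeval x (φ s)
  n₁ : ∃ i, aeval x (aeval φ (ψ i)) ≠ 0
  n₂ : ∃ j, aeval (fun s => aeval x (φ s)) (aeval ψ (φ j)) ≠ 0

theorem ne_mul {L L' : Type} {f : L → k} {g : L' → k} (hf : f ≠ 0) (hg : g ≠ 0) :
    (fun q : L × L' => f q.1 * g q.2) ≠ 0 := by
  obtain ⟨a, ha⟩ := Function.ne_iff.1 hf
  obtain ⟨b, hb⟩ := Function.ne_iff.1 hg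
  exact Function.ne_iff.2 ⟨(a, b), mul_ne_zero ha hb⟩

theorem Blk.mul (h : Blk v) {c : k} (hc : c ≠ 0) : Blk fun s => c * v s := fun j =>
  smul_ne_zero hc (h j)

variable [CharZero k] [Fintype ν] [DecidableEq ν] [Fintype μ] [Fintype κ]

theorem Good.rank (g : Good I φ ψ x) (hP : Par Q W wt R)
    (hI : ∀ P ∈ I, ∀ d, homogeneousComponent d P ∈ I)
    (hQ : ∀ P ∈ Q, ∀ d, homogeneousComponent d P ∈ Q) (h : Inv I Q φ ψ) (h' : Inv Q I ψ φ) :
    finrank k (tsp I x) = D + 1 :=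
  (h.rank hI hQ h' g.ne g.zero g.n₁.choose_spec g.n₂.choose_spec).2.trans
    (hP.rank g.blk (h.zero g.zero))

omit [DecidableEq ν] in
theorem exists_good (hI : I.IsPrime) (hQ : Q.IsPrime) (hn : ∀ j, ∃ b, X (j, b) ∉ Q)
    (h : Inv I Q φ ψ) (h' : Inv Q I ψ φ) {H : MvPolynomial (ν × μ) k} {e : ℕ}
    (hH : H.IsHomogeneous e) (h0 : H ∉ Q) :
    ∃ (Θ : MvPolynomial κ k) (t : ℕ), Θ.IsHomogeneous t ∧ Θ ∉ I ∧ ∀ x : κ → k, x ≠ 0 →
      (∀ P ∈ I, eval x P = 0) → eval x Θ ≠ 0 →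
      Good I φ ψ x ∧ eval (fun s => eval x (φ s)) H ≠ 0 := by
  obtain ⟨a, ha⟩ := h.hom
  obtain ⟨b, hb⟩ := h'.hom
  obtain ⟨i, hi⟩ := h.ne
  obtain ⟨j, hj⟩ := h'.ne
  choose m hm using hn
  have h1 := (hH.mul ((ha j).aeval ψ hb)).mul
    (IsHomogeneous.prod Finset.univ _ _ fun c _ => isHomogeneous_X k (c, m c))
  refine ⟨_, _, (h1.aeval φ ha).mul ((hb i).aeval φ ha), fun e => (hI.mem_or_mem e).elim
    (h'.pull hQ h1 fun e' => ?_) hi, fun x x0 xz xΘ => ?_⟩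
  · simp only [hQ.mul_mem_iff_mem_or_mem, h0, hj, false_or] at e'
    obtain ⟨c, -, hc⟩ := Ideal.IsPrime.prod_mem_iff.1 e'
    exact hm c hc
  · rw [← aeval_eq_eval, map_mul, trans_aev, map_mul, map_mul, map_prod] at xΘ
    simp only [mul_ne_zero_iff, Finset.prod_ne_zero_iff, aeval_X] at xΘ
    exact ⟨⟨x0, xz, fun c => Function.ne_iff.2 ⟨m c, xΘ.1.2 c (Finset.mem_univ c)⟩, ⟨i, xΘ.2⟩,
      j, xΘ.1.1.2⟩, xΘ.1.1.1⟩

variable [NumberField k] {L T : Type} [Fintype L] [Fintype T] [Fintype Γ] {d : ℕ}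
  {Ψ : T → κ → MvPolynomial (ν × μ) k}

/-- The canonical height through the Wronskians. -/
theorem hK_eq (hP : Par Q W wt R) (h : Inv I Q φ ψ) (h' : Inv Q I ψ φ)
    (hI : ∀ P ∈ I, ∀ d, homogeneousComponent d P ∈ I) (hΨ : ∀ t i, (Ψ t i).IsHomogeneous d)
    (hp : ∀ t i l, Ψ t i * ψ l - Ψ t l * ψ i ∈ Q) (x0 : x ≠ 0) (xz : ∀ P ∈ I, aeval x P = 0)
    (hr : finrank k (tsp I x) = D + 1) (v0 : Blk v) (hz : ∀ P ∈ Q, aeval v P = 0) {j₀ : ν × μ}
    (hn : aeval v (aeval ψ (φ j₀)) ≠ 0) {c' : k} (hc' : c' ≠ 0)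
    (e : ∀ a, aeval v (ψ a) = c' * x a)
    (h0 : (fun q : T × κ => eval v (Ψ q.1 q.2)) ≠ 0) :
    (fun q : Γ × T × (Fin (D + 1) → κ) => eval v (wr W (Ψ q.2.1) q.1 q.2.2)) ≠ 0 ∧
    ∀ β : Fin (D + 1) → κ → k, LinearIndependent k β → (∀ l, β l ∈ tsp I x) →
      hK x β = logHeight (fun q : Γ × T × (Fin (D + 1) → κ) => eval v (wr W (Ψ q.2.1) q.1 q.2.2)) -
        logHeight fun q : T × κ × Γ => eval v (Ψ q.1 q.2.1 ^ (D + 1) * wt q.2.2 ^ D) := by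
  obtain ⟨c, w, hc, hw, hi, h1⟩ := hP.wr_val (κ := κ) v0 hz
  have e' : (fun i => aeval v (ψ i)) = c' • x := funext e
  have ψ0 : (fun i => aeval v (ψ i)) ≠ 0 := e' ▸ smul_ne_zero hc' x0
  choose s h2 h3 using fun t => prp_val (hp t) hz ψ0
  have h4 : (fun q : T × κ => eval v (Ψ q.1 q.2)) = fun q => s q.1 * (c' • x) q.2 :=
    funext fun q => (h2 q.1 q.2).trans (by rw [e]; rfl)
  have h5 : s ≠ 0 := fun h => h0 (h4.trans (funext fun p => by rw [h]; exact zero_mul _))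
  have h6 : ∀ {α : Type} {z : α → k} (n : ℕ), z ≠ 0 → z ^ n ≠ 0 := fun n hz =>
    Function.ne_iff.2 ((Function.ne_iff.1 hz).imp fun _ h => pow_ne_zero n h)
  have hf : LinearIndependent k (fr ψ v w) := h'.indep h hz hn ψ0 hw hi
  have hπ := minors_ne_zero hf
  have h7 := ne_mul (h6 (D + 1) h5) hπ
  have y0 : (fun c => eval v (wt c)) ≠ 0 := Function.ne_iff.2 (hP.cov k v v0 hz)
  have h8 : (fun q : Γ × T × (Fin (D + 1) → κ) => eval v (wr W (Ψ q.2.1) q.1 q.2.2)) =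
      c • fun q => ((fun c => eval v (wt c)) ^ D) q.1 *
        ((s ^ (D + 1)) q.2.1 * minors (fr ψ v w) q.2.2) :=
    funext fun q => h1 (hΨ q.2.1) (h2 _) (fun j => h3 _ _ (hw j)) q.1 q.2.2
  have h9 : (fun q : T × κ × Γ => eval v (Ψ q.1 q.2.1 ^ (D + 1) * wt q.2.2 ^ D)) =
      fun q => (s ^ (D + 1)) q.1 * (((c' • x) ^ (D + 1)) q.2.1 *
        ((fun c => eval v (wt c)) ^ D) q.2.2) := funext fun q => by
    rw [map_mul, map_pow, map_pow, congrFun h4 (q.1, q.2.1), mul_pow, mul_assoc]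
    rfl
  have h12 := h6 (D + 1) (smul_ne_zero hc' x0)
  have h10 := smul_ne_zero hc (ne_mul (h6 D y0) h7)
  rw [← h8] at h10
  refine ⟨h10, fun β β1 β2 => ?_⟩
  have hm : ∀ l, fr ψ v w l ∈ tsp I x := fun l => by
    rw [← tsp_smul hI xz hc', ← funext e]
    exact Fin.cases (tsp_self hI (h'.zero hz)) (fun l => h'.tan (hw l)) l
  obtain ⟨c'', hc'', h11⟩ := minors_prop hr hf β1 hm β2
  rw [h8, h9, logHeight_fun_mul_eq (h6 _ h5) (ne_mul h12 (h6 _ y0)),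
    logHeight_fun_mul_eq h12 (h6 _ y0), logHeight_smul_eq_logHeight _ hc,
    logHeight_fun_mul_eq (h6 _ y0) h7, logHeight_fun_mul_eq (h6 _ h5) hπ,
    logHeight_pow (c' • x), hK, h11, logHeight_smul_eq_logHeight _ hc',
    logHeight_smul_eq_logHeight _ hc'']
  push_cast
  ring

end good

variable {k τ κ L : Type} [Field k] [NumberField k] [Fintype τ] [Fintype κ] [Fintype L]

theorem lam_ln (w : AbsoluteValue k ℝ) {ψ : κ → MvPolynomial τ k} {x : κ → k}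
    {F : L → MvPolynomial κ k} {e : ℕ} (hF : ∀ l, (F l).IsHomogeneous e) {c : k} (hc : c ≠ 0)
    (hx : x ≠ 0) {v : τ → k} (h : ∀ l, aeval v (ψ l) = c * x l)
    (h0 : (fun l => eval x (F l)) ≠ 0) :
    lam w F e x = e * Real.log (nm w fun l => eval v (ψ l)) -
      Real.log (nm w fun l => eval v (aeval ψ (F l))) := by
  have h1 : (fun l => eval v (ψ l)) = fun l => c * x l := funext h
  simp only [loc_eval (hF _) h, h1]
  rw [Sa.log_nm_mul w (pow_ne_zero e hc) h0, Sa.log_nm_mul w hc hx, map_pow, Real.log_pow, lam]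
  change Real.log (nm w x ^ e / nm w fun l => eval x (F l)) = _
  rw [Real.log_div (pow_pos (nm_pos w hx) e).ne' (nm_pos w h0).ne', Real.log_pow]
  ring

omit [Fintype κ] in
/-- Outside `S` forms are bounded by the defect of the point. -/
theorem osum_nm {G : L → MvPolynomial τ k} {d : ℕ} (hG : ∀ l, (G l).IsHomogeneous d) :
    ∃ C : ℝ, ∀ (S : Finset (AbsoluteValue k ℝ)) (v : τ → k), v ≠ 0 →
      (fun l => eval v (G l)) ≠ 0 → osum S (fun w => Real.log (nm w fun l => eval v (G l))) ≤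
        d * osum S (fun w => |Real.log (nm w v)|) + C := by
  obtain ⟨c, C, hc, h⟩ := Sa.mv_ge hG
  refine ⟨C, fun S v v0 h0 => ?_⟩
  have f1 := Sv.finS_abs (finS_nm v)
  have h1 := Sv.osum_mono S (finS_nm fun l => eval v (G l)) ((f1.const_mul d).add hc.fin)
    fun w _ _ => by
      have h2 := h _ v0 h0 w
      rw [Sa.mv] at h2
      linarith [mul_le_mul_of_nonneg_left (le_abs_self (Real.log (nm w v)))
        (Nat.cast_nonneg (α := ℝ) d)]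
  rw [Sv.osum_add S (f1.const_mul _) hc.fin, Sv.osum_const_mul S f1] at h1
  exact h1.trans (add_le_add le_rfl (Sv.ad_osum_le hc S))

variable {μ : Type} [Fintype μ] {n : ℕ}

omit [Fintype τ] [Fintype κ] [Fintype L] in
/-- The affine counting function is bounded by the projective one and the defect. -/
theorem cnt_le (S : Finset (FinitePlace k)) {y : Fin (n + 1) × μ → k} (hy : Blk y) {c : k}
    (hc : c ≠ 0) :
    ∑ᶠ w ∈ (S : Set (FinitePlace k))ᶜ, ∑ j, |Real.log (⨆ b, w (c * y (j, b)))| ≤ Sa.cnt S y +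
      (n + 1 : ℕ) * osum (plc S) fun w => |Real.log (nm w fun a => c * y a)| := by
  have y0 : y ≠ 0 := fun h => hy 0 (h ▸ rfl)
  have f1 := Sv.finS_abs (finS_nm fun a => c * y a)
  have f2 := finS_bdm y
  rw [cnt_eq S hy, ← Sv.osum_const_mul _ f1, ← Sv.osum_add _ f2 (f1.const_mul _)]
  refine (le_of_eq (osum_plc S fun w => ∑ j, |Real.log (nm w fun b => c * y (j, b))|).symm).trans
    (Sv.osum_mono _ (Vj.finS_sum Finset.univ fun _ _ => Sv.finS_abs (finS_nm _))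
      (f2.add (f1.const_mul _)) fun w _ _ => ?_)
  rw [← nsmul_eq_mul, ← Fin.sum_const, bdm, ← Finset.sum_add_distrib]
  refine Finset.sum_le_sum fun j _ => ?_
  have h1 : Real.log (nm w fun m => y (j, m)) ≤ Real.log (nm w y) :=
    Real.log_le_log (nm_pos _ (hy j)) (Real.iSup_le (fun m => le_nm w y _) (nm_nn _ _))
  rw [Sa.log_nm_mul w hc (hy j), Sa.log_nm_mul w hc y0, abs_le]
  constructor
  · linarith [neg_abs_le (Real.log (w c) + Real.log (nm w y))]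
  · linarith [le_abs_self (Real.log (w c) + Real.log (nm w y))]

/-- The conclusion over the field of definition. -/
def Cc {k κ μ L L' : Type} [Field k] [NumberField k] [Fintype κ] {n : ℕ}
    (I : Ideal (MvPolynomial κ k)) (g : ℕ) (φ : Fin (n + 1) × μ → MvPolynomial κ k)
    (F : L → MvPolynomial κ k) (e : ℕ) (G : L' → MvPolynomial κ k) (e' : ℕ) (ε : ℝ) : Prop :=
  ∃ (Θ : MvPolynomial κ k) (t : ℕ), Θ.IsHomogeneous t ∧ Θ ∉ I ∧ ∃ c : ℝ, 0 ≤ c ∧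
    ∀ S : Finset (FinitePlace k), ∃ C : ℝ, ∀ x : κ → k, x ≠ 0 →
      (∀ P ∈ I, eval x P = 0) → eval x Θ ≠ 0 → (fun l => eval x (F l)) ≠ 0 →
      (fun l => eval x (G l)) ≠ 0 →
      Blk (fun s => eval x (φ s)) ∧ finrank k (tsp I x) = g + 1 ∧
      ∀ β : Fin (g + 1) → κ → k, LinearIndependent k β → (∀ l, β l ∈ tsp I x) →
      hK x β + (∑ w : InfinitePlace k, w.mult * (lam w.1 F e x - lam w.1 G e' x) +
        ∑ w ∈ S, (lam w.1 F e x - lam w.1 G e' x)) ≤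
        ε * logHeight x + c * Sa.cnt S (fun s => eval x (φ s)) + C

theorem main_of {L' T Γ : Type} [Fintype L'] [Fintype T] [Fintype Γ] {D R d : ℕ}
    {I : Ideal (MvPolynomial κ k)} {Q : Ideal (MvPolynomial (Fin (n + 1) × μ) k)}
    {φ : Fin (n + 1) × μ → MvPolynomial κ k} {ψ : κ → MvPolynomial (Fin (n + 1) × μ) k}
    {W : Γ → Fin D → Fin (n + 1) × μ → MvPolynomial (Fin (n + 1) × μ) k}
    {wt : Γ → MvPolynomial (Fin (n + 1) × μ) k} {Ψ : T → κ → MvPolynomial (Fin (n + 1) × μ) k}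
    (hP : Par Q W wt R) (hI : ∀ P ∈ I, ∀ d, homogeneousComponent d P ∈ I) (hI' : I.IsPrime)
    (hQ : ∀ P ∈ Q, ∀ d, homogeneousComponent d P ∈ Q) (hQ' : Q.IsPrime)
    (hn : ∀ j, ∃ b, X (j, b) ∉ Q) (h : Inv I Q φ ψ) (h' : Inv Q I ψ φ)
    (hΨ : ∀ t i, (Ψ t i).IsHomogeneous d) (hp : ∀ t i l, Ψ t i * ψ l - Ψ t l * ψ i ∈ Q)
    {F : L → MvPolynomial κ k} {G : L' → MvPolynomial κ k} {e e' : ℕ}
    (hF : ∀ l, (F l).IsHomogeneous e) (hG : ∀ l, (G l).IsHomogeneous e')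
    (hE : ∀ ε : ℝ, 0 < ε → Eng Q (fun q : T × κ × Γ => Ψ q.1 q.2.1 ^ (D + 1) * wt q.2.2 ^ D)
      (fun l => aeval ψ (F l)) (fun q : L' × Γ × T × (Fin (D + 1) → κ) =>
        aeval ψ (G q.1) * wr W (Ψ q.2.2.1) q.2.1 q.2.2.2) ψ e e' ε)
    (h0 : ∃ t i, Ψ t i ∉ Q) {ε : ℝ} (hε : 0 < ε) : Cc I D φ F e G e' ε := by
  obtain ⟨a₁, h₁⟩ := h.hom
  obtain ⟨b₁, h₂⟩ := h'.hom
  obtain ⟨C₁, k₁⟩ := logHeight_eval_le' h₁
  have hε' : 0 < ε / (a₁ + 1) := by positivity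
  obtain ⟨Θ₀, e2, c, c0, e3⟩ := hE _ hε'
  obtain ⟨d₀, hd⟩ : ∃ d₀, homogeneousComponent d₀ Θ₀ ∉ Q := by
    by_contra! hc
    exact e2 (sum_homogeneousComponent Θ₀ ▸ Q.sum_mem fun d _ => hc d)
  obtain ⟨C₂, k₂⟩ := exists_scale Θ₀
  obtain ⟨t₀, i₀, h0⟩ := h0
  obtain ⟨Θ, t, t1, t2, t3⟩ := exists_good hI' hQ' hn h h'
    ((homogeneousComponent_isHomogeneous d₀ Θ₀).mul (hΨ t₀ i₀)) fun hm =>
      (hQ'.mem_or_mem hm).elim hd h0
  obtain ⟨C₃, k₃⟩ := osum_nm (fun q : Γ × T × (Fin (D + 1) → κ) =>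
    hP.wr_hom (hΨ q.2.1) q.1 q.2.2)
  generalize (D + 1) * d + D * (R * Fintype.card (Fin (n + 1))) = d' at k₃
  refine ⟨Θ, t, t1, t2, c, c0, fun S => ?_⟩
  obtain ⟨C, e4⟩ := e3 S
  refine ⟨C + C₃ + ε / (a₁ + 1) * (C₁ + C₂) + c * ((n + 1 : ℕ) * C₂) + d' * C₂,
    fun x x0 xz xΘ xF xG => ?_⟩
  obtain ⟨g, t4⟩ := t3 x x0 xz xΘ
  have hr := g.rank hP hI hQ h h'
  refine ⟨g.blk, hr, fun β β1 β2 => ?_⟩
  rw [map_mul, mul_ne_zero_iff] at t4
  obtain ⟨c', hc', e6⟩ := h.pt g.ne g.zero g.n₁.choose_spec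
  obtain ⟨j₀, hj⟩ := g.n₂
  have k₄ := k₁ x
  have hy := h.zero g.zero
  have y0 := g.blk
  simp only [aeval_eq_eval x] at e6 hj hy y0
  generalize (fun s => eval x (φ s)) = y at *
  obtain ⟨u, u0, u1, u2, u3⟩ := k₂ y d₀ (fun e => y0 0 (e ▸ rfl)) t4.1
  have k₅ := cnt_le S y0 u0
  have hz := zero_mul_of_hom hQ hy u
  have v0 := y0.mul u0
  have e6' : ∀ a, aeval (fun s => u * y s) (ψ a) = u ^ b₁ * c' * x a := fun a => by
    rw [aeval_mul_of_hom (h₂ a), e6, mul_assoc]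
  have c1 := mul_ne_zero (pow_ne_zero b₁ u0) hc'
  have hj' : aeval (fun s => u * y s) (aeval ψ (φ j₀)) ≠ 0 := by
    rw [aeval_mul_of_hom ((h₁ j₀).aeval ψ h₂)]
    exact mul_ne_zero (pow_ne_zero _ u0) hj
  have t5 : eval (fun s => u * y s) (Ψ t₀ i₀) ≠ 0 := by
    rw [eval_mul_of_hom (hΨ t₀ i₀)]
    exact mul_ne_zero (pow_ne_zero _ u0) t4.2
  have k₆ := u2 S
  change ∑ᶠ w ∈ (S : Set (FinitePlace k))ᶜ, ∑ j, |Real.log (⨆ b, w ((fun s => u * y s) (j, b)))| ≤ _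
    at k₅
  generalize (fun s => u * y s) = v at *
  have n₃ : ∀ {L : Type} {D : L → MvPolynomial κ k} {e : ℕ}, (∀ l, (D l).IsHomogeneous e) →
      (fun l => eval x (D l)) ≠ 0 → (fun l => eval v (aeval ψ (D l))) ≠ 0 :=
    fun hD h0 => Function.ne_iff.2 ((Function.ne_iff.1 h0).imp fun l hl => by
      rw [loc_eval (hD l) e6']
      exact mul_ne_zero (pow_ne_zero _ c1) hl)
  have n₄ : (fun l => eval v (ψ l)) ≠ 0 :=
    Function.ne_iff.2 ((Function.ne_iff.1 x0).imp fun l hl => (e6' l).trans_ne (mul_ne_zero c1 hl))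
  obtain ⟨n₂, e5⟩ := hK_eq hP h h' hI hΨ hp x0 g.zero hr v0 hz hj' c1 e6'
    (Function.ne_iff.2 ⟨(t₀, i₀), t5⟩)
  obtain ⟨-, n₁, e7⟩ := e4 v hz u1 (n₃ hF xF)
    (by simpa only [map_mul] using ne_mul (n₃ hG xG) n₂) n₄
  unfold ln hc cn at e7
  rw [gsum_nm n₁] at e7
  have e8 := k₃ (plc S) v (fun e => v0 0 (e ▸ rfl)) n₂
  have e9 : ∀ w, Real.log (nm w fun q : L' × Γ × T × (Fin (D + 1) → κ) =>
      eval v (aeval ψ (G q.1) * wr W (Ψ q.2.2.1) q.2.1 q.2.2.2)) =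
      Real.log (nm w fun l => eval v (aeval ψ (G l))) + Real.log (nm w
        fun q : Γ × T × (Fin (D + 1) → κ) => eval v (wr W (Ψ q.2.1) q.1 q.2.2)) := fun w => by
    have h1 := Sa.mv_mul (d := 0) (d' := 0) w (n₃ hG xG) n₂
    simp only [Sa.mv, Nat.cast_zero, zero_mul, zero_sub, add_zero] at h1
    linarith
  simp only [e9, isum_add, isum_sub, isum_const_mul] at e7
  rw [← isum_plc S fun v => lam v F e x - lam v G e' x, e5 β β1 β2, ← gsum_nm n₂,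
    ← isum_add_osum (plc S) (finS_nm _)]
  simp only [lam_ln _ hF c1 x0 e6' xF, lam_ln _ hG c1 x0 e6' xG, isum_sub, isum_const_mul]
  have e10 := mul_le_mul_of_nonneg_left (u3.trans (add_le_add k₄ le_rfl)) hε'.le
  have e11 : ε / (a₁ + 1) * (a₁ * logHeight x) ≤ ε * logHeight x := by
    rw [← mul_assoc]
    refine mul_le_mul_of_nonneg_right ?_ (logHeight_nonneg x)
    rw [div_mul_eq_mul_div, div_le_iff₀ (by positivity)]
    nlinarith
  have e12 := mul_le_mul_of_nonneg_left (k₅.trans (add_le_add le_rfl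
    (mul_le_mul_of_nonneg_left k₆ (Nat.cast_nonneg _)))) c0
  have e13 := mul_le_mul_of_nonneg_left k₆ (Nat.cast_nonneg (α := ℝ) d')
  linarith

end Pool.Agent.Lib.MP_651af7_nt.Tl
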