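import Pool.Agent.Lib.MP_651af7_nt.Tb.Defs
import Pool.Agent.Lib.MP_651af7_nt.Cu.VModel
import Pool.Agent.Lib.MP_651af7_nt.Bx.Vec
import Pool.Agent.Lib.MP_651af7_nt.Bx.Bir
import Pool.Agent.Lib.MP_651af7_nt.Ds.Mor
import Pool.Agent.Lib.MP_651af7_nt.Ds.Tan

/-! The hypotheses on a torus bundle descend to a field of definition. -/

namespace Pool.Agent.Lib.MP_651af7_nt.Tl

open MvPolynomial Module Bx Ds Tb

section

variable {Ω Ω' ι : Type} [Field Ω] [Field Ω'] {J : Ideal (MvPolynomial ι Ω)}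

theorem hyp_ev {σ : Type} (e : Ω ≃+* Ω') (v : σ → Ω) (P : MvPolynomial σ Ω) :
    eval (fun a => e (v a)) (map (e : Ω →+* Ω') P) = e (eval v P) := by
  rw [eval_map, ← coe_eval₂Hom]
  exact (map_eval₂Hom (RingHom.id Ω) v (e : Ω →+* Ω') P).symm

/-- An isomorphism of the ground fields carries abelian varieties to abelian varieties. -/
theorem abelian_tr (e : Ω ≃+* Ω') (h : Abelian J) : Abelian (J.map (map (e : Ω →+* Ω'))) := by
  obtain ⟨A, _, co, h1, h2⟩ := h
  have hs : Function.Surjective (map (σ := ι) (e : Ω →+* Ω')) := map_surjective _ e.surjective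
  have hp := h1.prime
  refine ⟨A, ‹_›, fun p a => e (co p a), ⟨Ideal.map_isPrime_of_equiv (mapEquiv ι e) (I := J),
    fun P hP d => ?_, fun p h0 => h1.ne p (funext fun a => e.map_eq_zero_iff.1 (congrFun h0 a)),
    fun p P hP => ?_, fun v v0 hv => ?_⟩, fun p₀ q₀ => ?_⟩
  · obtain ⟨Q, hQ, rfl⟩ := (Ideal.mem_map_iff_of_surjective _ hs).1 hP
    have h3 : map (e : Ω →+* Ω') (homogeneousComponent d Q) =
        homogeneousComponent d (map (e : Ω →+* Ω') Q) := by
      ext m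
      simp only [coeff_map, coeff_homogeneousComponent, apply_ite (e : Ω →+* Ω'), map_zero]
    exact h3 ▸ Ideal.mem_map_of_mem _ (h1.hom Q hQ d)
  · obtain ⟨Q, hQ, rfl⟩ := (Ideal.mem_map_iff_of_surjective _ hs).1 hP
    rw [hyp_ev, h1.zero p Q hQ, map_zero]
  · obtain ⟨w, rfl⟩ : ∃ w : ι → Ω, v = fun a => e (w a) :=
      ⟨fun a => e.symm (v a), funext fun a => (e.apply_symm_apply _).symm⟩
    refine (existsUnique_congr fun p => ⟨?_, ?_⟩).1 (h1.bij w (fun h0 => v0 (funext fun a => by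
      rw [h0, Pi.zero_apply, map_zero, Pi.zero_apply])) fun P hP => e.map_eq_zero_iff.1
        ((hyp_ev e w P).symm.trans (hv _ (Ideal.mem_map_of_mem _ hP))))
    · rintro ⟨c, rfl⟩
      exact ⟨e c, funext fun a => map_mul e _ _⟩
    · rintro ⟨c, hc⟩
      exact ⟨e.symm c, funext fun a => e.injective ((congrFun hc a).trans (by simp))⟩
  · obtain ⟨d, Ψ, a1, ⟨a, a2⟩, a3⟩ := h2 p₀ q₀
    have ev : ∀ p q b, eval (Sum.elim (fun a => e (co p a)) fun a => e (co q a))
        (map (e : Ω →+* Ω') (Ψ b)) = e (eval (Sum.elim (co p) (co q)) (Ψ b)) := fun p q b => by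
      rw [← hyp_ev]
      congr 2
      funext s
      cases s <;> rfl
    refine ⟨d, fun b => map (e : Ω →+* Ω') (Ψ b), fun b m hm => a1 b fun h0 => hm ?_,
      ⟨a, by rw [ev]; exact e.map_ne_zero_iff.2 a2⟩, fun p q => ?_⟩
    · rw [coeff_map, h0, map_zero]
    · obtain ⟨c, hc⟩ := a3 p q
      exact ⟨e c, fun b => by rw [ev, hc, map_mul]⟩

variable [IsAlgClosed Ω] [CharZero Ω] [Fintype ι]

/-- An abelian variety is birational to one with coordinates indexed by `Fin M`. -/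
theorem abelian_fin (h : Abelian J) :
    ∃ (M : ℕ) (J' : Ideal (MvPolynomial (Fin M) Ω)), Abelian J' ∧ Birat J J' := by
  obtain ⟨A, _, co, a1, a2⟩ := h
  obtain ⟨m, J', co', Φ, h1, h2, h3, h4⟩ := Cu.model a1 a2
  have : Nonempty A := ⟨0⟩
  refine ⟨m, J', ⟨A, ‹_›, co', h1, fun p₀ q₀ => ?_⟩, a1.birat h1 h3 h4⟩
  obtain ⟨a, ha⟩ := Function.ne_iff.1 (h1.ne (p₀ + q₀))
  obtain ⟨b, hb⟩ := Function.ne_iff.1 (h1.ne (p₀ - q₀))
  obtain ⟨c, c0, hc⟩ := h2.2 p₀ q₀
  refine ⟨(2, 2), Φ a, h2.1 a, ⟨b, (hc a b).trans_ne (mul_ne_zero c0 (mul_ne_zero ha hb))⟩,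
    fun p q => ?_⟩
  obtain ⟨c', -, hc'⟩ := h2.2 p q
  exact ⟨c' * co' (p + q) a, fun b' => (hc' a b').trans (mul_assoc _ _ _).symm⟩

/-- An abelian variety is smooth. -/
theorem abelian_smooth (h : Abelian J) : ∃ g, ∀ x : ι → Ω, x ≠ 0 → (∀ P ∈ J, aeval x P = 0) →
    finrank Ω (tsp J x) = g + 1 := by
  obtain ⟨A, _, co, a1, a2⟩ := h
  obtain ⟨m, J', co', Φ, h1, h2, h3, h4⟩ := Cu.model a1 a2
  have : Nonempty A := ⟨0⟩
  have hm : J'.map (map (algebraMap Ω Ω)) = J' := by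
    rw [show map (σ := Fin m) (algebraMap Ω Ω) = RingHom.id _ from RingHom.ext map_id,
      Ideal.map_id]
  obtain ⟨B, hB, -⟩ := Av.exists_av Ω J' h1.hom (hm.symm ▸ h1.prime) A co' h1.ne h1.zero h1.bij Φ
    h2.1 h2.2
  obtain ⟨r, σ, hσ⟩ := exists_lieBasis B
  refine ⟨r, fun x x0 hx => ?_⟩
  obtain ⟨p, ⟨s, rfl⟩, -⟩ := a1.bij x x0 hx
  obtain ⟨d, α, b1, b2, b3⟩ := h3 p
  obtain ⟨d', β, c1, c2, c3⟩ := h4 p
  have i1 := a1.inv h1 b1 c1 b2 c2 b3 c3
  have i2 := h1.inv a1 c1 b1 c2 b2 c3 b3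
  obtain ⟨j, hj⟩ := b2
  obtain ⟨i, hi⟩ := c2
  obtain ⟨u, hu⟩ := b3 p
  obtain ⟨t, ht⟩ := c3 p
  have u0 : u ≠ 0 := left_ne_zero_of_mul (hu j ▸ hj)
  have t0 : t ≠ 0 := left_ne_zero_of_mul (ht i ▸ hi)
  have e1 : (fun j => aeval (co p) (α j)) = fun j => u * co' p j := funext hu
  obtain ⟨r1, r2⟩ := i1.rank a1.hom h1.hom i2 (a1.ne p) (a1.zero p) (i := i)
    ((mor1_ev (c1 i) hu).trans_ne (mul_ne_zero (pow_ne_zero _ u0) hi)) (j := j) (by
      rw [e1, Av.aeval_mul_of_hom ((b1 j).aeval β c1)]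
      exact mul_ne_zero (pow_ne_zero _ u0)
        ((mor1_ev (b1 j) ht).trans_ne (mul_ne_zero (pow_ne_zero _ t0) hj)))
  have s0 : s ≠ 0 := fun e => x0 (by rw [e, zero_smul])
  rw [show s • co p = fun a => s * co p a from rfl, tsp_smul a1.hom (a1.zero p) s0, r2, ← hB,
    tsp_eq]
  exact rank_tan hσ r1 (hB ▸ i1.zero (a1.zero p))

end

variable {n N : ℕ}

section

variable {K Ω : Type} [Field K] [Field Ω] [Algebra K Ω] {Q : Ideal (MvPolynomial (Fin n × Fin N) Ω)}

theorem map_cp (μ : Fin n → ℕ) (P : MvPolynomial (Fin n × Fin N) K) :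
    map (algebraMap K Ω) (cp μ P) = cp μ (map (algebraMap K Ω) P) := by
  classical
  ext m
  simp only [cp, coeff_map, coeff_weightedHomogeneousComponent, apply_ite (algebraMap K Ω),
    map_zero]

theorem dn_cp (h : ∀ P ∈ Q, ∀ μ, cp μ P ∈ Q) : ∀ P ∈ dn K Q, ∀ μ, cp μ P ∈ dn K Q :=
  fun P hP μ => by
    rw [mem_dn, map_cp]
    exact h _ hP μ

theorem map_seg (P : MvPolynomial (Fin n → Fin N) K) : map (algebraMap K Ω)
    (aeval (fun a : Fin n → Fin N => (∏ j, X (j, a j) : MvPolynomial (Fin n × Fin N) K)) P) =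
    aeval (fun a : Fin n → Fin N => (∏ j, X (j, a j) : MvPolynomial (Fin n × Fin N) Ω))
      (map (algebraMap K Ω) P) := by
  refine (map_bind₁ _ _ P).trans ?_
  simp only [map_prod, map_X]
  rfl

theorem base_dn : base (dn K Q) = dn K (base Q) := Ideal.ext fun P => by
  simp only [base, Ideal.mem_comap, mem_dn]
  exact (congrArg (· ∈ Q) (map_seg P)).to_iff

theorem trCw_seg (l : Ω →ₗ[K] K) (P : MvPolynomial (Fin n → Fin N) Ω) : Av.trCw l
    (aeval (fun a : Fin n → Fin N => (∏ j, X (j, a j) : MvPolynomial (Fin n × Fin N) Ω)) P) =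
    aeval (fun a : Fin n → Fin N => (∏ j, X (j, a j) : MvPolynomial (Fin n × Fin N) K))
      (Av.trCw l P) := by
  have h : ∀ (ρ : Type) (c : Ω), Av.trCw l (C c : MvPolynomial ρ Ω) = C (l c) := fun ρ c => by
    classical
    ext ν
    simp only [Av.coeff_trCw, coeff_C]
    split_ifs <;> simp
  induction P using MvPolynomial.induction_on' with
  | monomial μ c =>
    have e : (monomial μ c : MvPolynomial (Fin n → Fin N) Ω) =
        C c * map (algebraMap K Ω) (monomial μ 1) := by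
      rw [map_monomial, map_one, C_mul_monomial, mul_one]
    rw [e, map_mul, ← map_seg, aeval_C, algebraMap_eq, Av.trCw_mul, Av.trCw_mul, h, h, map_mul,
      aeval_C, algebraMap_eq]
  | add P R hP hR => rw [map_add, Av.trCw_add, Av.trCw_add, map_add, hP, hR]

/-- The base is defined over every field of definition of the bundle. -/
theorem base_map (hm : (dn K Q).map (map (algebraMap K Ω)) = Q) :
    (base (dn K Q)).map (map (algebraMap K Ω)) = base Q := by
  refine le_antisymm (base_dn (K := K) (Q := Q) ▸ Ideal.map_comap_le) fun P hP =>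
    tan2_mem fun l => ?_
  exact (congrArg (· ∈ dn K Q) (trCw_seg l P)).mp (Av.trCw_mem l (hm.symm ▸ hP))

/-- No block of coordinates vanishes on the bundle. -/
theorem no_block (hA : Abelian (base Q)) (j : Fin n) : ∃ b, X (j, b) ∉ Q := by
  obtain ⟨A, _, co, h, -⟩ := hA
  obtain ⟨a, ha⟩ := Function.ne_iff.1 (h.ne 0)
  refine ⟨a j, fun hb => ha ((eval_X a).symm.trans (h.zero 0 _ ?_))⟩
  rw [base, Ideal.mem_comap]
  erw [aeval_X]
  exact Ideal.mem_of_dvd _ (Finset.dvd_prod_of_mem _ (Finset.mem_univ j)) hb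

end

/-- The hypotheses of `Tb.main` over a field of definition `K`. -/
theorem hyp {k K : Type} [Field k] [CharZero k] [Field K] [Algebra k K]
    [Algebra K (AlgebraicClosure k)] [IsScalarTower k K (AlgebraicClosure k)]
    {Q : Ideal (MvPolynomial (Fin n × Fin N) (AlgebraicClosure k))} (hp : Q.IsPrime)
    (hc : ∀ P ∈ Q, ∀ μ, cp μ P ∈ Q) (hA : Abelian (base Q))
    (hm : (dn K Q).map (map (algebraMap K (AlgebraicClosure k))) = Q) :
    (dn K Q).IsPrime ∧ (∀ P ∈ dn K Q, ∀ μ, cp μ P ∈ dn K Q) ∧ (∀ j, ∃ b, X (j, b) ∉ dn K Q) ∧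
      Var (base (dn K Q)) ∧ (∃ g, Smooth (base (dn K Q)) g) ∧
      Abelian ((base (dn K Q)).map (map (algebraMap K (AlgebraicClosure K)))) ∧
      ∃ (M : ℕ) (J : Ideal (MvPolynomial (Fin M) (AlgebraicClosure K))), Abelian J ∧
        Birat ((base (dn K Q)).map (map (algebraMap K (AlgebraicClosure K)))) J := by
  obtain ⟨e⟩ := tan3_equiv (k := k) (K := K)
  have : CharZero K := charZero_of_injective_algebraMap (algebraMap k K).injective
  have h1 : Abelian ((base (dn K Q)).map (map (algebraMap K (AlgebraicClosure K)))) := by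
    have h2 := abelian_tr e.toRingEquiv hA
    have h3 : (map (e.toRingEquiv : AlgebraicClosure k →+* AlgebraicClosure K)).comp
        (map (σ := Fin n → Fin N) (algebraMap K (AlgebraicClosure k))) =
        map (algebraMap K (AlgebraicClosure K)) :=
      MvPolynomial.ringHom_ext (fun c => by simp) fun a => by simp
    rwa [← base_map hm, Ideal.map_map, h3] at h2
  obtain ⟨g, hg⟩ := abelian_smooth h1
  refine ⟨Ideal.comap_isPrime _ _, dn_cp hc, fun j => (no_block hA j).imp fun b hb h =>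
    hb (by simpa only [mem_dn, map_X] using h), ⟨?_, ?_⟩, ⟨g, fun x x0 hx => ?_⟩, h1,
    abelian_fin h1⟩
  · obtain ⟨A, _, co, h, -⟩ := hA
    exact base_dn (K := K) (Q := Q) ▸ dn_hom h.hom
  · obtain ⟨A, _, co, h, -⟩ := h1
    exact h.prime
  · rw [← tsp_map (K := AlgebraicClosure K) hx]
    exact hg x x0 ((zero_map (K := AlgebraicClosure K)).2 hx)

end Pool.Agent.Lib.MP_651af7_nt.Tl
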