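import Pool.Agent.Lib.MP_651af7_nt.Tl.Par

/-! Lifts of the invariant vector fields of an abelian variety to a torus bundle. -/

namespace Pool.Agent.Lib.MP_651af7_nt.Tl

open MvPolynomial Module Av Bx
open Pool.Agent.Lib.MP_8865d3_nt.Lr (prp_val dP_hom)

set_option linter.unusedSectionVars false

noncomputable section

variable {k ν μ ι U V : Type} [Field k] [Fintype ν] [DecidableEq ν] [Fintype μ] [Fintype ι]

theorem aeval_act {R : Type} [CommRing R] [Algebra k R] {P : MvPolynomial (ν × μ) k} {m : ν → ℕ}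
    (hP : P.IsWeightedHomogeneous mw m) (t : ν → R) (z : ν × μ → R) :
    aeval (fun s => t s.1 * z s) P = (∏ j, t j ^ m j) * aeval z P := by
  rw [aeval_def, aeval_def, eval₂_eq, eval₂_eq, Finset.mul_sum]
  refine Finset.sum_congr rfl fun u hu => ?_
  have h := hP (mem_support_iff.mp hu)
  rw [Finsupp.weight_apply, Finsupp.sum] at h
  have h1 : ∀ s : ν × μ, t s.1 ^ u s = ∏ j, t j ^ (u s • mw s) j := fun s => by
    rw [Finset.prod_eq_single s.1 (fun j _ hj => by simp [mw, hj]) (by simp)]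
    simp [mw]
  simp only [mul_pow, Finset.prod_mul_distrib, h1]
  rw [Finset.prod_comm]
  simp only [Finset.prod_pow_eq_pow_sum, ← Finset.sum_apply, h]
  ring

/-- The torus acts on the zeros of a multihomogeneous ideal. -/
theorem zero_act {Q : Ideal (MvPolynomial (ν × μ) k)}
    (hQ : ∀ P ∈ Q, ∀ m, weightedHomogeneousComponent mw m P ∈ Q) {R : Type} [CommRing R]
    [Algebra k R] {z : ν × μ → R} (hz : ∀ P ∈ Q, aeval z P = 0) (t : ν → R) :
    ∀ P ∈ Q, aeval (fun s => t s.1 * z s) P = 0 := by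
  intro P hP
  rw [← sum_weightedHomogeneousComponent mw P,
    finsum_eq_sum _ (weightedHomogeneousComponent_finsupp P), map_sum]
  refine Finset.sum_eq_zero fun m _ => ?_
  rw [aeval_act (weightedHomogeneousComponent_isWeightedHomogeneous m P), hz _ (hQ P hP m),
    mul_zero]

theorem wh_aeval {τ M : Type} [AddCommMonoid M] {w : τ → M} {m : M} {g : ι → MvPolynomial τ k}
    (hg : ∀ a, (g a).IsWeightedHomogeneous w m) {P : MvPolynomial ι k} {d : ℕ}
    (hP : P.IsHomogeneous d) : (aeval g P).IsWeightedHomogeneous w (d • m) := by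
  rw [aeval_def, eval₂_eq]
  refine IsWeightedHomogeneous.sum _ _ _ fun u hu => ?_
  have h : ∑ i ∈ u.support, u i = d := by
    simpa [Finsupp.weight_apply, Finsupp.sum] using hP (mem_support_iff.mp hu)
  rw [← h, Finset.sum_smul, ← zero_add (∑ i ∈ u.support, _)]
  exact (isWeightedHomogeneous_C _ _).mul
    (IsWeightedHomogeneous.prod _ _ _ fun i _ => (hg i).pow _)

/-- Charts of the projection from the zeros of `Q` to `A` and of the blocks as functions on `A`. -/
structure TB (A : AV k ι) (Q : Ideal (MvPolynomial (ν × μ) k))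
    (α : U → ι → MvPolynomial (ν × μ) k) (β : V → ν × μ → MvPolynomial ι k) (e d : ℕ) : Prop where
  mh : ∀ P ∈ Q, ∀ m, weightedHomogeneousComponent mw m P ∈ Q
  homα : ∀ u a, (α u a).IsWeightedHomogeneous mw fun _ => e
  homβ : ∀ v s, (β v s).IsHomogeneous d
  mapα : ∀ u, ∀ P ∈ A.I, aeval (α u) P ∈ Q
  mapβ : ∀ v, ∀ P ∈ Q, aeval (β v) P ∈ A.I
  prpα : ∀ u u' a b, α u a * α u' b - α u b * α u' a ∈ Q
  prpβ : ∀ v v' j a b, β v (j, a) * β v' (j, b) - β v (j, b) * β v' (j, a) ∈ A.I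
  idα : ∀ u v a b, aeval (β v) (α u a) * X b - aeval (β v) (α u b) * X a ∈ A.I
  idβ : ∀ u v j a b, aeval (α u) (β v (j, a)) * X (j, b) - aeval (α u) (β v (j, b)) * X (j, a) ∈ Q
  covα : ∀ (F : Type) [Field F] [Algebra k F] (z : ν × μ → F), Blk z → (∀ P ∈ Q, aeval z P = 0) →
    ∃ u, (fun a => aeval z (α u a)) ≠ 0
  covβ : ∀ (F : Type) [Field F] [Algebra k F] (x : ι → F), x ≠ 0 → (∀ P ∈ A.I, aeval x P = 0) →
    ∃ v, Blk fun s => aeval x (β v s)

variable [CharZero k] {A : AV k ι} {Q : Ideal (MvPolynomial (ν × μ) k)}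
  {α : U → ι → MvPolynomial (ν × μ) k} {β : V → ν × μ → MvPolynomial ι k} {e d : ℕ}
  {F : Type} [Field F] [Algebra k F] {z : ν × μ → F}

theorem zero_dw {τ : Type} [Fintype τ] {I : Ideal (MvPolynomial τ k)} {x w : τ → F}
    (hx : ∀ P ∈ I, aeval x P = 0) : w ∈ tsp I x ↔ ∀ P ∈ I, aeval (dw x w) P = 0 :=
  mem_tsp.trans ⟨fun h P hP => TrivSqZeroExt.ext ((fst_aeval_dw _ _ _).trans (hx P hP)) (h P hP),
    fun h P hP => congrArg TrivSqZeroExt.snd (h P hP)⟩

theorem dw_tz (z : ν × μ → F) (t : ν → F) : dw z (fun s => t s.1 * z s) =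
    fun s => dw 1 t s.1 * dw z 0 s :=
  funext fun s => TrivSqZeroExt.ext (by simp) (by simp)

/-- The torus directions are tangent. -/
theorem TB.tz (h : TB A Q α β e d) (hz : ∀ P ∈ Q, aeval z P = 0) (t : ν → F) :
    (fun s => t s.1 * z s) ∈ tsp Q z := by
  rw [zero_dw hz, dw_tz]
  exact zero_act h.mh ((zero_dw hz).1 (zero_mem _)) _

/-- The lift of tangent vectors at a point. -/
theorem TB.lift (h : TB A Q α β e d) (h0 : Blk z) (hz : ∀ P ∈ Q, aeval z P = 0) :
    ∃ (x : ι → F) (b : (ι → F) →ₗ[F] ν × μ → F) (s : U → F) (ρ : V → ν → F), x ≠ 0 ∧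
      (∀ P ∈ A.I, aeval x P = 0) ∧ (∃ v, ∀ j, ρ v j ≠ 0) ∧ (∀ u a, aeval z (α u a) = s u * x a) ∧
      (∃ u, s u ≠ 0) ∧ (∀ v q, aeval x (β v q) = ρ v q.1 * z q) ∧ b x = (d : F) • z ∧
      (∀ w ∈ tsp A.I x, b w ∈ tsp Q z ∧
        (∀ t : ν → F, (b w = fun q => t q.1 * z q) → ∃ c : F, w = c • x) ∧
        ∀ v, ∃ t : ν → F, ∀ q, dP x w (β v q) = ρ v q.1 * b w q + t q.1 * z q) ∧
      ∀ w ∈ tsp Q z, ∃ w' ∈ tsp A.I x, ∃ t : ν → F, w = b w' + fun q => t q.1 * z q := by
  obtain ⟨u₀, x0⟩ := h.covα F z h0 hz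
  have hx : ∀ P ∈ A.I, aeval (fun a => aeval z (α u₀ a)) P = 0 := fun P hP => by
    rw [← bir1_aeval, hz _ (h.mapα u₀ P hP)]
  obtain ⟨v₀, hv₀⟩ := h.covβ F _ x0 hx
  choose s hs _ using fun u => prp_val (h.prpα u u₀) hz x0
  choose ρ hρ hρ' using fun v j => prp_val (ψ := fun a => X (j, a)) (h.idβ u₀ v j) hz
    (by simpa only [aeval_X] using h0 j)
  simp only [aeval_X, bir1_aeval, dP_X, dP_comp] at hρ hρ'
  have hα := fun w (hw : w ∈ tsp Q z) => (mem_tsp (I := A.I) (x := fun a => aeval z (α u₀ a))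
    (v := fun a => dP z w (α u₀ a))).2 fun P hP => by
      rw [← dP_comp, mem_tsp.1 hw _ (h.mapα u₀ P hP)]
  generalize hx' : (fun a => aeval z (α u₀ a)) = x at *
  have hs' : ∀ u a, aeval z (α u a) = s u * x a := fun u a => (hs u a).trans (by rw [← hx'])
  have ρ0 : ∀ j, ρ v₀ j ≠ 0 := fun j e' => hv₀ j (funext fun a =>
    (hρ v₀ j a).trans (by rw [e', zero_mul]; rfl))
  let b : (ι → F) →ₗ[F] ν × μ → F :=
    { toFun := fun w q => (ρ v₀ q.1)⁻¹ * dP x w (β v₀ q)
      map_add' := fun w w' => funext fun q => by rw [dP_add, mul_add]; rfl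
      map_smul' := fun c w => funext fun q => by rw [dP_smul, mul_left_comm]; rfl }
  have hb : ∀ w q, ρ v₀ q.1 * b w q = dP x w (β v₀ q) := fun w q => mul_inv_cancel_left₀ (ρ0 _) _
  have h1 : ∀ w, dw z (b w) = fun q => dw (fun j => (ρ v₀ j)⁻¹) 0 q.1 * aeval (dw x w) (β v₀ q) :=
    fun w => funext fun q => TrivSqZeroExt.ext (by
      rw [TrivSqZeroExt.fst_mul, fst_aeval_dw, hρ v₀ q.1 q.2]
      exact (inv_mul_cancel_left₀ (ρ0 _) _).symm) (by
      rw [DualNumber.snd_mul]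
      exact ((congrArg _ (zero_mul _)).trans (add_zero _)).symm)
  refine ⟨x, b, s, ρ, x0, hx, ⟨v₀, ρ0⟩, hs', ⟨u₀, fun e' => x0 (funext fun a => ?_)⟩,
    fun v q => hρ v q.1 q.2, funext fun q => ?_, fun w hw => ⟨?_, fun t ht => ?_, fun v => ?_⟩,
    fun w hw => ⟨_, hα w hw, ?_⟩⟩
  · rw [← congrFun hx' a, hs', e', zero_mul]
    rfl
  · refine mul_left_cancel₀ (ρ0 q.1) ?_
    rw [hb, dP_self (h.homβ v₀ q), hρ v₀ q.1 q.2, mul_left_comm]
    rfl
  · rw [zero_dw hz, h1]
    exact zero_act h.mh (fun P hP => by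
      rw [← bir1_aeval, (zero_dw hx).1 hw _ (h.mapβ v₀ P hP)]) _
  · obtain ⟨c, h2, h3⟩ := prp_val (ψ := X) (h.idα u₀ v₀) hx (by simpa only [aeval_X] using x0)
    obtain ⟨c', h3⟩ := h3 w hw
    simp only [aeval_X, dP_X] at h2 h3
    have h4 : ∀ a, (∏ j, dw 1 t j ^ e) * aeval (dw z 0) (α u₀ a) =
        (∏ j, dw (fun j => (ρ v₀ j)⁻¹) 0 j ^ e) * aeval (dw x w) (aeval (β v₀) (α u₀ a)) :=
      fun a => by
        rw [← aeval_act (h.homα u₀ a), ← dw_tz, ← ht, h1, aeval_act (h.homα u₀ a), bir1_aeval]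
    have hp : (∏ j, dw 1 t j ^ e : DualNumber F).fst = 1 :=
      (map_prod (TrivSqZeroExt.fstHom F F F) _ _).trans (by simp)
    generalize ∏ j, dw 1 t j ^ e = p at h4 hp
    generalize ∏ j, dw (fun j => (ρ v₀ j)⁻¹) 0 j ^ e = p' at h4
    have h5 : ∀ a, p.fst * x a = p'.fst * (c * x a) := fun a => by
      have h6 := congrArg TrivSqZeroExt.fst (h4 a)
      rwa [TrivSqZeroExt.fst_mul, TrivSqZeroExt.fst_mul, fst_aeval_dw, fst_aeval_dw, h2,
        congrFun hx' a] at h6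
    obtain ⟨a₀, ha⟩ := Function.ne_iff.1 x0
    have h6 : p.fst = p'.fst * c := mul_right_cancel₀ ha ((h5 a₀).trans (mul_assoc _ _ _).symm)
    refine ⟨p.snd - p'.fst * c' - p'.snd * c, funext fun a => ?_⟩
    have h7 := congrArg TrivSqZeroExt.snd (h4 a)
    rw [DualNumber.snd_mul, DualNumber.snd_mul, fst_aeval_dw, fst_aeval_dw, ← dP, ← dP, dP_zero,
      h2, h3, congrFun hx' a] at h7
    rw [Pi.smul_apply, smul_eq_mul]
    linear_combination -h7 + w a * h6 - w a * hp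
  · choose c h2 h3 using fun j => prp_val (h.prpβ v v₀ j) hx (hv₀ j)
    choose t ht using fun j => h3 j w hw
    refine ⟨fun j => t j * ρ v₀ j, fun q => ?_⟩
    obtain ⟨a, ha⟩ := Function.ne_iff.1 (h0 q.1)
    have h4 := h2 q.1 a
    rw [hρ, hρ, ← mul_assoc] at h4
    rw [ht q.1 q.2, hρ, mul_right_cancel₀ ha h4, mul_assoc, mul_assoc, hb]
  · choose t ht using fun j => hρ' v₀ j w hw
    refine ⟨fun j => -((ρ v₀ j)⁻¹ * t j), funext fun q => mul_left_cancel₀ (ρ0 q.1) ?_⟩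
    rw [Pi.add_apply, mul_add, hb, ht q.1 q.2]
    field_simp [ρ0 q.1]
    ring

/-- The weight of a chart. -/
def cw (α : U → ι → MvPolynomial (ν × μ) k) (β : V → ν × μ → MvPolynomial ι k)
    (c : U × V × ι × (ν → μ)) : MvPolynomial (ν × μ) k :=
  α c.1 c.2.2.1 * ∏ j, aeval (α c.1) (β c.2.1 (j, c.2.2.2 j))

/-- The lift of an invariant field in a chart. -/
def lf (A : AV k ι) (α : U → ι → MvPolynomial (ν × μ) k) (β : V → ν × μ → MvPolynomial ι k)
    (c : U × V × ι × (ν → μ)) (l : ι → k) (q : ν × μ) : MvPolynomial (ν × μ) k :=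
  (∏ j ∈ Finset.univ.erase q.1, aeval (α c.1) (β c.2.1 (j, c.2.2.2 j))) *
    (X (q.1, c.2.2.2 q.1) * aeval (α c.1) (dP X (vf A l c.2.2.1) (β c.2.1 q)))

theorem TB.cw_hom (h : TB A Q α β e d) (c : U × V × ι × (ν → μ)) :
    (cw α β c).IsWeightedHomogeneous mw fun _ => e + Fintype.card ν * (d * e) := by
  have h1 := (h.homα c.1 c.2.2.1).mul (IsWeightedHomogeneous.prod Finset.univ _ _ fun j _ =>
    wh_aeval (h.homα c.1) (h.homβ c.2.1 (j, c.2.2.2 j)))
  rwa [Finset.sum_const] at h1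

theorem TB.dv_hom (h : TB A Q α β e d) (l : ι → k) (b : ι) (v : V) (q : ν × μ) :
    (dP X (vf A l b) (β v q)).IsHomogeneous (d + 1) :=
  dP_hom (w := 1) (δ := 1) (vf_hom l b) (h.homβ v q)

theorem TB.lf_hom (h : TB A Q α β e d) (c : U × V × ι × (ν → μ)) (l : ι → k) (q : ν × μ) :
    (lf A α β c l q).IsWeightedHomogeneous mw
      (mw q + fun _ => e + Fintype.card ν * (d * e)) := by
  have h1 := (IsWeightedHomogeneous.prod (Finset.univ.erase q.1) _ _ fun j _ =>
    wh_aeval (h.homα c.1) (h.homβ c.2.1 (j, c.2.2.2 j))).mul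
    ((isWeightedHomogeneous_X k mw (q.1, c.2.2.2 q.1)).mul
      (wh_aeval (h.homα c.1) (h.dv_hom l c.2.2.1 c.2.1 q)))
  rw [Finset.sum_const] at h1
  refine (congrArg (IsWeightedHomogeneous mw _) (funext fun j => ?_)).mp h1
  rw [← Finset.card_univ, ← Finset.card_erase_add_one (Finset.mem_univ q.1)]
  simp only [mw, Pi.add_apply, Pi.smul_apply, smul_eq_mul]
  ring

/-- The lifted fields, with the torus fields. -/
theorem TB.par {n r : ℕ} {Q : Ideal (MvPolynomial (Fin (n + 1) × μ) k)}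
    {α : U → ι → MvPolynomial (Fin (n + 1) × μ) k} {β : V → Fin (n + 1) × μ → MvPolynomial ι k}
    (h : TB A Q α β e d) {σ : Fin r → ι → k} (hσ : A.LieBasis σ) :
    ∃ (W : U × V × ι × (Fin (n + 1) → μ) → Fin (n + r) → Fin (n + 1) × μ →
      MvPolynomial (Fin (n + 1) × μ) k) (wt : _ → MvPolynomial (Fin (n + 1) × μ) k) (R : ℕ),
      Par Q W wt R := by
  refine ⟨fun c l => Sum.elim (fun j q => if q.1 = j.succ then X q * cw α β c else 0)
    (fun i => lf A α β c (σ i)) (finSumFinEquiv.symm l), cw α β, _, fun c l q => ?_, h.cw_hom,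
    fun F _ _ z h0 hz => ?_, fun F _ _ z h0 hz => ?_⟩
  · rcases finSumFinEquiv.symm l with j | i
    · rw [Sum.elim_inl]
      split_ifs
      · exact (isWeightedHomogeneous_X _ _ _).mul (h.cw_hom c)
      · exact isWeightedHomogeneous_zero _ _ _
    · exact h.lf_hom c _ q
  · obtain ⟨x, -, s, ρ, x0, -, ⟨v, hv⟩, hs, ⟨u, hu⟩, hρ, -⟩ := h.lift h0 hz
    obtain ⟨a, ha⟩ := Function.ne_iff.1 x0
    choose m hm using fun j => Function.ne_iff.1 (h0 j)
    refine ⟨(u, v, a, m), ?_⟩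
    simp only [cw, map_mul, map_prod, bir1_aeval, hs, aeval_mul_of_hom (h.homβ _ _), hρ]
    exact mul_ne_zero (mul_ne_zero hu ha) (Finset.prod_ne_zero_iff.2 fun j _ =>
      mul_ne_zero (pow_ne_zero _ hu) (mul_ne_zero (hv j) (hm j)))
  obtain ⟨x, b, s, ρ, x0, hx, -, hs, -, hρ, hb, h1, h2⟩ := h.lift h0 hz
  obtain ⟨c₀, w, μ₀, hc, hw, hi, hsp, hv⟩ := exists_frame hσ x0 hx
  rw [← tsp_eq] at hw hsp
  let E : Fin n → Fin (n + 1) × μ → F := fun j q => (Pi.single j.succ 1 : _ → F) q.1 * z q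
  let w' : Fin (n + r) → Fin (n + 1) × μ → F := fun l =>
    Sum.elim E (fun i => b (w i)) (finSumFinEquiv.symm l)
  have hE : ∀ (t : Fin (n + 1) → F) q, t q.1 * z q =
      ∑ j, (t j.succ - t 0) * E j q + t 0 * z q := fun t q => by
    obtain ⟨j, m⟩ := q
    refine Fin.cases ?_ (fun j => ?_) j
    · simp [E, Pi.single_apply, (Fin.succ_ne_zero _).symm]
    · simp [E, Pi.single_apply]
      ring
  have hS : ∀ g : Fin n ⊕ Fin r → F, ∑ l, g (finSumFinEquiv.symm l) • w' l =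
      ∑ j, g (.inl j) • E j + b (∑ i, g (.inr i) • w i) := fun g => by
    rw [Equiv.sum_comp finSumFinEquiv.symm fun l => g l • Sum.elim E (fun i => b (w i)) l,
      Fintype.sum_sum_type, map_sum]
    simp only [Sum.elim_inl, Sum.elim_inr, map_smul]
  refine ⟨c₀ ^ r, w', pow_ne_zero _ hc, by simpa using h.tz hz 1, fun l => ?_,
    Fintype.linearIndependent_iff.2 fun g hg => ?_, fun v hv' => ?_, fun c => ?_⟩
  · unfold w'
    rcases finSumFinEquiv.symm l with j | i
    · exact h.tz hz _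
    · exact (h1 _ (hw i)).1
  · have h3 := hS fun l => g (finSumFinEquiv l).succ
    simp only [Equiv.apply_symm_apply] at h3
    rw [Fin.sum_univ_succ] at hg
    simp only [Fin.cons_zero, Fin.cons_succ, h3] at hg
    let t : Fin (n + 1) → F :=
      Fin.cons (-g 0) fun j => -g 0 - g (finSumFinEquiv (Sum.inl j : Fin n ⊕ Fin r)).succ
    have h4 : b (∑ i, g (finSumFinEquiv (Sum.inr i : Fin n ⊕ Fin r)).succ • w i) =
        fun q => t q.1 * z q := funext fun q => by
      have h5 := congrFun hg q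
      simp only [Pi.add_apply, Finset.sum_apply, Pi.smul_apply, smul_eq_mul, Pi.zero_apply] at h5
      rw [hE]
      simp only [t, Fin.cons_zero, Fin.cons_succ, sub_sub_cancel_left, neg_mul,
        Finset.sum_neg_distrib]
      linear_combination h5
    obtain ⟨c, h5⟩ := (h1 _ (sum_mem fun i _ => Submodule.smul_mem _ _ (hw i))).2.1 t h4
    have h6 := fun i => Fintype.linearIndependent_iff.1 hi
      (Fin.cons (-c) fun i => g (finSumFinEquiv (Sum.inr i : Fin n ⊕ Fin r)).succ) (by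
        rw [Fin.sum_univ_succ]
        simp only [Fin.cons_zero, Fin.cons_succ]
        rw [h5, neg_smul, neg_add_cancel]) (Fin.succ i)
    simp only [Fin.cons_succ] at h6
    simp only [h6, zero_smul, Finset.sum_const_zero, map_zero] at h4
    have h7 : ∀ j, t j = 0 := fun j => (Function.ne_iff.1 (h0 j)).elim fun m hm =>
      (mul_eq_zero.1 (congrFun h4 (j, m)).symm).resolve_right hm
    have h8 : g 0 = 0 := neg_eq_zero.1 (h7 0)
    refine Fin.cases h8 fun l => ?_
    obtain ⟨l, rfl⟩ := finSumFinEquiv.surjective l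
    rcases l with j | i
    · simpa [t, h8] using h7 j.succ
    · exact h6 i
  · obtain ⟨v', h3, t, rfl⟩ := h2 v hv'
    obtain ⟨g, rfl⟩ := (Submodule.mem_span_range_iff_exists_fun F).1 (hsp h3)
    refine (Submodule.mem_span_range_iff_exists_fun F).2 ⟨Fin.cons (g 0 * d + t 0) fun l =>
      Sum.elim (fun j => t j.succ - t 0) (fun i => g i.succ) (finSumFinEquiv.symm l), ?_⟩
    rw [Fin.sum_univ_succ, Fin.sum_univ_succ]
    simp only [Fin.cons_zero, Fin.cons_succ, hS, Sum.elim_inl, Sum.elim_inr, map_add, map_smul, hb]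
    funext q
    simp only [Pi.add_apply, Finset.sum_apply, Pi.smul_apply, smul_eq_mul, hE t]
    ring
  obtain ⟨u, v, a, m⟩ := c
  choose t ht using fun i => (h1 _ (hw i)).2.2 v
  have h3 : ∀ i, ∃ t : Fin (n + 1) → F, ∀ q, aeval z (lf A α β (u, v, a, m) (σ i) q) =
      c₀ * aeval z (cw α β (u, v, a, m)) * b (w i) q + t q.1 * z q := fun i => by
    refine ⟨fun j => (∏ j' ∈ Finset.univ.erase j, s u ^ d * (ρ v j' * z (j', m j'))) *
      (z (j, m j) * s u ^ (d + 1) * (c₀ * x a * t i j + μ₀ a i * d * ρ v j)), fun q => ?_⟩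
    have h4 := map_dP (aeval x) X (vf A (σ i) a) (β v q)
    have h5 : (fun t => aeval x (vf A (σ i) a t)) = (c₀ * x a) • w i + μ₀ a i • x :=
      funext fun t => hv a i t
    simp only [aeval_X] at h4
    rw [h5, dP_lin, dP_smul, dP_self (h.homβ v q), ht, hρ] at h4
    simp only [lf, cw, map_mul, map_prod, bir1_aeval, hs, aeval_mul_of_hom (h.homβ _ _),
      aeval_mul_of_hom (h.dv_hom _ _ _ _), hρ, aeval_X, h4]
    rw [← Finset.mul_prod_erase _ _ (Finset.mem_univ q.1)]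
    ring
  choose t' ht' using h3
  generalize hω : aeval z (cw α β (u, v, a, m)) = ω at ht'
  refine ⟨(Matrix.fromBlocks (Matrix.diagonal fun _ => ω) 0 (.of fun i j => t' i j.succ - t' i 0)
    (Matrix.diagonal fun _ => c₀ * ω)).submatrix finSumFinEquiv.symm finSumFinEquiv.symm,
    fun l => Sum.elim 0 (fun i => t' i 0) (finSumFinEquiv.symm l), ?_, fun l q => ?_⟩
  · rw [Matrix.det_submatrix_equiv_self, Matrix.det_fromBlocks_zero₁₂]
    simp only [Matrix.det_diagonal, Finset.prod_const, Finset.card_univ, Fintype.card_fin]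
    ring
  have h4 := fun g => congrFun (hS g) q
  simp only [Finset.sum_apply, Pi.smul_apply, smul_eq_mul, Pi.add_apply, map_sum, map_smul] at h4
  simp only [Matrix.submatrix_apply]
  rw [h4]
  rcases finSumFinEquiv.symm l with j | i
  · rw [Finset.sum_eq_single j (fun i _ hi => by simp [hi.symm]) (by simp)]
    simp [E, Pi.single_apply, apply_ite (aeval z), hω, mul_comm]
  · rw [Sum.elim_inr, ht', hE]
    simp [Matrix.diagonal_apply]
    ring

end

end Pool.Agent.Lib.MP_651af7_nt.Tl
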