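import Pool.Agent.Lib.MP_651af7_nt.Tl.ModA
import Pool.Agent.Lib.MP_651af7_nt.Tl.Vec

/-! Charts of a torus bundle over an abelian variety, over a number field. -/

namespace Pool.Agent.Lib.MP_651af7_nt.Tl

open MvPolynomial Av Bx Ds Et Function

variable {K ν μ ι U V : Type} [Field K] [Fintype ν] [DecidableEq ν]

/-- The Segre substitution. -/
noncomputable def seg : MvPolynomial (ν → μ) K →ₐ[K] MvPolynomial (ν × μ) K :=
  aeval fun a => ∏ j, X (j, a j)

/-- The blocks as functions of the Segre coordinates. -/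
noncomputable def rho (a : ν → μ) : MvPolynomial (ν × μ) K →ₐ[K] MvPolynomial (ν → μ) K :=
  aeval fun s => X (update a s.1 s.2)

section ring

variable {R : Type} [CommRing R]

theorem prod_upd (z : ν × μ → R) (a : ν → μ) (j : ν) (b : μ) :
    ∏ i, z (i, update a j b i) = (∏ i ∈ Finset.univ.erase j, z (i, a i)) * z (j, b) := by
  rw [← Finset.prod_erase_mul _ _ (Finset.mem_univ j), update_self]
  exact congrArg (· * _) (Finset.prod_congr rfl fun i hi => by
    rw [update_of_ne (Finset.ne_of_mem_erase hi)])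

theorem prod_upd₂ (z : ν × μ → R) (a c : ν → μ) : ∏ j, ∏ i, z (i, update a j (c j) i) =
    (∏ i, z (i, a i)) ^ (Fintype.card ν - 1) * ∏ j, z (j, c j) := by
  simp only [prod_upd, Finset.prod_mul_distrib]
  rw [Finset.prod_comm' (t' := Finset.univ) (s' := fun i => Finset.univ.erase i)
    (by simp [eq_comm]), ← Finset.prod_pow]
  simp [Finset.card_erase_of_mem]

variable [Algebra K R]

omit [DecidableEq ν] in
theorem aeval_seg (z : ν × μ → R) (P : MvPolynomial (ν → μ) K) :
    aeval z (seg P) = aeval (fun a : ν → μ => ∏ j, z (j, a j)) P := by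
  rw [seg, comp_aeval_apply]
  simp only [map_prod, aeval_X]

omit [Fintype ν] in
theorem aeval_rho (y : (ν → μ) → R) (a : ν → μ) (P : MvPolynomial (ν × μ) K) :
    aeval y (rho a P) = aeval (fun s => y (update a s.1 s.2)) P := by
  rw [rho, comp_aeval_apply]
  simp only [aeval_X]

end ring

omit [DecidableEq ν] in
theorem seg_X (a : ν → μ) : seg (X a : MvPolynomial (ν → μ) K) = ∏ j, X (j, a j) := aeval_X _ _

theorem seg_wh {P : MvPolynomial (ν → μ) K} {e : ℕ} [Fintype μ] (hP : P.IsHomogeneous e) :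
    (seg P).IsWeightedHomogeneous mw fun _ => e := by
  have h1 : ∀ a : ν → μ, (∏ j, X (j, a j) : MvPolynomial (ν × μ) K).IsWeightedHomogeneous mw 1 :=
    fun a => by
      have h2 := IsWeightedHomogeneous.prod Finset.univ
        (fun j => (X (j, a j) : MvPolynomial (ν × μ) K)) (w := mw) _
        fun j _ => isWeightedHomogeneous_X K mw (j, a j)
      rwa [show ∑ j, mw (j, a j) = 1 from Finset.univ_sum_single (1 : ν → ℕ)] at h2
  have h3 := wh_aeval h1 hP
  rwa [show e • (1 : ν → ℕ) = fun _ => e from funext fun _ => mul_one e] at h3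

variable [Fintype μ] {Q : Ideal (MvPolynomial (ν × μ) K)}

theorem rho_mem (hQ : ∀ P ∈ Q, ∀ m, weightedHomogeneousComponent mw m P ∈ Q) (a : ν → μ)
    {P : MvPolynomial (ν × μ) K} (hP : P ∈ Q) : rho a P ∈ Q.comap seg := by
  have h1 : ∀ P : MvPolynomial (ν × μ) K,
      aeval (fun s => Ideal.Quotient.mkₐ K Q (X s)) P = Ideal.Quotient.mk Q P := fun P => by
    rw [← comp_aeval_apply, aeval_X_left_apply]
    rfl
  rw [Ideal.mem_comap, ← Ideal.Quotient.eq_zero_iff_mem, ← h1, aeval_seg, aeval_rho]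
  simp only [prod_upd (fun s => Ideal.Quotient.mkₐ K Q (X s))]
  exact zero_act hQ (fun P hP => (h1 P).trans (Ideal.Quotient.eq_zero_iff_mem.2 hP))
    (fun j => ∏ i ∈ Finset.univ.erase j, Ideal.Quotient.mkₐ K Q (X (i, a i))) P hP

theorem tb_of [Fintype ι] [Q.IsPrime]
    (hQ : ∀ P ∈ Q, ∀ m, weightedHomogeneousComponent mw m P ∈ Q) {a₁ : ν → μ}
    (h₁ : X a₁ ∉ Q.comap seg) {B : AV K ι} [B.I.IsPrime] {α : U → ι → MvPolynomial (ν → μ) K}
    {β : V → (ν → μ) → MvPolynomial ι K} {e d : ℕ} (hα : Chs (Q.comap seg) B.I e α)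
    (hβ : Chs B.I (Q.comap seg) d β) (i₁ : Idn (Q.comap seg) α β) (i₂ : Idn B.I β α) :
    TB B Q (fun u a => seg (α u a)) (fun (v : V × (ν → μ)) s => β v.1 (update v.2 s.1 s.2)) e d := by
  have r₁ : ∀ v (a a' : ν → μ) j b b', β v (update a j b) * β v (update a' j b') -
      β v (update a j b') * β v (update a' j b) ∈ B.I := fun v a a' j b b' => by
    have h2 := hβ.map v (X (update a j b) * X (update a' j b') -
      X (update a j b') * X (update a' j b)) (by
        rw [Ideal.mem_comap, map_sub, map_mul, map_mul, seg_X, seg_X, seg_X, seg_X,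
          prod_upd X, prod_upd X, prod_upd X, prod_upd X]
        convert Q.zero_mem using 1
        ring)
    simpa only [map_sub, map_mul, aeval_X] using h2
  refine ⟨hQ, fun u a => seg_wh (hα.hom u a), fun v s => hβ.hom _ _, fun u P hP => ?_,
    fun v P hP => ?_, fun u u' a b => ?_, fun v v' j a b => ?_, fun u v a b => ?_,
    fun u v j a b => ?_, fun F _ _ z z0 hz => ?_, fun F _ _ x x0 hx => ?_⟩
  · have h2 := hα.map u P hP
    rwa [Ideal.mem_comap, comp_aeval_apply] at h2
  · rw [← aeval_rho]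
    exact hβ.map v.1 _ (rho_mem hQ v.2 hP)
  · simpa only [Ideal.mem_comap, map_sub, map_mul] using hα.prop u u' a b
  · have h2 : ∀ c, β v.1 c * (β v.1 (update v.2 j a) * β v'.1 (update v'.2 j b) -
        β v.1 (update v.2 j b) * β v'.1 (update v'.2 j a)) ∈ B.I := fun c => by
      have h3 := add_mem (sub_mem
        (B.I.mul_mem_left (β v.1 (update v.2 j a)) (hβ.prop v.1 v'.1 c (update v'.2 j b)))
        (B.I.mul_mem_left (β v.1 (update v.2 j b)) (hβ.prop v.1 v'.1 c (update v'.2 j a))))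
        (B.I.mul_mem_left (β v'.1 c) (r₁ v.1 v.2 v'.2 j a b))
      convert h3 using 1
      ring
    by_contra h3
    exact h3 (sub_mem
      (B.I.mul_mem_right _ ((Ideal.IsPrime.mem_or_mem ‹_› (h2 _)).resolve_right h3))
      (B.I.mul_mem_right _ ((Ideal.IsPrime.mem_or_mem ‹_› (h2 _)).resolve_right h3)))
  · let π := Ideal.Quotient.mkₐ K B.I
    have h2 : ∀ c : ν → μ, ∏ j, π (β v.1 (update v.2 j (c j))) =
        π (β v.1 v.2) ^ (Fintype.card ν - 1) * π (β v.1 c) := fun c => by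
      have h3 := hβ.map v.1 (∏ j, X (update v.2 j (c j)) - X v.2 ^ (Fintype.card ν - 1) * X c) (by
        rw [Ideal.mem_comap, map_sub, map_mul, map_pow, map_prod]
        simp only [seg_X]
        rw [prod_upd₂ X, sub_self]
        exact Q.zero_mem)
      have h4 := Ideal.Quotient.eq.2 (by
        simpa only [map_sub, map_mul, map_pow, map_prod, aeval_X] using h3)
      simp only [map_mul, map_pow, map_prod] at h4
      exact h4
    have h3 : ∀ a, π (aeval (fun s : ν × μ => β v.1 (update v.2 s.1 s.2)) (seg (α u a))) =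
        (π (β v.1 v.2) ^ (Fintype.card ν - 1)) ^ e * π (aeval (β v.1) (α u a)) := fun a => by
      rw [comp_aeval_apply, aeval_seg, comp_aeval_apply, ← aeval_mul_of_hom (hα.hom u a)]
      simp only [h2]
    have h4 := Ideal.Quotient.eq.2 (i₂ v.1 u a b)
    refine Ideal.Quotient.eq.1 ?_
    change π _ = π _ at h4 ⊢
    rw [map_mul, map_mul] at h4 ⊢
    rw [h3, h3, mul_assoc, mul_assoc, h4]
  · have h2 : ∀ c, aeval (fun a => seg (α u a)) (β v.1 c) * seg (X a₁) -
        aeval (fun a => seg (α u a)) (β v.1 a₁) * seg (X c) ∈ Q := fun c => by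
      have h3 := i₁ u v.1 c a₁
      rwa [Ideal.mem_comap, map_sub, map_mul, map_mul, comp_aeval_apply, comp_aeval_apply] at h3
    refine (Ideal.IsPrime.mem_or_mem ‹_› ?_).resolve_left h₁
    have h3 := sub_mem (Q.mul_mem_right (X (j, b)) (h2 (update v.2 j a)))
      (Q.mul_mem_right (X (j, a)) (h2 (update v.2 j b)))
    rw [seg_X (update _ _ _), seg_X (update _ _ _), prod_upd X, prod_upd X] at h3
    convert h3 using 1
    ring
  · choose b hb using fun j => ne_iff.1 (z0 j)
    obtain ⟨u, a, h2⟩ := hα.cov F (fun a : ν → μ => ∏ j, z (j, a j))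
      (ne_iff.2 ⟨b, Finset.prod_ne_zero_iff.2 fun j _ => hb j⟩)
      fun P hP => (aeval_seg z P).symm.trans (hz _ hP)
    exact ⟨u, ne_iff.2 ⟨a, (aeval_seg z _).trans_ne h2⟩⟩
  · obtain ⟨v, c, h2⟩ := hβ.cov F x x0 hx
    exact ⟨(v, c), fun j => ne_iff.2 ⟨c j, by simp only [update_eq_self]; exact h2⟩⟩

omit [DecidableEq ν] [Fintype μ] in
theorem mod_seg {Ω : Type} [Field Ω] [Algebra K Ω] (P : MvPolynomial (ν → μ) K) :
    map (algebraMap K Ω) (seg P) = seg (map (algebraMap K Ω) P) := by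
  rw [seg, seg, aeval_eq_bind₁, map_bind₁]
  simp only [map_prod, map_X]
  rfl

omit [DecidableEq ν] [Fintype μ] in
theorem dn_seg {Ω : Type} [Field Ω] [Algebra K Ω] (Q : Ideal (MvPolynomial (ν × μ) Ω)) :
    dn K (Q.comap seg) = (dn K Q).comap seg := Ideal.ext fun P => by
  rw [mem_dn, Ideal.mem_comap, Ideal.mem_comap, mem_dn, mod_seg]

omit [Fintype ν] [Fintype μ] in
theorem dn_mh {Ω : Type} [Field Ω] [Algebra K Ω] {Q : Ideal (MvPolynomial (ν × μ) Ω)}
    (hQ : ∀ P ∈ Q, ∀ m, weightedHomogeneousComponent mw m P ∈ Q) :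
    ∀ P ∈ dn K Q, ∀ m, weightedHomogeneousComponent mw m P ∈ dn K Q := by
  classical
  intro P hP d
  have h1 : map (algebraMap K Ω) (weightedHomogeneousComponent mw d P) =
      weightedHomogeneousComponent mw d (map (algebraMap K Ω) P) := by
    ext m
    simp only [coeff_map, coeff_weightedHomogeneousComponent, apply_ite (algebraMap K Ω), map_zero]
  rw [mem_dn, h1]
  exact hQ _ hP d

/-- The charts over all large finite extensions. -/
theorem model {k : Type} [Field k] [NumberField k]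
    {Q : Ideal (MvPolynomial (ν × μ) (AlgebraicClosure k))} (hp : Q.IsPrime)
    (hQ : ∀ P ∈ Q, ∀ m, weightedHomogeneousComponent mw m P ∈ Q) (hA : Abelian (Q.comap seg))
    (L₀ : IntermediateField k (AlgebraicClosure k)) [FiniteDimensional k L₀] :
    ∃ L : IntermediateField k (AlgebraicClosure k), FiniteDimensional k L ∧ L₀ ≤ L ∧
      ∃ (m : ℕ) (U V : Type) (_ : Fintype U) (_ : Fintype V) (e d : ℕ),
      ∀ L' : IntermediateField k (AlgebraicClosure k), L ≤ L' →
        (dn L' Q).map (map (algebraMap L' (AlgebraicClosure k))) = Q ∧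
        ((dn L' Q).comap seg).map (map (algebraMap L' (AlgebraicClosure k))) = Q.comap seg ∧
        (∃ a : ν → μ, ∀ j, X (j, a j) ∉ dn L' Q) ∧
        ∃ (B : AV L' (Fin m)) (α : U → Fin m → MvPolynomial (ν × μ) L')
          (β : V → ν × μ → MvPolynomial (Fin m) L'), TB B (dn L' Q) α β e d := by
  obtain ⟨T, hT⟩ : Q.FG := IsNoetherian.noetherian Q
  obtain ⟨K₁, _, c₁, f₁⟩ := ex_field L₀ (Subtype.val : T → _)
  obtain ⟨L, hL, c₂, m, U, V, hU, hV, e, d, h⟩ := exists_chs hA K₁
  obtain ⟨A, _, co, h₀, -⟩ := hA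
  have : Nonempty A := ⟨0⟩
  obtain ⟨a₁, h₁⟩ := h₀.exists_X
  refine ⟨L, hL, c₁.trans c₂, m, U, V × (ν → μ), hU, inferInstance, e, d, fun L' c₃ => ?_⟩
  obtain ⟨n1, B, α, β, k1, k2, k3, k4⟩ := h L' c₃
  have h₂ : X a₁ ∉ dn L' (Q.comap seg) := by rwa [mem_dn, map_X]
  rw [dn_seg] at n1 k1 k2 k3 h₂
  have : (dn L' Q).IsPrime := Ideal.comap_isPrime _ _
  have := B.tr_prime
  refine ⟨dn_map hT.symm fun P hP => f₁ L' (c₂.trans c₃) ⟨P, hP⟩, n1, ⟨a₁, fun j hj => h₂ ?_⟩,
    B, _, _, tb_of (dn_mh hQ) h₂ k1 k2 k3 k4⟩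
  rw [Ideal.mem_comap, seg_X, ← Finset.mul_prod_erase _ _ (Finset.mem_univ j)]
  exact Ideal.mul_mem_right _ _ hj

end Pool.Agent.Lib.MP_651af7_nt.Tl
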