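import Pool.Agent.Lib.MP_651af7_nt.Cu.VModel
import Pool.Agent.Lib.MP_651af7_nt.Et.Setup

/-! Finite families of charts of an isomorphism of projective varieties. -/

namespace Pool.Agent.Lib.MP_651af7_nt.Tl

open MvPolynomial Av Bx Ds Et

variable {K U V ι κ A : Type} [Field K]

/-- The families `α u` of forms give a morphism from the variety of `J` to that of `J'`. -/
structure Chs (J : Ideal (MvPolynomial ι K)) (J' : Ideal (MvPolynomial κ K)) (d : ℕ)
    (α : U → κ → MvPolynomial ι K) : Prop where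
  hom : ∀ u a, (α u a).IsHomogeneous d
  map : ∀ u, ∀ P ∈ J', aeval (α u) P ∈ J
  prop : ∀ u u' a a', α u a * α u' a' - α u a' * α u' a ∈ J
  cov : ∀ (F : Type) [Field F] [Algebra K F] (x : ι → F), x ≠ 0 → (∀ P ∈ J, aeval x P = 0) →
    ∃ u a, aeval x (α u a) ≠ 0

/-- The composite of the two maps is the identity. -/
def Idn (J : Ideal (MvPolynomial ι K)) (α : U → κ → MvPolynomial ι K)
    (β : V → ι → MvPolynomial κ K) : Prop :=
  ∀ u v i l, aeval (α u) (β v i) * X l - aeval (α u) (β v l) * X i ∈ J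

section cl

variable [IsAlgClosed K] [CharZero K] [Fintype ι] [Fintype κ] [Nonempty A]
  {J : Ideal (MvPolynomial ι K)} {J' : Ideal (MvPolynomial κ K)} {co : A → ι → K} {co' : A → κ → K}

theorem mor_chs (h : Pts J co) (h' : Pts J' co') (hm : Mor co co') :
    ∃ (U : Type) (_ : Fintype U) (d : ℕ) (α : U → κ → MvPolynomial ι K), Chs J J' d α ∧
      ∀ u p, ∃ c : K, ∀ a, eval (co p) (α u a) = c * co' p a := by
  obtain ⟨s, h1, h2⟩ := (Submodule.fg_span_iff_fg_span_finset_subset (R := MvPolynomial ι K)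
    {P | ∃ (d : ℕ) (α : κ → MvPolynomial ι K) (l : κ), ((∀ a, (α a).IsHomogeneous d) ∧
      ∀ p, ∃ c : K, ∀ a, eval (co p) (α a) = c * co' p a) ∧ α l = P}).1
    (IsNoetherian.noetherian _)
  choose d α l h3 h4 using fun P : s => h1 P.2
  have g1 : ∀ (t : s × ι) a, (X t.2 ^ (∑ P, d P - d t.1) * α t.1 a).IsHomogeneous (∑ P, d P) :=
    fun t a => by
      have h5 := (isHomogeneous_X_pow (R := K) t.2 (∑ P, d P - d t.1)).mul ((h3 t.1).1 a)
      rwa [Nat.sub_add_cancel (Finset.single_le_sum (fun _ _ => Nat.zero_le _)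
        (Finset.mem_univ t.1))] at h5
  have g2 : ∀ (t : s × ι) p, ∃ c : K, ∀ a,
      eval (co p) (X t.2 ^ (∑ P, d P - d t.1) * α t.1 a) = c * co' p a := fun t p => by
    obtain ⟨c, hc⟩ := (h3 t.1).2 p
    exact ⟨_, fun i => by rw [map_mul, hc, ← mul_assoc]⟩
  refine ⟨s × ι, inferInstance, ∑ P, d P, fun t a => X t.2 ^ (∑ P, d P - d t.1) * α t.1 a,
    ⟨g1, fun u P hP => ?_, fun u u' a a' => ?_, fun F _ _ y y0 hy => ?_⟩, g2⟩
  · rw [← sum_homogeneousComponent P, map_sum]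
    refine Ideal.sum_mem _ fun n _ => ?_
    have hn := homogeneousComponent_isHomogeneous n P
    refine (h.mem_iff (hn.aeval _ (g1 u))).2 fun p => ?_
    obtain ⟨c, hc⟩ := g2 u p
    rw [mor1_ev hn hc, h'.zero p _ (h'.hom P hP n), mul_zero]
  · refine (h.mem_iff (((g1 u a).mul (g1 u' a')).sub ((g1 u a').mul (g1 u' a)))).2 fun p => ?_
    obtain ⟨c, hc⟩ := g2 u p
    obtain ⟨c', hc'⟩ := g2 u' p
    rw [map_sub, map_mul, map_mul _ _ (_ * α u'.1 a), hc, hc, hc', hc']
    ring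
  · by_contra! hc
    obtain ⟨b, hb⟩ := Function.ne_iff.1 y0
    have h3' : X b ∈ RingHom.ker (aeval (R := K) y) := by
      refine mem_of_zero' (RingHom.ker_isPrime _) fun z hz => by_contra fun e => ?_
      rw [eval_X] at e
      obtain ⟨p, ⟨c, rfl⟩, -⟩ := h.bij z (Function.ne_iff.2 ⟨b, e⟩) fun P hP => hz P (hy P hP)
      obtain ⟨d', α', k1, ⟨l', k2⟩, k3⟩ := hm p
      have k4 : α' l' ∈ RingHom.ker (aeval (R := K) y) := by
        refine (h2.le.trans (Submodule.span_le.2 fun P hP => ?_) : _ ≤ RingHom.ker (aeval y))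
          (Submodule.subset_span ⟨d', α', l', ⟨k1, k3⟩, rfl⟩)
        have h7 := hc (⟨P, hP⟩, b) (l ⟨P, hP⟩)
        rw [map_mul, map_pow, aeval_X, h4] at h7
        exact (mul_eq_zero.1 h7).resolve_left (pow_ne_zero _ hb)
      have k5 := (aeval_mul_of_hom (k1 l') c (co p)).symm.trans (hz _ k4)
      exact mul_ne_zero (pow_ne_zero _ (left_ne_zero_of_mul e)) k2 k5
    rw [RingHom.mem_ker, aeval_X] at h3'
    exact hb h3'

omit [CharZero K] in
theorem idn_of (h : Pts J co) {d d' : ℕ} {α : U → κ → MvPolynomial ι K}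
    {β : V → ι → MvPolynomial κ K} (hα : ∀ u a, (α u a).IsHomogeneous d)
    (hβ : ∀ v a, (β v a).IsHomogeneous d')
    (h3 : ∀ u p, ∃ c : K, ∀ a, eval (co p) (α u a) = c * co' p a)
    (h4 : ∀ v p, ∃ c : K, ∀ a, eval (co' p) (β v a) = c * co p a) : Idn J α β := by
  intro u v i l
  refine (h.mem_iff ((((hβ v i).aeval _ (hα u)).mul (isHomogeneous_X K l)).sub
    (((hβ v l).aeval _ (hα u)).mul (isHomogeneous_X K i)))).2 fun p => ?_
  obtain ⟨c, hc⟩ := h3 u p
  obtain ⟨e, he⟩ := h4 v p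
  rw [map_sub, map_mul, map_mul, mor1_ev (hβ v i) hc, mor1_ev (hβ v l) hc, he, he, eval_X, eval_X]
  ring

end cl

section dn

variable {k : Type} [Field k] [CharZero k] [Algebra k K] [Algebra K (AlgebraicClosure k)]
  [IsScalarTower k K (AlgebraicClosure k)] [Fintype ι] [Fintype κ]
  {J : Ideal (MvPolynomial ι (AlgebraicClosure k))}
  {J' : Ideal (MvPolynomial κ (AlgebraicClosure k))} {d : ℕ} {α : U → κ → MvPolynomial ι K}
  {β : V → ι → MvPolynomial κ K}

omit [Fintype κ] in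
theorem chs_down (h : Chs J J' d fun u a => map (algebraMap K (AlgebraicClosure k)) (α u a))
    (hm : (dn K J).map (map (algebraMap K (AlgebraicClosure k))) = J) :
    Chs (dn K J) (dn K J') d α := by
  refine ⟨fun u a => wh_of_map (h.hom u a), fun u P hP => ?_, fun u u' a a' => ?_,
    fun F _ _ y y0 hy => ?_⟩
  · have h3 := h.map u _ hP
    rwa [mem_dn, aeval_eq_bind₁, map_bind₁]
  · simpa only [mem_dn, map_sub, map_mul] using h.prop u u' a a'
  · obtain ⟨E, _, _, _, _, ⟨j⟩⟩ := ext_field (k := k) (K := K) F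
    obtain ⟨u, a, h1⟩ := h.cov E (fun a => j (y a))
      (fun e => y0 (funext fun b => (map_eq_zero j).1 (congrFun e b)))
      (hm ▸ (zero_map (K := AlgebraicClosure k)).2
        fun Q hQ => by rw [← comp_aeval_apply, hy Q hQ, map_zero])
    exact ⟨u, a, by rwa [aeval_map_algebraMap, ← comp_aeval_apply, map_ne_zero] at h1⟩

omit [CharZero k] [Algebra k K] [IsScalarTower k K (AlgebraicClosure k)] [Fintype ι] [Fintype κ] in
theorem idn_down (h : Idn J (fun u a => map (algebraMap K (AlgebraicClosure k)) (α u a))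
    fun u a => map (algebraMap K (AlgebraicClosure k)) (β u a)) : Idn (dn K J) α β := by
  intro u v i l
  have h1 := h u v i l
  rw [mem_dn, map_sub, map_mul, map_mul, aeval_eq_bind₁, map_bind₁, map_bind₁, map_X, map_X]
  exact h1

end dn

/-- A symmetric model of an abelian variety, with charts, over all large finite extensions. -/
theorem exists_chs {k : Type} [Field k] [NumberField k] [Fintype ι]
    {J : Ideal (MvPolynomial ι (AlgebraicClosure k))} (hJ : Abelian J)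
    (L₀ : IntermediateField k (AlgebraicClosure k)) [FiniteDimensional k L₀] :
    ∃ L : IntermediateField k (AlgebraicClosure k), FiniteDimensional k L ∧ L₀ ≤ L ∧
      ∃ (m : ℕ) (U V : Type) (_ : Fintype U) (_ : Fintype V) (e d : ℕ),
      ∀ L' : IntermediateField k (AlgebraicClosure k), L ≤ L' →
        (dn L' J).map (map (algebraMap L' (AlgebraicClosure k))) = J ∧
        ∃ (B : AV L' (Fin m)) (α : U → Fin m → MvPolynomial ι L')
          (β : V → ι → MvPolynomial (Fin m) L'),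
          Chs (dn L' J) B.I e α ∧ Chs B.I (dn L' J) d β ∧ Idn (dn L' J) α β ∧ Idn B.I β α := by
  obtain ⟨A, _, co, h, hs⟩ := hJ
  obtain ⟨m, J', co', Φ, h', hΦ, m1, m2⟩ := Cu.model h hs
  have : Nonempty A := ⟨0⟩
  obtain ⟨U, hU, e, α, a1, a2⟩ := mor_chs h h' m1
  obtain ⟨V, hV, d, β, b1, b2⟩ := mor_chs h' h m2
  obtain ⟨T, hT⟩ : J.FG := IsNoetherian.noetherian J
  obtain ⟨T', hT'⟩ : J'.FG := IsNoetherian.noetherian J'
  obtain ⟨K₁, _, c₁, f₁⟩ := ex_field L₀ (Sum.elim (Subtype.val : T → _) (Function.uncurry α))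
  obtain ⟨K₂, _, c₂, f₂⟩ := ex_field K₁ (Sum.elim (Subtype.val : T' → _) (Function.uncurry β))
  obtain ⟨L, hL, c₃, f₃⟩ := ex_field K₂ (Function.uncurry Φ)
  refine ⟨L, hL, c₁.trans (c₂.trans c₃), m, U, V, hU, hV, e, d, fun L' c₄ => ?_⟩
  choose α₀ hα using fun u a => f₁ L' (c₂.trans (c₃.trans c₄)) (.inr (u, a))
  choose β₀ hβ using fun u a => f₂ L' (c₃.trans c₄) (.inr (u, a))
  choose Φ₀ hΦ₀ using fun a b => f₃ L' c₄ (a, b)
  obtain rfl : α = fun u a => map (algebraMap L' _) (α₀ u a) := (funext₂ hα).symm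
  obtain rfl : β = fun u a => map (algebraMap L' _) (β₀ u a) := (funext₂ hβ).symm
  obtain rfl : Φ = fun u a => map (algebraMap L' _) (Φ₀ u a) := (funext₂ hΦ₀).symm
  have n1 := dn_map (K := L') hT.symm fun P hP => f₁ L' (c₂.trans (c₃.trans c₄)) (.inl ⟨P, hP⟩)
  have n2 := dn_map (K := L') hT'.symm fun P hP => f₂ L' (c₃.trans c₄) (.inl ⟨P, hP⟩)
  obtain ⟨B, hB⟩ := exists_model h' hΦ n2
  refine ⟨n1, B, α₀, β₀, ?_⟩
  rw [hB]
  exact ⟨chs_down a1 n1, chs_down b1 n2, idn_down (idn_of h a1.hom b1.hom a2 b2),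
    idn_down (idn_of h' b1.hom a1.hom b2 a2)⟩

end Pool.Agent.Lib.MP_651af7_nt.Tl
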