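import Pool.Agent.Lib.MP_651af7_nt.Bx.Wr
import Pool.Agent.Lib.MP_8865d3_nt.Lr.Wr

/-! Varieties with a torus action whose logarithmic tangent bundle has trivial determinant. -/

namespace Pool.Agent.Lib.MP_651af7_nt.Tl

open MvPolynomial Module Av Bx

noncomputable section

variable {k ν μ κ Γ : Type} [Field k] [Fintype ν] [DecidableEq ν] [Fintype μ] {D R : ℕ}

/-- The multidegree of a variable. -/
def mw (s : ν × μ) : ν → ℕ := Pi.single s.1 1

/-- No block vanishes. -/
def Blk {F : Type} [Zero F] (z : ν × μ → F) : Prop := ∀ j, (fun b => z (j, b)) ≠ 0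

/-- The vector fields `W c j` span the tangent space where `wt c` does not vanish, and their
determinant is `wt c ^ D` up to a factor that does not depend on `c`. -/
structure Par (Q : Ideal (MvPolynomial (ν × μ) k))
    (W : Γ → Fin D → ν × μ → MvPolynomial (ν × μ) k) (wt : Γ → MvPolynomial (ν × μ) k) (R : ℕ) :
    Prop where
  homW : ∀ c j s, (W c j s).IsWeightedHomogeneous mw (mw s + fun _ => R)
  homw : ∀ c, (wt c).IsWeightedHomogeneous mw fun _ => R
  cov : ∀ (F : Type) [Field F] [Algebra k F] (z : ν × μ → F), Blk z → (∀ P ∈ Q, aeval z P = 0) →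
    ∃ c, aeval z (wt c) ≠ 0
  frame : ∀ (F : Type) [Field F] [Algebra k F] (z : ν × μ → F), Blk z → (∀ P ∈ Q, aeval z P = 0) →
    ∃ (c₀ : F) (w : Fin D → ν × μ → F), c₀ ≠ 0 ∧ z ∈ tsp Q z ∧ (∀ j, w j ∈ tsp Q z) ∧
      LinearIndependent F (Fin.cons z w : Fin (D + 1) → ν × μ → F) ∧
      tsp Q z ≤ Submodule.span F (Set.range (Fin.cons z w : Fin (D + 1) → ν × μ → F)) ∧
      ∀ c, ∃ (N : Matrix (Fin D) (Fin D) F) (t : Fin D → F), N.det = c₀ * aeval z (wt c) ^ D ∧
        ∀ j s, aeval z (W c j s) = ∑ l, N j l * w l s + t j * z s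

/-- The Wronskian forms. -/
def wr (W : Γ → Fin D → ν × μ → MvPolynomial (ν × μ) k) (ψ : κ → MvPolynomial (ν × μ) k) (c : Γ) :
    (Fin (D + 1) → κ) → MvPolynomial (ν × μ) k :=
  minors (Fin.cons ψ fun j i => dP (X : ν × μ → MvPolynomial (ν × μ) k) (W c j) (ψ i))

omit [Fintype μ] in
/-- Composition of a weight with an additive map. -/
theorem wh_map {τ M M' : Type} [AddCommMonoid M] [AddCommMonoid M'] (f : M →+ M') {w : τ → M}
    {P : MvPolynomial τ k} {m : M} (h : P.IsWeightedHomogeneous w m) :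
    P.IsWeightedHomogeneous (fun s => f (w s)) (f m) := fun u hu => by
  rw [← h hu, Finsupp.weight_apply, Finsupp.weight_apply, map_finsuppSum]
  simp only [map_nsmul]

/-- The pairing of a multidegree with a weight vector. -/
def pr (ω : ν → ℕ) : (ν → ℕ) →+ ℕ where
  toFun m := ∑ j, m j * ω j
  map_zero' := by simp
  map_add' m m' := by simp [add_mul, Finset.sum_add_distrib]

omit [Fintype μ] in
theorem pr_mw (ω : ν → ℕ) (s : ν × μ) : pr ω (mw s) = ω s.1 := by
  simp [pr, mw, Pi.single_apply]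

omit [Fintype μ] in
theorem wh_pr {P : MvPolynomial (ν × μ) k} {m : ν → ℕ} (h : P.IsWeightedHomogeneous mw m)
    (ω : ν → ℕ) : P.IsWeightedHomogeneous (fun s => ω s.1) (∑ j, m j * ω j) := by
  have h1 := wh_map (pr ω) h
  simp only [pr_mw] at h1
  exact h1

omit [Fintype μ] in
theorem wh_hom {P : MvPolynomial (ν × μ) k} {m : ν → ℕ} (h : P.IsWeightedHomogeneous mw m) :
    P.IsHomogeneous (∑ j, m j) := by
  have h1 := wh_pr h fun _ => 1
  simp only [mul_one] at h1
  exact h1

variable {Q : Ideal (MvPolynomial (ν × μ) k)} {W : Γ → Fin D → ν × μ → MvPolynomial (ν × μ) k}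
  {wt : Γ → MvPolynomial (ν × μ) k} {F : Type} [Field F] [Algebra k F] {z : ν × μ → F}

theorem Par.whW (h : Par Q W wt R) (ω : ν → ℕ) (c : Γ) (j : Fin D) (s : ν × μ) :
    (W c j s).IsWeightedHomogeneous (fun s => ω s.1) (ω s.1 + R * ∑ i, ω i) := by
  have h1 := wh_map (pr ω) (h.homW c j s)
  simp only [pr_mw, map_add] at h1
  rwa [Finset.mul_sum]

theorem Par.whw (h : Par Q W wt R) (ω : ν → ℕ) (c : Γ) :
    (wt c).IsWeightedHomogeneous (fun s => ω s.1) (R * ∑ i, ω i) :=
  Finset.mul_sum Finset.univ ω R ▸ wh_pr (h.homw c) ω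

theorem Par.degw (h : Par Q W wt R) (c : Γ) : (wt c).IsHomogeneous (R * Fintype.card ν) := by
  have h1 := h.whw (fun _ => 1) c
  rwa [Finset.sum_const, smul_eq_mul, mul_one] at h1

theorem Par.rank (h : Par Q W wt R) (h0 : Blk z) (hz : ∀ P ∈ Q, aeval z P = 0) :
    finrank F (tsp Q z) = D + 1 := by
  obtain ⟨-, w, -, h1, hw, hi, hs, -⟩ := h.frame F z h0 hz
  rw [le_antisymm hs (Submodule.span_le.2 (Set.range_subset_iff.2 (Fin.cases h1 hw))),
    finrank_span_eq_card hi, Fintype.card_fin]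

omit [Fintype ν] [DecidableEq ν] [Fintype μ] in
theorem blk_gen (hn : ∀ j, ∃ b, X (j, b) ∉ Q) (hz : ∀ P : MvPolynomial (ν × μ) k,
    aeval z P = 0 → P ∈ Q) : Blk z := fun j e =>
  (hn j).elim fun b hb => hb (hz _ ((aeval_X z _).trans (congrFun e b)))

theorem Par.ne (h : Par Q W wt R) [Q.IsPrime] (hn : ∀ j, ∃ b, X (j, b) ∉ Q) : ∃ c, wt c ∉ Q := by
  obtain ⟨M, _, _, x, hx, -⟩ := tr_point Q
  exact (h.cov M x (blk_gen hn fun P => (hx P).1) fun P => (hx P).2).imp fun c hc e =>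
    hc ((hx _).2 e)

variable [CharZero k]

theorem Par.tan (h : Par Q W wt R) [Q.IsPrime] (hn : ∀ j, ∃ b, X (j, b) ∉ Q) (c : Γ) (j : Fin D) :
    ∀ P ∈ Q, dP (X : ν × μ → MvPolynomial (ν × μ) k) (W c j) P ∈ Q := by
  intro P hP
  obtain ⟨M, _, _, x, hx, -⟩ := tr_point Q
  obtain ⟨_, w, -, h1, hw, -, -, h2⟩ := h.frame M x (blk_gen hn fun P => (hx P).1)
    fun P => (hx P).2
  obtain ⟨N, t, -, h3⟩ := h2 c
  have h4 := map_dP (aeval x) X (W c j) P
  simp only [aeval_X] at h4
  have h5 : (fun s => aeval x (W c j s)) = ∑ l, N j l • w l + t j • x := funext fun s => by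
    rw [h3, Pi.add_apply, Finset.sum_apply]
    rfl
  rw [← hx, h4, h5]
  exact mem_tsp.1 (add_mem (sum_mem fun l _ => Submodule.smul_mem _ _ (hw l))
    (Submodule.smul_mem _ _ h1)) P hP

theorem Par.wr_hom (h : Par Q W wt R) {ψ : κ → MvPolynomial (ν × μ) k} {d : ℕ}
    (hψ : ∀ i, (ψ i).IsHomogeneous d) (c : Γ) (S : Fin (D + 1) → κ) :
    (wr W ψ c S).IsHomogeneous ((D + 1) * d + D * (R * Fintype.card ν)) := by
  have h1 := minors_hom (δ := Fin.cons d fun _ : Fin D => d + R * Fintype.card ν)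
    (b := Fin.cons ψ fun j i => dP (X : ν × μ → MvPolynomial (ν × μ) k) (W c j) (ψ i))
    (fun j a => Fin.cases (hψ a) (fun j => Pool.Agent.Lib.MP_8865d3_nt.Lr.dP_hom (w := 1)
      (fun s => by
        have h2 := h.whW (fun _ => 1) c j s
        rwa [Finset.sum_const, smul_eq_mul, mul_one] at h2) (hψ a)) j) S
  rwa [Fin.sum_univ_succ, Fin.cons_zero, Finset.sum_congr rfl fun j _ => Fin.cons_succ _ _ j,
    Finset.sum_const, Finset.card_univ, Fintype.card_fin, smul_eq_mul,
    show ∀ e, d + D * (d + e) = (D + 1) * d + D * e from fun e => by ring] at h1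

omit [CharZero k] in
theorem minors_blk {S : Type} [CommRing S] (s : S) (N : Matrix (Fin D) (Fin D) S) (t : Fin D → S)
    (x : κ → S) (u : Fin D → κ → S) (T : Fin (D + 1) → κ) :
    minors (Fin.cons (fun a => s * x a) fun j a => ∑ l, s * N j l * u l a + t j * x a) T =
      N.det * (s ^ (D + 1) * minors (Fin.cons x u) T) := by
  let B : Matrix (Fin (D + 1)) (Fin (D + 1)) S := .of
    (Fin.cons (Fin.cons s 0) fun j => Fin.cons (t j) ((s • N) j))
  have h1 : B.det = s * (s ^ D * N.det) := by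
    have h2 : B.submatrix Fin.succ (Fin.succAbove 0) = s • N := rfl
    rw [Matrix.det_succ_row_zero, Fin.sum_univ_succ, h2, Matrix.det_smul, Fintype.card_fin]
    simp [B]
  rw [show N.det * (s ^ (D + 1) * minors (Fin.cons x u) T) = s * (s ^ D * N.det) *
    minors (Fin.cons x u) T by ring, ← h1, ← minors_mul]
  congr 1
  funext l a
  refine Fin.cases ?_ (fun j => ?_) l
  · simp [B, Fin.sum_univ_succ]
  · simp [B, Fin.sum_univ_succ, add_comm]

omit [DecidableEq ν] [Fintype ν] [Fintype μ] [CharZero k] in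
theorem dP_sum {τ α : Type} [Fintype α] (x : τ → F) (g : α → F) (w : α → τ → F)
    (P : MvPolynomial τ k) : dP x (∑ l, g l • w l) P = ∑ l, g l * dP x (w l) P := by
  classical
  induction (Finset.univ : Finset α) using Finset.induction_on with
  | empty => simp only [Finset.sum_empty, dP_zero]
  | insert a s ha ih => rw [Finset.sum_insert ha, Finset.sum_insert ha, dP_lin, ih]

/-- The frame and the values of the Wronskians, as `Cq.exists_cframe`. -/
theorem Par.wr_val (h : Par Q W wt R) {z : ν × μ → k} (h0 : Blk z)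
    (hz : ∀ P ∈ Q, aeval z P = 0) : ∃ (c₀ : k) (w : Fin D → ν × μ → k), c₀ ≠ 0 ∧
      (∀ j, w j ∈ tsp Q z) ∧ LinearIndependent k (Fin.cons z w : Fin (D + 1) → ν × μ → k) ∧
      ∀ {ψ ψ' : κ → MvPolynomial (ν × μ) k} {e : ℕ} {s : k}, (∀ i, (ψ' i).IsHomogeneous e) →
        (∀ i, aeval z (ψ' i) = s * aeval z (ψ i)) →
        (∀ j, ∃ t : k, ∀ i, dP z (w j) (ψ' i) = s * dP z (w j) (ψ i) + t * aeval z (ψ i)) →
        ∀ c S, aeval z (wr W ψ' c S) =
          c₀ * (aeval z (wt c) ^ D * (s ^ (D + 1) * minors (fr ψ z w) S)) := by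
  obtain ⟨c₀, w, hc, -, hw, hi, -, h1⟩ := h.frame k z h0 hz
  refine ⟨c₀, w, hc, hw, hi, fun {ψ ψ' e s} hψ h2 h3 c S => ?_⟩
  obtain ⟨N, t, hN, h4⟩ := h1 c
  choose u hu using h3
  rw [← mul_assoc, ← hN, fr, ← minors_blk s N fun j => ∑ l, N j l * u l + t j * e * s]
  refine (map_minors (aeval z : MvPolynomial (ν × μ) k →ₐ[k] k).toRingHom _ S).trans ?_
  congr 1
  funext j a
  refine Fin.cases (h2 a) (fun j => ?_) j
  have h7 := map_dP (aeval z : MvPolynomial (ν × μ) k →ₐ[k] k) X (W c j) (ψ' a)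
  simp only [aeval_X] at h7
  have h5 : (fun s => aeval z (W c j s)) = ∑ l, N j l • w l + t j • z := funext fun s => by
    rw [h4, Pi.add_apply, Finset.sum_apply]
    rfl
  rw [h5, dP_add, dP_sum, dP_smul, dP_self (hψ a), h2] at h7
  refine h7.trans ?_
  simp only [Fin.cons_succ, hu, mul_add, add_mul, Finset.sum_add_distrib, Finset.sum_mul]
  rw [add_assoc]
  congr 1
  · exact Finset.sum_congr rfl fun l _ => by ring
  · congr 1
    · exact Finset.sum_congr rfl fun l _ => by ring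
    · ring

/-- The transcendence degree, as `Bx.exists_indep`. -/
theorem Par.indep (h : Par Q W wt R) [Q.IsPrime] (hn : ∀ j, ∃ b, X (j, b) ∉ Q) :
    ∃ z : Fin (D + 1) → MvPolynomial (ν × μ) k ⧸ Q, AlgebraicIndependent k z := by
  classical
  obtain ⟨M, _, _, x, hx, -⟩ := tr_point Q
  obtain ⟨τ, j, hj, h1, -, h3⟩ := exists_td_basis_range k x
  have : Finite τ := .of_injective j hj
  obtain ⟨n, ⟨e⟩⟩ := Finite.exists_equiv_fin τ
  let I : Fin n → ν × μ := j ∘ e.symm
  have hI : AlgebraicIndependent k (x ∘ I) := h1.comp e.symm e.symm.injective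
  have hR : Set.range (x ∘ I) = Set.range (x ∘ j) := e.symm.surjective.range_comp (x ∘ j)
  have hle : D + 1 ≤ n := by
    rw [← h.rank (blk_gen hn fun P => (hx P).1) fun P hP => (hx P).2 hP]
    let f : tsp Q x →ₗ[M] (Fin n → M) := (LinearMap.funLeft M M I).comp (tsp Q x).subtype
    have hf : Function.Injective f := by
      rw [injective_iff_map_eq_zero]
      rintro ⟨v, hv⟩ h
      have hz : ∀ t, v (I t) = 0 := fun t => congrFun h t
      refine Subtype.ext (funext fun a => ?_)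
      by_cases ha : a ∈ Set.range I
      · obtain ⟨t, rfl⟩ := ha
        exact hz t
      obtain ⟨φ, hφ, e1, e2⟩ := trb_eqn hI ha (by rw [hR]; exact h3 a)
      have h4 := mem_tsp.1 hv φ ((hx φ).1 e1)
      rw [dP_eq_sum, Finset.sum_eq_single a _ fun h => (h (Finset.mem_univ a)).elim] at h4
      · exact (mul_eq_zero.1 h4).resolve_left e2
      intro b _ hb
      by_cases hb' : b ∈ Set.range I
      · obtain ⟨t, rfl⟩ := hb'
        rw [hz, mul_zero]
      · rw [pderiv_eq_zero_of_notMem_vars fun h => (mem_supported.1 hφ h).elim hb hb', map_zero,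
          zero_mul]
    simpa using LinearMap.finrank_le_finrank_of_injective hf
  let g : (MvPolynomial (ν × μ) k ⧸ Q) →ₐ[k] M :=
    Ideal.Quotient.liftₐ Q (aeval x) fun P hP => (hx P).2 hP
  refine ⟨fun t => Ideal.Quotient.mk Q (X (I (Fin.castLE hle t))), .of_comp g ?_⟩
  convert hI.comp _ (Fin.castLE_injective hle) using 1
  funext t
  exact aeval_X _ _

end

end Pool.Agent.Lib.MP_651af7_nt.Tl
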