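import Pool.Agent.Lib.MP_651af7_nt.Tl.Core
import Pool.Agent.Lib.MP_651af7_nt.Tl.Cnt
import Pool.Agent.Lib.MP_651af7_nt.Tl.Mod
import Pool.Agent.Lib.MP_651af7_nt.Tl.Hyp
import Pool.Agent.Lib.MP_651af7_nt.Tb.Main

/-! The inequality over a field of definition of the torus bundle. -/

namespace Pool.Agent.Lib.MP_651af7_nt.Tl

open MvPolynomial Module Height NumberField Av Bx Ds
open Pool.Agent.Lib.MP_8865d3_nt
open Sa (VI)

theorem ready {k : Type} [Field k] [NumberField k] {n r : ℕ}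
    {Q : Ideal (MvPolynomial (Fin (n + 1) × Fin r) (AlgebraicClosure k))} (hp : Q.IsPrime)
    (hQ : ∀ P ∈ Q, ∀ m, Tb.cp m P ∈ Q) (hA : Abelian (Tb.base Q))
    (L₀ : IntermediateField k (AlgebraicClosure k)) [FiniteDimensional k L₀] :
    ∃ L : IntermediateField k (AlgebraicClosure k), ∃ _ : NumberField L, L₀ ≤ L ∧
      ∀ {κ β γ : Type} [Fintype κ] [Fintype β] [Fintype γ] {I : Ideal (MvPolynomial κ L)}
        {g e e' : ℕ} {φ : Fin (n + 1) × Fin r → MvPolynomial κ L}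
        {ψ : κ → MvPolynomial (Fin (n + 1) × Fin r) L} {F : β → MvPolynomial κ L}
        {G : γ → MvPolynomial κ L} {ε : ℝ}, Var I → Smooth I g → Inv I (dn L Q) φ ψ →
        Inv (dn L Q) I ψ φ → (∀ l, (F l).IsHomogeneous e) → (∀ l, (G l).IsHomogeneous e') →
        VI I g F G → 0 < ε → Cc I g φ F e G e' ε := by
  obtain ⟨L, hL, h0, m, U, V, _, _, e, d, h⟩ := model hp hQ hA L₀
  have hN : NumberField L := NumberField.of_module_finite k L
  obtain ⟨hm, -, -, B, α, β, hT⟩ := h L le_rfl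
  obtain ⟨h1, h2, h3, h4, ⟨g, h5⟩, -, M, J, h6, h7⟩ := hyp (k := k) hp hQ hA hm
  obtain ⟨s, σ, hσ⟩ := exists_lieBasis B
  obtain ⟨W, wt, R, hP⟩ := hT.par hσ
  exact ⟨L, hN, h0, fun hI hs i₁ i₂ hF hG hv hε => core hI hs hP
    (fun m G hc Δ hΔ R hR Δ' hΔ' ε hε =>
      Tb.main L _ r M g m _ h1 h2 h4 h5 J h6 h7 G hc Δ hΔ R hR Δ' hΔ' ε hε)
    h1 h2 h3 i₁ i₂ hF hG hv hε⟩

end Pool.Agent.Lib.MP_651af7_nt.Tl
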