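import Pool.Agent.Lib.MP_651af7_nt.Tl.Rdy
import Pool.Agent.Lib.MP_651af7_nt.Sc.Cov
import Pool.Agent.Lib.MP_8865d3_nt.Sx.Loc
import Pool.Agent.Lib.MP_8865d3_nt.Sx.Lift
import Pool.Agent.Lib.MP_8865d3_nt.Lr.Down

/-! The cover, its charts and the torus bundle over one number field. -/

namespace Pool.Agent.Lib.MP_651af7_nt.Tl

open MvPolynomial Module Height NumberField Av Bx Ds Et
open Tb (base)
open Pool.Agent.Lib.MP_8865d3_nt
open Sv (isum isum_mono isum_add plc isum_plc)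
open Sa (VI cnt)
open Sx (del_bd lam_cov lift_all)

theorem Cc.down {L σ κ μ β γ T : Type} [Field L] [NumberField L] [Fintype σ] [Fintype κ]
    [Fintype β] [Fintype γ] [Fintype T] {n g d e e' : ℕ} {I₁ : Ideal (MvPolynomial σ L)}
    {φ : Fin (n + 1) × μ → MvPolynomial σ L} {ε : ℝ}
    {I : Ideal (MvPolynomial κ L)} {π : T → κ → MvPolynomial σ L} (h5 : Cov I₁ I d π)
    (h6 : ∀ t t' i j, π t i * π t' j - π t j * π t' i ∈ I₁)
    (hI₁ : ∀ P ∈ I₁, ∀ d, homogeneousComponent d P ∈ I₁)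
    (hI : ∀ P ∈ I, ∀ d, homogeneousComponent d P ∈ I) {F : β → MvPolynomial κ L}
    {G : γ → MvPolynomial κ L} (hF : ∀ l, (F l).IsHomogeneous e) (hG : ∀ l, (G l).IsHomogeneous e')
    (H : Cc I₁ g φ (fun p : T × β => aeval (π p.1) (F p.2)) ((d + 1) * e)
      (fun p : T × γ => aeval (π p.1) (G p.2)) ((d + 1) * e') ε) :
    ∃ (Θ : MvPolynomial σ L) (t : ℕ), Θ.IsHomogeneous t ∧ Θ ∉ I₁ ∧ ∃ c : ℝ, 0 ≤ c ∧
      ∀ S : Finset (FinitePlace L), ∃ C : ℝ, ∀ (y : σ → L) (x : κ → L) (s : T → L),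
        y ≠ 0 → (∀ P ∈ I₁, eval y P = 0) → eval y Θ ≠ 0 → x ≠ 0 →
        (∀ t i, eval y (π t i) = s t * x i) → (fun l => eval x (F l)) ≠ 0 →
        (fun l => eval x (G l)) ≠ 0 → finrank L (tsp I x) = g + 1 →
        Blk (fun s => eval y (φ s)) ∧ ∀ w : Fin (g + 1) → κ → L,
        LinearIndependent L w → (∀ l, w l ∈ tsp I x) →
        hK x w + isum (plc S) (fun v => lam v F e x - lam v G e' x) ≤
          ε * logHeight y + c * cnt S (fun s => eval y (φ s)) + C := by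
  obtain ⟨Θ, t, t1, t2, c₀, c0, t3⟩ := H
  obtain ⟨C₁, t4⟩ := Sc.hK_cov (g := g) h5 h6 hI₁ hI
  choose c hc using fun v => del_bd v h5 hI₁
  refine ⟨Θ, t, t1, t2, c₀, c0, fun S => ?_⟩
  obtain ⟨C, hC⟩ := t3 S
  refine ⟨C + C₁ + isum (plc S) fun v => (e + e') * c v,
    fun y x s y0 yz yΘ x0 hx xF xG r1 => ?_⟩
  obtain ⟨t₀, l₀, h0⟩ := h5.ne L y y0 yz
  have s0 : s ≠ 0 := Function.ne_iff.2 ⟨t₀, left_ne_zero_of_mul ((hx t₀ l₀).symm.trans_ne h0)⟩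
  have k1 := fun v => lam_cov v (d := d + 1) hF hx y0 s0 x0 xF
  have k2 := fun v => lam_cov v (d := d + 1) hG hx y0 s0 x0 xG
  have v₀ : AbsoluteValue L ℝ := (Classical.arbitrary (InfinitePlace L)).1
  obtain ⟨r0, r2, e2⟩ := hC y y0 yz yΘ (k1 v₀).1 (k2 v₀).1
  refine ⟨r0, fun w b1 b2 => ?_⟩
  let w' := Module.finBasisOfFinrankEq L _ r2
  have b3 := w'.linearIndependent.map' (tsp I₁ y).subtype (Submodule.ker_subtype _)
  have e3 := e2 _ b3 fun l => (w' l).2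
  have e4 := t4 y x s y0 yz x0 hx r2 r1 w _ b1 b2 b3 fun l => (w' l).2
  have e5 := isum_mono (plc S) (f := fun v => lam v F e x - lam v G e' x)
    (g := fun v => (lam v (fun p : T × β => aeval (π p.1) (F p.2)) ((d + 1) * e) y -
      lam v (fun p : T × γ => aeval (π p.1) (G p.2)) ((d + 1) * e') y) + (e + e') * c v)
    fun v _ _ => by
      have m1 := mul_le_mul_of_nonneg_left (abs_le.1 (hc v y y0 yz)).1 (Nat.cast_nonneg (α := ℝ) e)
      have m2 := mul_le_mul_of_nonneg_left (abs_le.1 (hc v y y0 yz)).2 (Nat.cast_nonneg (α := ℝ) e')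
      rw [(k1 v).2, (k2 v).2]
      linarith
  rw [isum_add, isum_plc S fun v => _ - lam v _ ((d + 1) * e') y] at e5
  linarith

variable {k κ σ : Type} [Field k] [NumberField k] [Fintype κ] [Fintype σ] {n r g : ℕ}
  {I' : Ideal (MvPolynomial σ (AlgebraicClosure k))}
  {Q : Ideal (MvPolynomial (Fin (n + 1) × Fin r) (AlgebraicClosure k))}
  {φ : Fin (n + 1) × Fin r → MvPolynomial σ (AlgebraicClosure k)}
  {ψ : σ → MvPolynomial (Fin (n + 1) × Fin r) (AlgebraicClosure k)}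

theorem setup {I : Ideal (MvPolynomial κ k)} {f : (σ → AlgebraicClosure k) → κ → AlgebraicClosure k}
    (hI : Var I) (hs : Smooth I g) (hI' : Var I')
    (h : Etale I' (I.map (map (algebraMap k (AlgebraicClosure k)))) f)
    (hp : Q.IsPrime) (hQ : ∀ P ∈ Q, ∀ m, Tb.cp m P ∈ Q) (hA : Abelian (base Q))
    (i₁ : Inv I' Q φ ψ) (i₂ : Inv Q I' ψ φ) :
    ∃ (K : IntermediateField k (AlgebraicClosure k)) (_ : NumberField K)
      (I₁ : Ideal (MvPolynomial σ K)) (φ₀ : Fin (n + 1) × Fin r → MvPolynomial σ K) (T : Type)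
      (_ : Fintype T) (d : ℕ) (π : T → κ → MvPolynomial σ K) (a : ℕ) (C : ℝ), Var I₁ ∧
      Cov I₁ (up K I) d π ∧ (∀ t t' i j, π t i * π t' j - π t j * π t' i ∈ I₁) ∧
      (∀ t, (∃ l, π t l ∉ I₁) → ∀ (P : MvPolynomial κ k) m, P.IsHomogeneous m →
        (aeval (π t) P ∈ I₁ ↔ P ∈ I)) ∧
      (∀ {β γ : Type} [Fintype β] [Fintype γ] {F : β → MvPolynomial σ K}
        {G : γ → MvPolynomial σ K} {e e' : ℕ} {ε : ℝ}, (∀ l, (F l).IsHomogeneous e) →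
        (∀ l, (G l).IsHomogeneous e') → VI I₁ g F G → 0 < ε → Cc I₁ g φ₀ F e G e' ε) ∧
      ∀ (H : MvPolynomial σ K) (t : ℕ), H.IsHomogeneous t → H ∉ I₁ →
      ∃ (Θ : MvPolynomial κ k) (t' : ℕ), Θ.IsHomogeneous t' ∧ Θ ∉ I ∧
        ∀ (x : κ → k) (y₀ : σ → AlgebraicClosure k), x ≠ 0 → eval x Θ ≠ 0 →
        Ov I' f (fun i => algebraMap k (AlgebraicClosure k) (x i)) y₀ →
        ∃ (y : σ → K) (s : T → K) (u : AlgebraicClosure k), y ≠ 0 ∧
        (∀ P ∈ I₁, eval y P = 0) ∧ eval y H ≠ 0 ∧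
        (∀ t i, eval y (π t i) = s t * algebraMap k K (x i)) ∧
        logHeight y ≤ a * logHeight (fun i => algebraMap k K (x i)) + C ∧
        ∀ j, algebraMap K (AlgebraicClosure k) (eval y (φ₀ j)) = u * eval y₀ (φ j) := by
  obtain ⟨b, hb₁⟩ : ∃ b, X b ∉ I' := by
    by_contra! hc
    obtain ⟨i, hi⟩ := i₁.ne
    exact hi (i₁.map _ (by simpa only [aeval_X] using i₂.map _ (hc i)))
  obtain ⟨T, hT, d, π, c1, c2⟩ := h.family
  obtain ⟨L, _, Θ₁, t₁, a, l1, l2, l3⟩ := lift_all (k := k) h hI' hI.prime (Ds.hom_map hI.hom) hb₁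
  obtain ⟨s', hs'⟩ : I'.FG := IsNoetherian.noetherian I'
  obtain ⟨K₁, _, k1, f1⟩ := ex_field L
    (Sum.elim (Subtype.val : s' → _) fun p : T × κ => π p.1 p.2)
  obtain ⟨K₂, _, b₂, a₂⟩ := ex_field K₁ φ
  obtain ⟨K₃, _, b₃, a₃⟩ := ex_field K₂ ψ
  obtain ⟨K, hK, b₄, core⟩ := ready hp hQ hA K₃
  have k2 := b₂.trans (b₃.trans b₄)
  choose ψ₀ hψ using a₃ K b₄
  choose φ₀ hχ using a₂ K (b₃.trans b₄)
  have j₁ : Inv (dn K I') (dn K Q) φ₀ ψ₀ := inv_dn (by rwa [funext hχ, funext hψ])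
  have j₂ : Inv (dn K Q) (dn K I') ψ₀ φ₀ := inv_dn (by rwa [funext hχ, funext hψ])
  choose π' hπ using fun t i => f1 K k2 (.inr (t, i))
  obtain rfl : π = fun t i => map (algebraMap K _) (π' t i) := (funext₂ hπ).symm
  have m1 := dn_map (K := K) hs'.symm fun P hP => f1 K k2 (.inl ⟨P, hP⟩)
  obtain ⟨C, hC⟩ := l3 K (k1.trans k2)
  obtain ⟨dχ, hd⟩ := i₁.hom
  have e0 : ∀ t (P : MvPolynomial κ k), map (algebraMap K (AlgebraicClosure k)) (aeval (π' t) P) =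
      aeval (fun i => map (algebraMap K (AlgebraicClosure k)) (π' t i)) P := fun t =>
    comp_aeval_apply (π' t) (mapAlgHom (IsScalarTower.toAlgHom k K (AlgebraicClosure k)))
  refine ⟨K, hK, dn K I', φ₀, T, hT, d, π', a, C, var_dn hI' m1,
    cov_dn h hI' hI ⟨b, hb₁⟩ m1 c1 c2, fun t t' i j => ?_, fun t ht P r hP => ?_,
    fun hF hG' hv hε => core (var_dn hI' m1) (smooth_dn (fun y y0 hy => ?_) m1) j₁ j₂ hF hG' hv
      hε, fun H t hH H0 => ?_⟩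
  · simpa only [mem_dn, map_sub, map_mul] using (c1 t).prop hI' ⟨b, hb₁⟩ (c1 t') i j
  · rw [mem_dn, e0, ← aeval_map_algebraMap (AlgebraicClosure k)]
    exact ⟨fun h5 => mem_of_map_mem (h.mem_of_aeval hI'
      (Lr.up_eq (K := AlgebraicClosure k) I ▸ var_up hI) (c1 t) ht (hP.map _) h5), fun h5 =>
      h.map_mem hI' ⟨b, hb₁⟩ (Ds.hom_map hI.hom) (c1 t) _ (Ideal.mem_map_of_mem _ h5)⟩
  · have h5 := (zero_map (K := AlgebraicClosure k)).1 (h.map y y0 hy).2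
    rw [h.rank y0 hy, tsp_map h5]
    exact hs _ (h.map y y0 hy).1 h5
  obtain ⟨Θ₂, t₂, n1, n2, n3⟩ := alg_ne h hI' (Ds.hom_map hI.hom) hb₁ (hH.map _) H0
  obtain ⟨Θ, u1, u2, u3⟩ := ex_theta (l1.mul n1) fun e => (hI.prime.mem_or_mem e).elim l2 n2
  refine ⟨Θ, _, u1, u2, fun x y₀ x0 xΘ hy₀ => ?_⟩
  have h5 := u3 x xΘ
  rw [map_mul, mul_ne_zero_iff] at h5
  obtain ⟨y, u, y1, y4, y2, y3⟩ := hC x y₀ x0 h5.1 hy₀
  have x0' : (fun i => algebraMap k (AlgebraicClosure k) (x i)) ≠ 0 := fun e =>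
    x0 (funext fun a => (map_eq_zero _).1 (congrFun e a))
  obtain ⟨i₀, hi₀⟩ := Function.ne_iff.1 x0
  refine ⟨y, fun t => eval y (π' t i₀) / algebraMap k K (x i₀), u ^ dχ, Function.ne_iff.2
    ⟨b, y1.trans_ne one_ne_zero⟩, fun P hP => (map_eq_zero _).1 ((ev_map y P).symm.trans
      (y2.2.1 _ hP)), fun e => n3 _ _ x0' y2 (by rw [y1, map_one]) h5.2
        (by rw [ev_map, e, map_zero]), fun t i => ?_, y3, fun j => ?_⟩
  · obtain ⟨c, hc⟩ := (c1 t).ov x0' y2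
    rw [div_mul_eq_mul_div, eq_div_iff ((map_ne_zero _).2 hi₀)]
    refine (algebraMap K (AlgebraicClosure k)).injective ?_
    rw [map_mul, map_mul, ← ev_map, ← ev_map, hc, hc, ← IsScalarTower.algebraMap_apply,
      ← IsScalarTower.algebraMap_apply, mul_right_comm]
  · rw [← ev_map, y4, hχ]
    exact eval_mul_of_hom (hd j) u y₀

end Pool.Agent.Lib.MP_651af7_nt.Tl
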