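import Pool.Agent.Lib.MP_651af7_nt.Tl.EDefs

/-! The support function of the multidegrees of a family; from integral to real weights. -/

namespace Pool.Agent.Lib.MP_651af7_nt.Tl

open MvPolynomial Finset Av
open Pool.Agent.Lib.MP_8865d3_nt.Sa (sg ord)

variable {k ν μ L L₁ L₂ L₃ L₄ : Type} [Field k] [Fintype ν] [DecidableEq ν]

/-- The support function of `Δ`. -/
noncomputable def tr (Δ : Finset (ν → ℕ)) (x : ν → ℝ) : ℝ := ⨆ a : Δ, ∑ j, a.1 j * x j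

section

omit [DecidableEq ν]

variable {Δ : Finset (ν → ℕ)} {d : ℕ}

theorem le_tr {a : ν → ℕ} (h : a ∈ Δ) (x : ν → ℝ) : ∑ j, a j * x j ≤ tr Δ x :=
  Finite.le_ciSup (fun a : Δ => ∑ j, (a.1 j : ℝ) * x j) ⟨a, h⟩

theorem exists_tr (h : Δ.Nonempty) (x : ν → ℝ) : ∃ a ∈ Δ, ∑ j, a j * x j = tr Δ x := by
  have := h.to_subtype
  obtain ⟨a, ha⟩ := exists_eq_ciSup_of_finite (f := fun a : Δ => ∑ j, (a.1 j : ℝ) * x j)
  exact ⟨a, a.2, ha⟩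

theorem tr_near (h : Δ.Nonempty) (hd : ∀ a ∈ Δ, ∑ j, a j = d) {x y : ν → ℝ} {t M : ℝ} (ht : 0 ≤ t)
    (hy : ∀ j, |t * x j - M - y j| ≤ 1) : |t * tr Δ x - d * M - tr Δ y| ≤ d := by
  have key : ∀ a ∈ Δ, |t * ∑ j, a j * x j - d * M - ∑ j, a j * y j| ≤ d := fun a ha => by
    have h1 : t * ∑ j, a j * x j - d * M - ∑ j, a j * y j = ∑ j, a j * (t * x j - M - y j) := by
      simp only [← hd a ha, Nat.cast_sum, sum_mul, mul_sum, ← sum_sub_distrib]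
      exact sum_congr rfl fun j _ => by ring
    rw [h1, ← hd a ha, Nat.cast_sum]
    refine (abs_sum_le_sum_abs _ _).trans (sum_le_sum fun j _ => ?_)
    rw [abs_mul, Nat.abs_cast]
    exact mul_le_of_le_one_right (Nat.cast_nonneg _) (hy j)
  obtain ⟨a, ha, h1⟩ := exists_tr h x
  obtain ⟨b, hb, h2⟩ := exists_tr h y
  have h3 := (abs_le.1 (key a ha)).2
  have h4 := (abs_le.1 (key b hb)).1
  have h5 := le_tr ha y
  have h6 := mul_le_mul_of_nonneg_left (le_tr hb x) ht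
  rw [h1] at h3
  rw [h2] at h4
  exact abs_le.2 ⟨by linarith, by linarith⟩

theorem tr_real {Δ₁ Δ₂ Δ₃ Δ₄ : Finset (ν → ℕ)} {d₁ d₂ d₃ d₄ p q : ℕ} (n₁ : Δ₁.Nonempty)
    (n₂ : Δ₂.Nonempty) (n₃ : Δ₃.Nonempty) (n₄ : Δ₄.Nonempty) (g₁ : ∀ a ∈ Δ₁, ∑ j, a j = d₁)
    (g₂ : ∀ a ∈ Δ₂, ∑ j, a j = d₂) (g₃ : ∀ a ∈ Δ₃, ∑ j, a j = d₃) (g₄ : ∀ a ∈ Δ₄, ∑ j, a j = d₄)
    (hd : d₁ + d₂ + q * d₄ = d₃ + p * d₄)
    (h : ∀ ω : ν → ℕ, tr Δ₃ (fun j => -ω j) + p * tr Δ₄ (fun j => -ω j) ≤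
      tr Δ₁ (fun j => -ω j) + tr Δ₂ (fun j => -ω j) + q * tr Δ₄ fun j => -ω j) (x : ν → ℝ) :
    tr Δ₃ x + p * tr Δ₄ x ≤ tr Δ₁ x + tr Δ₂ x + q * tr Δ₄ x := by
  by_contra! h0
  obtain ⟨δ, hδ⟩ : ∃ δ, δ = tr Δ₃ x + p * tr Δ₄ x - (tr Δ₁ x + tr Δ₂ x + q * tr Δ₄ x) := ⟨_, rfl⟩
  have h1 : 0 < δ := hδ ▸ sub_pos.2 h0
  obtain ⟨t, ht, h2⟩ : ∃ t : ℝ, 0 ≤ t ∧ t * δ = d₁ + d₂ + q * d₄ + d₃ + p * d₄ + 1 :=
    ⟨_ / δ, by positivity, div_mul_cancel₀ _ h1.ne'⟩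
  have hy : ∀ j, |t * x j - ∑ i, |t * x i| - -(⌊∑ i, |t * x i| - t * x j⌋₊ : ℝ)| ≤ 1 := fun j => by
    have h3 := Nat.abs_floor_sub_le (a := ∑ i, |t * x i| - t * x j) (sub_nonneg.2
      ((le_abs_self _).trans (single_le_sum (f := fun i => |t * x i|) (fun i _ => abs_nonneg _)
        (mem_univ j))))
    exact (congrArg abs (by ring)).trans_le h3
  have e₁ := (abs_le.1 (tr_near n₁ g₁ ht hy)).1
  have e₂ := (abs_le.1 (tr_near n₂ g₂ ht hy)).1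
  have e₃ := (abs_le.1 (tr_near n₃ g₃ ht hy)).2
  have e₄ := mul_le_mul_of_nonneg_left (abs_le.1 (tr_near n₄ g₄ ht hy)).1 (q.cast_nonneg (α := ℝ))
  have e₅ := mul_le_mul_of_nonneg_left (abs_le.1 (tr_near n₄ g₄ ht hy)).2 (p.cast_nonneg (α := ℝ))
  have e₆ := h fun j => ⌊∑ i, |t * x i| - t * x j⌋₊
  have e₇ : ((d₁ : ℝ) + d₂ + q * d₄) * ∑ i, |t * x i| = (d₃ + p * d₄) * ∑ i, |t * x i| := by
    congr 1
    exact_mod_cast hd
  rw [hδ] at h2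
  linarith

end

/-- The multidegrees that occur in the family modulo `Q`. -/
noncomputable def sp [Fintype L] (Q : Ideal (MvPolynomial (ν × μ) k))
    (Γ : L → MvPolynomial (ν × μ) k) : Finset (ν → ℕ) :=
  @filter _ (fun a => ∃ l, cp a (Γ l) ∉ Q) (Classical.decPred _)
    (univ.biUnion fun l => (Γ l).support.image (Finsupp.weight mw))

variable [Fintype L] {Q : Ideal (MvPolynomial (ν × μ) k)} {Γ : L → MvPolynomial (ν × μ) k} {d : ℕ}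

theorem mem_sp {a : ν → ℕ} : a ∈ sp Q Γ ↔ ∃ l, cp a (Γ l) ∉ Q := by
  rw [sp, @mem_filter _ _ (Classical.decPred _)]
  exact and_iff_right_of_imp fun ⟨l, hl⟩ =>
    mem_biUnion.2 ⟨l, mem_univ l, mem_wsp fun h => hl (h ▸ Q.zero_mem)⟩

theorem sp_ne (hQ : ∀ P ∈ Q, ∀ a, cp a P ∈ Q) (h : ∃ l, Γ l ∉ Q) : (sp Q Γ).Nonempty := by
  obtain ⟨l, hl⟩ := h
  obtain ⟨a, ha⟩ := not_forall.1 (mt (mem_iff hQ _).2 hl)
  exact ⟨a, mem_sp.2 ⟨l, ha⟩⟩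

theorem sp_deg (g : ∀ l, (Γ l).IsHomogeneous d) : ∀ a ∈ sp Q Γ, ∑ j, a j = d := fun a ha => by
  obtain ⟨l, hl⟩ := mem_sp.1 ha
  obtain ⟨m, hm, rfl⟩ := mem_image.1 (mem_wsp fun h => hl (h ▸ Q.zero_mem))
  have h1 := weight_ow (fun _ => 1) m
  simp only [mul_one] at h1
  exact h1.symm.trans (g l (mem_support_iff.1 hm))

/-- The order is the least weight of a multidegree that occurs. -/
theorem ord_eq (hQ : ∀ P ∈ Q, ∀ a, cp a P ∈ Q) (h : (sp Q Γ).Nonempty) (ω : ν → ℕ) :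
    ∃ m : ℕ, ord Q (ow ω) Γ = m ∧ tr (sp Q Γ) (fun j => -ω j) = -m := by
  have key : ∀ l i, (sg Q (ow ω) (Γ l)).coeff i = 0 ↔
      ∀ a, ∑ j, a j * ω j = i → cp a (Γ l) ∈ Q := fun l i => by
    rw [coeff_sg, Ideal.Quotient.eq_zero_iff_mem, mem_iff hQ]
    refine forall_congr' fun a => ?_
    have h1 : cp a (weightedHomogeneousComponent (ow ω) i (Γ l)) =
        if ∑ j, a j * ω j = i then cp a (Γ l) else 0 := by
      ext m
      simp only [coeff_cp, coeff_weightedHomogeneousComponent, apply_ite (coeff m), coeff_zero,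
        weight_ow]
      by_cases h2 : Finsupp.weight mw m = a <;> simp [h2]
    rw [h1]
    split_ifs with h2 <;> simp [h2]
  have h0 : ∀ a : ν → ℕ, ∑ j, (a j : ℝ) * -ω j = -(∑ j, a j * ω j : ℕ) := fun a => by simp
  obtain ⟨a, ha, h1⟩ := exists_tr h fun j => -ω j
  obtain ⟨l₀, h₀⟩ := mem_sp.1 ha
  refine ⟨∑ j, a j * ω j, le_antisymm ?_ (le_iInf fun l => ?_), h1.symm.trans (h0 a)⟩
  · exact iInf_le_of_le l₀ (Polynomial.trailingDegree_le_of_ne_zero fun h2 =>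
      h₀ ((key _ _).1 h2 _ rfl))
  · by_cases h2 : sg Q (ow ω) (Γ l) = 0
    · rw [h2, Polynomial.trailingDegree_zero]
      exact le_top
    rw [Polynomial.trailingDegree_eq_natTrailingDegree h2, Nat.cast_le]
    obtain ⟨b, h3, h4⟩ := by
      simpa only [key, not_forall] using mt Polynomial.coeff_natTrailingDegree_eq_zero.1 h2
    have h5 := le_tr (mem_sp.2 ⟨l, h4⟩) fun j => -ω j
    rwa [← h1, h0, h0, neg_le_neg_iff, Nat.cast_le, h3] at h5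

end Pool.Agent.Lib.MP_651af7_nt.Tl
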